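import Pool.Agent.K7.H38.LB.Resid

set_option autoImplicit false

open Filter Topology Metric Set MeasureTheory
open Pool.Agent.Helper797.Bs

namespace Pool.Agent.K7.H38.LB

variable {n : ℕ}

/-- `ℝⁿ` -/
abbrev E (n : ℕ) : Type := EuclideanSpace ℝ (Fin n)

/-- the sphere of radius `k π` -/
def S (n k : ℕ) : Set (E n) := {t | ‖t‖ = k * Real.pi}

/-- the `m`-th moment, in direction `ω`, of `μ` on the sphere of radius `k π` -/
noncomputable def D (μ : Measure (E n)) (k m : ℕ) (ω : E n) : ℝ :=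
  ⨍ t in S n k, (inner ℝ t ω / (k * Real.pi)) ^ m ∂μ

/-- polynomials with nonzero coefficients only for `i ≤ m - 4`, `i` of the parity of `m` -/
def Adm (m : ℕ) (q : Polynomial ℝ) : Prop := ∀ i, q.coeff i ≠ 0 → i + 4 ≤ m ∧ Even (m - i)

/-- the structure of the positive measure `|ν|` -/
structure Str (μ : Measure (E n)) : Prop where
  conc : ∀ᵐ t ∂μ, ∃ k : ℕ, ‖t‖ = k * Real.pi
  mass_zero : μ {0} = ENNReal.ofReal (n / 3)
  mass : ∀ k : ℕ, 1 ≤ k → μ (S n k) = ENNReal.ofReal (4 * n / (Real.pi ^ 2 * k ^ 2))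
  mom_one : ∀ (ω : E n) (k : ℕ), 1 ≤ k → D μ k 1 ω = 0
  mom_two : ∀ (ω : E n) (k : ℕ), 1 ≤ k → D μ k 2 ω = ‖ω‖ ^ 2 / n
  mom_three : ∀ (ω : E n) (k : ℕ), 1 ≤ k → D μ k 3 ω = 0
  mom : ∀ (ω : E n) (m : ℕ), 4 ≤ m → ∃ q : Polynomial ℝ, Adm m q ∧
    ∀ k : ℕ, 1 ≤ k → D μ k m ω = q.eval (1 / (k : ℝ))

lemma S_meas (k : ℕ) : MeasurableSet (S n k) :=
  measurableSet_eq_fun measurable_norm measurable_const

lemma S_zero : S n 0 = {0} := by
  ext t; simp [S]

lemma S_disj : Pairwise (Function.onFun Disjoint (S n)) := by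
  intro j k hjk
  rw [Function.onFun, Set.disjoint_left]
  intro t h1 h2
  apply hjk
  have h3 : (j : ℝ) * Real.pi = k * Real.pi := by rw [← h1, h2]
  exact_mod_cast mul_right_cancel₀ Real.pi_ne_zero h3

lemma decomp {μ : Measure (E n)} [IsFiniteMeasure μ] (hc : ∀ᵐ t ∂μ, ∃ k : ℕ, ‖t‖ = k * Real.pi)
    {F : E n → ℂ} (hF : Integrable F μ) : HasSum (fun k : ℕ => ∫ t in S n k, F t ∂μ) (∫ t, F t ∂μ) := by
  have h1 := hasSum_integral_iUnion (f := F) (μ := μ) (fun k => S_meas (n := n) k) S_disj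
    hF.integrableOn
  have h2 : μ.restrict (⋃ k, S n k) = μ := by
    apply Measure.restrict_eq_self_of_ae_mem
    filter_upwards [hc] with t ht
    obtain ⟨k, hk⟩ := ht
    exact mem_iUnion.2 ⟨k, hk⟩
  rw [h2] at h1
  exact h1

lemma bdd_int {μ : Measure (E n)} [IsFiniteMeasure μ] {F : E n → ℂ} {C : ℝ}
    (hF : AEStronglyMeasurable F μ) (hb : ∀ t, ‖F t‖ ≤ C) : Integrable F μ :=
  Integrable.of_bound hF C (Eventually.of_forall hb)

/-- the summation formula -/
lemma sumP {N m p : ℕ} (hN : 1 ≤ N) (hm : m ≤ N) (hp : 2 ≤ p) (hpm : p + 2 ≤ m)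
    (hev : Even (m - p)) :
    HasSum (fun k : ℕ => (-1 : ℂ) ^ (k + 1) *
      (Complex.cos ((((k + 1 : ℕ) : ℂ) * Real.pi) / N) ^ (N - m) *
        Complex.sin ((((k + 1 : ℕ) : ℂ) * Real.pi) / N) ^ m / (((k + 1 : ℕ) : ℂ) * Real.pi) ^ p)) 0 := by
  obtain ⟨K, hK, hKb⟩ := snc_bound
  have hNr : (0 : ℝ) < N := by exact_mod_cast hN
  have hNc : (N : ℂ) ≠ 0 := by exact_mod_cast hNr.ne'
  set h : ℂ → ℂ := fun s => Complex.cos (s / N) ^ (N - m) * (snc (s / N) / N) ^ p *
    Complex.sin (s / N) ^ (m - p) with hh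
  have hd : Differentiable ℂ h := by
    have h1 : Differentiable ℂ (fun s : ℂ => snc (s / N)) := snc_diff.comp (by fun_prop)
    have h2 : Differentiable ℂ (fun s : ℂ => Complex.cos (s / N)) := by fun_prop
    have h3 : Differentiable ℂ (fun s : ℂ => Complex.sin (s / N)) := by fun_prop
    exact ((h2.pow _).mul ((h1.div_const _).pow _)).mul (h3.pow _)
  have him : ∀ s : ℂ, |(s / (N : ℂ)).im| = |s.im| / N := by
    intro s
    rw [← Complex.ofReal_natCast, Complex.div_ofReal_im, abs_div, abs_of_pos hNr]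
  have hsnc : ∀ s : ℂ, ‖s‖ * ‖snc (s / N) / N‖ ≤ Real.exp (|s.im| / N) := by
    intro s
    rcases eq_or_ne s 0 with rfl | hs
    · rw [norm_zero, zero_mul]; positivity
    · have hsN : s / (N : ℂ) ≠ 0 := div_ne_zero hs hNc
      rw [← norm_mul, snc_ne hsN]
      have e : s * (Complex.sin (s / N) / (s / N) / N) = Complex.sin (s / N) := by field_simp
      rw [e, ← him]
      exact norm_sin_le _
  have hbound : ∀ s, ‖s‖ ^ 2 * ‖h s‖ ≤ (K / N) ^ (p - 2) * Real.exp |s.im| := by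
    intro s
    simp only [hh]
    rw [norm_mul, norm_mul, norm_pow, norm_pow, norm_pow]
    have b1 : ‖Complex.cos (s / N)‖ ≤ Real.exp (|s.im| / N) := by
      rw [← him]; exact norm_cos_le _
    have b2 : ‖Complex.sin (s / N)‖ ≤ Real.exp (|s.im| / N) := by
      rw [← him]; exact norm_sin_le _
    have b3 : ‖snc (s / N) / N‖ ≤ (K / N) * Real.exp (|s.im| / N) := by
      rw [norm_div, Complex.norm_natCast, ← him, div_mul_eq_mul_div]
      gcongr
      exact hKb _
    have b4 := hsnc s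
    set e := Real.exp (|s.im| / N) with he
    have he0 : 0 < e := Real.exp_pos _
    have hpp : p = 2 + (p - 2) := by omega
    calc ‖s‖ ^ 2 * (‖Complex.cos (s / N)‖ ^ (N - m) * ‖snc (s / N) / N‖ ^ p
          * ‖Complex.sin (s / N)‖ ^ (m - p))
        = ‖Complex.cos (s / N)‖ ^ (N - m) * ((‖s‖ * ‖snc (s / N) / N‖) ^ 2
            * ‖snc (s / N) / N‖ ^ (p - 2)) * ‖Complex.sin (s / N)‖ ^ (m - p) := by
          conv_lhs => rw [hpp, pow_add]
          have : 2 + (p - 2) = p := by omega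
          rw [this]
          ring
      _ ≤ e ^ (N - m) * (e ^ 2 * ((K / N) * e) ^ (p - 2)) * e ^ (m - p) := by gcongr
      _ = (K / N) ^ (p - 2) * (e ^ (N - m) * e ^ 2 * e ^ (p - 2) * e ^ (m - p)) := by
          rw [mul_pow]; ring
      _ = (K / N) ^ (p - 2) * Real.exp |s.im| := by
          rw [← pow_add, ← pow_add, ← pow_add]
          have : N - m + 2 + (p - 2) + (m - p) = N := by omega
          rw [this, he, ← Real.exp_nat_mul]
          congr 2
          field_simp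
  have hevn : ∀ s, h (-s) = h s := by
    intro s
    simp only [hh]
    rw [neg_div, Complex.cos_neg, snc_neg, Complex.sin_neg, hev.neg_pow]
  have h0 : h 0 = 0 := by
    simp only [hh]
    rw [zero_div, Complex.sin_zero, zero_pow (by omega), mul_zero]
  have key := resid_even hd (by positivity) hbound hevn h0
  have e : (fun k : ℕ => (-1 : ℂ) ^ (k + 1) * h (((k + 1 : ℕ):ℂ) * Real.pi))
      = fun k : ℕ => (-1 : ℂ) ^ (k + 1) *
      (Complex.cos ((((k + 1 : ℕ) : ℂ) * Real.pi) / N) ^ (N - m) *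
        Complex.sin ((((k + 1 : ℕ) : ℂ) * Real.pi) / N) ^ m / (((k + 1 : ℕ) : ℂ) * Real.pi) ^ p) := by
    funext k
    congr 1
    simp only [hh]
    have hs : ((k + 1 : ℕ) : ℂ) * Real.pi ≠ 0 := by
      have h1 : ((k + 1 : ℕ) : ℂ) ≠ 0 := by exact_mod_cast Nat.succ_ne_zero k
      have h2 : (Real.pi : ℂ) ≠ 0 := by exact_mod_cast Real.pi_ne_zero
      exact mul_ne_zero h1 h2
    set s := ((k + 1 : ℕ) : ℂ) * Real.pi
    rw [snc_ne (div_ne_zero hs hNc)]
    have e1 : Complex.sin (s / N) / (s / N) / N = Complex.sin (s / N) / s := by field_simp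
    rw [e1, div_pow]
    have e2 : Complex.sin (s / N) ^ m = Complex.sin (s / N) ^ p * Complex.sin (s / N) ^ (m - p) := by
      rw [← pow_add]; congr 1; omega
    rw [e2]
    ring
  rw [e] at key
  exact key

end Pool.Agent.K7.H38.LB
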