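import Mathlib

set_option autoImplicit false

open Set Filter Topology MeasureTheory
open scoped ENNReal

namespace Pool.Agent.K7.H38.LB

variable {α : Type*} [MeasurableSpace α]

/-- unit density -/
noncomputable def uu (h : α → ℂ) (x : α) : ℂ := ((‖h x‖⁻¹ : ℝ) : ℂ) * h x

lemma norm_uu_le (h : α → ℂ) (x : α) : ‖uu h x‖ ≤ 1 := by
  unfold uu
  rw [norm_mul, Complex.norm_real, norm_inv, norm_norm]
  exact inv_mul_le_one

lemma norm_mul_uu (h : α → ℂ) (x : α) : (‖h x‖ : ℂ) * uu h x = h x := by
  unfold uu
  rcases eq_or_ne (h x) 0 with h0 | h0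
  · rw [h0]; simp
  · rw [← mul_assoc, ← Complex.ofReal_mul, mul_inv_cancel₀ (norm_ne_zero_iff.2 h0)]
    simp

lemma int_conv {ν : Measure α} {h : α → ℂ} (hh : Integrable h ν) (f : α → ℂ) :
    ∫ x, f x * uu h x ∂(ν.withDensity (fun x => ‖h x‖ₑ)) = ∫ x, f x * h x ∂ν := by
  rw [integral_withDensity_eq_integral_toReal_smul₀ hh.aestronglyMeasurable.enorm
    (Eventually.of_forall fun x => enorm_lt_top)]
  congr 1
  funext x
  rw [toReal_enorm, Complex.real_smul]
  calc (‖h x‖ : ℂ) * (f x * uu h x) = f x * ((‖h x‖ : ℂ) * uu h x) := by ring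
    _ = _ := by rw [norm_mul_uu]

lemma uu_meas {ν : Measure α} {h : α → ℂ} (hh : Integrable h ν) :
    AEStronglyMeasurable (uu h) (ν.withDensity (fun x => ‖h x‖ₑ)) := by
  apply AEStronglyMeasurable.mono_ac (withDensity_absolutelyContinuous _ _)
  have h1 : AEStronglyMeasurable (fun x => ‖h x‖⁻¹ • h x) ν :=
    hh.aestronglyMeasurable.norm.inv₀.smul hh.aestronglyMeasurable
  refine h1.congr (Eventually.of_forall fun x => ?_)
  simp only [uu, Complex.real_smul]

lemma fu_int {ν : Measure α} {h : α → ℂ} (hh : Integrable h ν) {f : α → ℂ}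
    (hf : Integrable f (ν.withDensity (fun x => ‖h x‖ₑ))) :
    Integrable (fun x => f x * uu h x) (ν.withDensity (fun x => ‖h x‖ₑ)) :=
  hf.mul_bdd (c := 1) (uu_meas hh) (Eventually.of_forall fun x => norm_uu_le h x)

lemma integral_withDensityV {ν : Measure α} {h : α → ℂ} (hh : Integrable h ν) {f : α → ℂ}
    (hf : Integrable f (ν.withDensity (fun x => ‖h x‖ₑ))) :
    ∫ᵛ x, f x ∂[ContinuousLinearMap.mul ℝ ℂ; ν.withDensityᵥ h] = ∫ x, f x * h x ∂ν := by
  have hvar : (ν.withDensityᵥ h).variation = ν.withDensity (fun x => ‖h x‖ₑ) :=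
    Measure.variation_withDensityᵥ hh
  have hfin : IsFiniteMeasure (ν.withDensity fun x ↦ ‖h x‖ₑ) := ⟨by simpa using! hh.2⟩
  have hfin2 : IsFiniteMeasure (ν.withDensityᵥ h).variation := by rw [hvar]; exact hfin
  rw [← hvar] at hf
  revert f
  apply Integrable.induction (P := fun f : α → ℂ =>
    ∫ᵛ x, f x ∂[ContinuousLinearMap.mul ℝ ℂ; ν.withDensityᵥ h] = ∫ x, f x * h x ∂ν)
  · intro c s hs _
    rw [VectorMeasure.integral_indicator_const c hs, withDensityᵥ_apply hh hs]
    simp only [ContinuousLinearMap.mul_apply']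
    rw [← integral_const_mul, ← integral_indicator hs]
    congr 1
    funext x
    by_cases hx : x ∈ s
    · simp [hx]
    · simp [hx]
  · intro f g _ hf hg hPf hPg
    rw [VectorMeasure.integral_add hf hg, hPf, hPg]
    rw [← int_conv hh f, ← int_conv hh g, ← int_conv hh (f + g), ← integral_add]
    · congr 1
      funext x
      simp only [Pi.add_apply]
      ring
    · rw [hvar] at hf; exact fu_int hh hf
    · rw [hvar] at hg; exact fu_int hh hg
  · apply isClosed_eq
    · exact VectorMeasure.continuous_integral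
    · have : LipschitzWith 1 (fun f : α →₁[(ν.withDensityᵥ h).variation] ℂ => ∫ x, f x * h x ∂ν) := by
        apply LipschitzWith.of_dist_le_mul
        intro f g
        have hf := L1.integrable_coeFn f
        have hg := L1.integrable_coeFn g
        have hkey : ∀ F : α → ℂ, Integrable F (ν.withDensityᵥ h).variation →
            Integrable F (ν.withDensity (fun x => ‖h x‖ₑ)) := by
          intro F hF
          rwa [hvar] at hF
        have hf' := hkey _ hf
        have hg' := hkey _ hg
        rw [← int_conv hh, ← int_conv hh, dist_eq_norm, ← integral_sub (fu_int hh hf') (fu_int hh hg')]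
        rw [dist_eq_norm, L1.norm_eq_integral_norm, NNReal.coe_one, one_mul]
        have e1 : ∫ x, ‖(f - g : α →₁[(ν.withDensityᵥ h).variation] ℂ) x‖ ∂(ν.withDensityᵥ h).variation =
            ∫ x, ‖f x - g x‖ ∂(ν.withDensity (fun x => ‖h x‖ₑ)) := by
          have hkey2 : ∀ F : α → ℝ, ∫ x, F x ∂(ν.withDensityᵥ h).variation =
              ∫ x, F x ∂(ν.withDensity (fun x => ‖h x‖ₑ)) := by
            intro F
            rw [hvar]
          rw [← hkey2]
          apply integral_congr_ae
          filter_upwards [Lp.coeFn_sub f g] with x hx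
          rw [hx]; rfl
        rw [e1]
        apply norm_integral_le_of_norm_le
        · exact (hf'.sub hg').norm
        · refine Eventually.of_forall fun x => ?_
          rw [← sub_mul, norm_mul]
          calc _ ≤ ‖f x - g x‖ * 1 := by gcongr; exact norm_uu_le h x
            _ = _ := mul_one _
      exact this.continuous
  · intro f g hfg hf hP
    rw [← VectorMeasure.integral_congr_ae hfg, hP, ← int_conv hh f, ← int_conv hh g]
    apply integral_congr_ae
    rw [hvar] at hfg
    filter_upwards [hfg] with x hx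
    rw [hx]

/-- a complex measure of finite variation is `μ.withDensityᵥ h` with `μ` its variation -/
lemma exists_density (μ : ComplexMeasure α) (hμ : μ.variation Set.univ ≠ ∞) :
    ∃ h : α → ℂ, Integrable h μ.variation ∧ μ = μ.variation.withDensityᵥ h := by
  have hfin : IsFiniteMeasure μ.variation := ⟨lt_top_iff_ne_top.2 hμ⟩
  have hac : ∀ s, MeasurableSet s → μ.variation s = 0 → μ s = 0 := by
    intro s _ h0
    have := μ.enorm_measure_le_variation s
    rw [h0] at this
    simpa using this
  have hre : μ.variation.withDensityᵥ ((ComplexMeasure.re μ).rnDeriv μ.variation) =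
      ComplexMeasure.re μ := by
    rw [← SignedMeasure.absolutelyContinuous_iff_withDensityᵥ_rnDeriv_eq]
    apply VectorMeasure.AbsolutelyContinuous.mk
    intro s hs h0
    rw [Measure.toENNRealVectorMeasure_apply_measurable hs] at h0
    have := hac s hs h0
    change (μ s).re = 0
    rw [this]; rfl
  have him : μ.variation.withDensityᵥ ((ComplexMeasure.im μ).rnDeriv μ.variation) =
      ComplexMeasure.im μ := by
    rw [← SignedMeasure.absolutelyContinuous_iff_withDensityᵥ_rnDeriv_eq]
    apply VectorMeasure.AbsolutelyContinuous.mk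
    intro s hs h0
    rw [Measure.toENNRealVectorMeasure_apply_measurable hs] at h0
    have := hac s hs h0
    change (μ s).im = 0
    rw [this]; rfl
  set r := (ComplexMeasure.re μ).rnDeriv μ.variation with hr
  set i := (ComplexMeasure.im μ).rnDeriv μ.variation with hi
  have hri : Integrable r μ.variation := SignedMeasure.integrable_rnDeriv _ _
  have hii : Integrable i μ.variation := SignedMeasure.integrable_rnDeriv _ _
  have hint : Integrable (fun x => (r x : ℂ) + (i x : ℂ) * Complex.I) μ.variation :=
    hri.ofReal.add (hii.ofReal.mul_const _)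
  refine ⟨fun x => (r x : ℂ) + (i x : ℂ) * Complex.I, hint, ?_⟩
  ext s hs
  rw [withDensityᵥ_apply hint hs, integral_add hri.ofReal.restrict
    (hii.ofReal.mul_const _).restrict, integral_mul_const]
  have e1 : ∫ x in s, (r x : ℂ) ∂μ.variation = ((∫ x in s, r x ∂μ.variation : ℝ) : ℂ) :=
    integral_ofReal
  have e2 : ∫ x in s, (i x : ℂ) ∂μ.variation = ((∫ x in s, i x ∂μ.variation : ℝ) : ℂ) :=
    integral_ofReal
  rw [e1, e2]
  have h1 := congrArg (fun v : SignedMeasure α => v s) hre
  have h2 := congrArg (fun v : SignedMeasure α => v s) him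
  simp only [withDensityᵥ_apply hri hs] at h1
  simp only [withDensityᵥ_apply hii hs] at h2
  rw [h1, h2]
  exact (Complex.re_add_im (μ s)).symm

end Pool.Agent.K7.H38.LB
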