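import Pool.Agent.K7.H38.LB.Cpx

set_option autoImplicit false

open Filter Topology Metric Set MeasureTheory
open scoped ENNReal

namespace Pool.Agent.K7.H38.LB

variable {n : ℕ}

lemma const_poly {q : Polynomial ℝ} {a : ℝ} (h : ∀ k : ℕ, a = q.eval (1 / ((k + 1 : ℕ) : ℝ))) :
    q = Polynomial.C a := by
  apply Polynomial.eq_of_infinite_eval_eq
  have h1 : Function.Injective (fun k : ℕ => 1 / ((k + 1 : ℕ) : ℝ)) := by
    intro i j hij
    have hij' : 1 / ((i + 1 : ℕ) : ℝ) = 1 / ((j + 1 : ℕ) : ℝ) := hij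
    rw [one_div, one_div, inv_inj] at hij'
    have : i + 1 = j + 1 := by exact_mod_cast hij'
    omega
  refine (infinite_range_of_injective h1).mono ?_
  rintro _ ⟨k, rfl⟩
  change q.eval (1 / ((k + 1 : ℕ) : ℝ)) = (Polynomial.C a).eval _
  rw [← h k, Polynomial.eval_C]

/-- the constant admissible sequences -/
theorem const_iff (τ : ProbabilityMeasure (Sph n)) :
    Admissible (fun _ => τ) ↔
      (∀ ω : E n, ∫ s, (inner ℝ (s : E n) ω) ^ 2 ∂(τ : Measure (Sph n)) = ‖ω‖ ^ 2 / n) ∧
      ∀ (ω : E n) (m : ℕ), Odd m → ∫ s, (inner ℝ (s : E n) ω) ^ m ∂(τ : Measure (Sph n)) = 0 := by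
  constructor
  · intro h
    refine ⟨fun ω => h.mom_two ω 0, fun ω m hm => ?_⟩
    by_cases h4 : 4 ≤ m
    · obtain ⟨q, hq, hqe⟩ := h.mom ω m h4
      have h1 := const_poly hqe
      by_contra hne
      have h2 := hq 0 (by rw [h1, Polynomial.coeff_C_zero]; exact hne)
      rw [Nat.sub_zero] at h2
      exact (Nat.not_even_iff_odd.2 hm) h2.2
    · have h13 : m = 1 ∨ m = 3 := by
        obtain ⟨j, rfl⟩ := hm
        omega
      rcases h13 with rfl | rfl
      · simp only [pow_one]; exact h.mom_one ω 0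
      · exact h.mom_three ω 0
  · rintro ⟨h2, hodd⟩
    refine ⟨fun ω k => ?_, fun ω k => h2 ω, fun ω k => hodd ω 3 (by decide), fun ω m hm => ?_⟩
    · have := hodd ω 1 (by decide)
      simpa only [pow_one] using this
    · refine ⟨Polynomial.C (∫ s, (inner ℝ (s : E n) ω) ^ m ∂(τ : Measure (Sph n))), ?_, ?_⟩
      · intro i hi
        rw [Polynomial.coeff_C] at hi
        by_cases h0 : i = 0
        · subst h0
          refine ⟨by omega, ?_⟩
          rw [if_pos rfl] at hi
          by_contra hne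
          rw [Nat.sub_zero, Nat.not_even_iff_odd] at hne
          exact hi (hodd ω m hne)
        · rw [if_neg h0] at hi
          exact absurd rfl hi
      · intro k
        rw [Polynomial.eval_C]

end Pool.Agent.K7.H38.LB
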