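import Pool.Agent.K7.H38.LB.Par

set_option autoImplicit false

open Filter Topology Metric Set MeasureTheory
open scoped ENNReal

namespace Pool.Agent.K7.H38.LB

variable {n : ℕ}

/-- extremal measures of the Laplacian -/
def IsExtremal (ν : ComplexMeasure (E n)) : Prop :=
  (∀ ξ : E n, ‖ξ‖ ≤ 1 →
    ∫ᵛ t, Complex.exp (-(Complex.I * ((inner ℝ t ξ : ℝ) : ℂ))) ∂[ContinuousLinearMap.mul ℝ ℂ; ν]
      = -((‖ξ‖ ^ 2 : ℝ) : ℂ)) ∧ ν.variation univ = n

/-- `ν = -(n/3) δ_0 + ∑ (-1)^k M_{k+1} σ_k (dilated)` -/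
def Rep (σ : ℕ → ProbabilityMeasure (Sph n)) (ν : ComplexMeasure (E n)) : Prop :=
  ∀ B : Set (E n), MeasurableSet B →
    HasSum (fun k : ℕ => (-1 : ℂ) ^ k * ((4 * n / (Real.pi ^ 2 * ((k + 1 : ℕ) : ℝ) ^ 2)
        * (σ k : Measure (Sph n)).real {s | (((k + 1 : ℕ) : ℝ) * Real.pi) • (s : E n) ∈ B} : ℝ) : ℂ))
      (ν B + ((n / 3 * B.indicator 1 0 : ℝ) : ℂ))

/-- the density -/
noncomputable def dens (t : E n) : ℂ := -((Real.cos ‖t‖ : ℝ) : ℂ)

lemma dens_meas : Measurable (dens : E n → ℂ) := neg_cos_meas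

lemma dens_int {μ : Measure (E n)} [IsFiniteMeasure μ] : Integrable (dens : E n → ℂ) μ := neg_cos_int

lemma dens_dil (k : ℕ) (s : Sph n) : dens (dil (k + 1) s) = (-1) ^ k := by
  unfold dens
  rw [dil_norm, ccos, pow_succ]
  ring

lemma rep_iff (σ : ℕ → ProbabilityMeasure (Sph n)) (ν : ComplexMeasure (E n)) :
    Rep σ ν ↔ ν = (muS σ).withDensityᵥ dens := by
  have key : ∀ B : Set (E n), MeasurableSet B →
      HasSum (fun k : ℕ => (-1 : ℂ) ^ k * ((4 * n / (Real.pi ^ 2 * ((k + 1 : ℕ) : ℝ) ^ 2)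
        * (σ k : Measure (Sph n)).real {s | (((k + 1 : ℕ) : ℝ) * Real.pi) • (s : E n) ∈ B} : ℝ) : ℂ))
      (((muS σ).withDensityᵥ dens) B + ((n / 3 * B.indicator 1 0 : ℝ) : ℂ)) := by
    intro B hB
    have h1 := muS_int σ (F := B.indicator dens) (dens_meas.stronglyMeasurable.indicator hB)
      (C := 1) (fun t => by
        by_cases ht : t ∈ B
        · rw [indicator_of_mem ht]
          unfold dens
          rw [norm_neg, Complex.norm_real]
          exact Real.abs_cos_le_one _
        · rw [indicator_of_notMem ht]; simp)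
    have e1 : ∫ t, B.indicator dens t ∂(muS σ) - ((n : ℝ) / 3) • B.indicator dens 0
        = ((muS σ).withDensityᵥ dens) B + ((n / 3 * B.indicator 1 0 : ℝ) : ℂ) := by
      rw [withDensityᵥ_apply dens_int hB, integral_indicator hB]
      by_cases h0 : (0 : E n) ∈ B
      · rw [indicator_of_mem h0, indicator_of_mem h0]
        unfold dens
        simp
      · rw [indicator_of_notMem h0, indicator_of_notMem h0]
        simp
    rw [e1] at h1
    refine (hasSum_cg fun k => ?_).1 h1
    have hpre : MeasurableSet {s : Sph n | (((k + 1 : ℕ) : ℝ) * Real.pi) • (s : E n) ∈ B} :=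
      dil_meas (k + 1) hB
    have e2 : ∀ s : Sph n, B.indicator dens (dil (k + 1) s)
        = {s : Sph n | (((k + 1 : ℕ) : ℝ) * Real.pi) • (s : E n) ∈ B}.indicator
          (fun _ => (-1 : ℂ) ^ k) s := by
      intro s
      by_cases hs : dil (k + 1) s ∈ B
      · rw [indicator_of_mem hs, indicator_of_mem (show s ∈ {s : Sph n |
          (((k + 1 : ℕ) : ℝ) * Real.pi) • (s : E n) ∈ B} from hs), dens_dil]
      · rw [indicator_of_notMem hs, indicator_of_notMem (show s ∉ {s : Sph n |
          (((k + 1 : ℕ) : ℝ) * Real.pi) • (s : E n) ∈ B} from hs)]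
    simp_rw [e2]
    rw [integral_indicator hpre, setIntegral_const, Complex.real_smul, Complex.real_smul]
    unfold M
    push_cast
    ring
  constructor
  · intro h
    ext B hB
    have := (h B hB).unique (key B hB)
    exact add_right_cancel this
  · rintro rfl
    exact key

lemma norm_dens_ae {μ : Measure (E n)} (hc : ∀ᵐ t ∂μ, ∃ k : ℕ, ‖t‖ = k * Real.pi) :
    ∀ᵐ t ∂μ, ‖dens t‖ₑ = 1 := by
  filter_upwards [hc] with t ht
  have h1 : ‖dens t‖ = 1 := by
    unfold dens
    rw [norm_neg, Complex.norm_real, Real.norm_eq_abs, ← Real.sqrt_sq_eq_abs, cos_sq_of ht,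
      Real.sqrt_one]
  rw [← ofReal_norm, h1, ENNReal.ofReal_one]

lemma exp_int {μ : Measure (E n)} [IsFiniteMeasure μ] (ξ : E n) :
    Integrable (fun t : E n => Complex.exp (-(Complex.I * ((inner ℝ t ξ : ℝ) : ℂ)))) μ := by
  apply bdd_int (C := 1)
  · exact Continuous.aestronglyMeasurable (by fun_prop)
  · intro t
    rw [Complex.norm_exp]
    simp

/-- the main theorem for complex measures -/
theorem extremal_iff (hn : 1 ≤ n) (ν : ComplexMeasure (E n)) :
    IsExtremal ν ↔ ∃ σ : ℕ → ProbabilityMeasure (Sph n), Admissible σ ∧ Rep σ ν := by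
  constructor
  · rintro ⟨hft, hmass⟩
    have hfin' : ν.variation univ ≠ ∞ := by rw [hmass]; exact ENNReal.natCast_ne_top n
    obtain ⟨h, hh, hνh⟩ := exists_density ν hfin'
    have hfin : IsFiniteMeasure ν.variation := ⟨lt_top_iff_ne_top.2 hfin'⟩
    obtain ⟨μ, hμ⟩ : ∃ μ, μ = ν.variation := ⟨_, rfl⟩
    rw [← hμ] at hh hνh hfin hmass
    have hvar : μ = μ.withDensity (fun x => ‖h x‖ₑ) := by
      conv_lhs => rw [hμ, hνh]
      exact Measure.variation_withDensityᵥ hh
    have hone : (fun x => ‖h x‖ₑ) =ᵐ[μ] 1 := by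
      have h1 : μ.withDensity (fun x => ‖h x‖ₑ) = μ.withDensity 1 := by
        rw [withDensity_one]; exact hvar.symm
      refine (withDensity_eq_iff hh.aestronglyMeasurable.enorm aemeasurable_one ?_).1 h1
      exact hh.2.ne
    -- measurable version
    obtain ⟨g, hg⟩ : ∃ g, g = hh.aestronglyMeasurable.mk h := ⟨_, rfl⟩
    have hgm : Measurable g := by rw [hg]; exact hh.aestronglyMeasurable.stronglyMeasurable_mk.measurable
    have hgh : h =ᵐ[μ] g := by rw [hg]; exact hh.aestronglyMeasurable.ae_eq_mk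
    have hE : Ext μ g := by
      refine ⟨hgm, ?_, ?_, ?_⟩
      · filter_upwards [hone, hgh] with t h1 h2
        rw [← h2, ← toReal_enorm]
        have h3 : ‖h t‖ₑ = 1 := h1
        rw [h3, ENNReal.toReal_one]
      · intro ξ hξ
        rw [← hft ξ hξ, hνh, integral_withDensityV hh (by rw [← hvar]; exact exp_int ξ)]
        apply integral_congr_ae
        filter_upwards [hgh] with t ht
        rw [ht]
      · rw [measureReal_def, hmass, ENNReal.toReal_natCast]
    have hS := hE.str hn
    obtain ⟨σ, hσ⟩ := exists_sigma hn hS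
    refine ⟨σ, (str_iff hn σ).1 (hσ ▸ hS), ?_⟩
    rw [rep_iff, ← hσ, hνh]
    apply WithDensityᵥEq.congr_ae
    filter_upwards [hgh, hE.dens hn] with t h1 h2
    rw [h1, h2.1]
    rfl
  · rintro ⟨σ, hσ, hrep⟩
    have hS := (str_iff hn σ).2 hσ
    have hν := (rep_iff σ ν).1 hrep
    have hvar : ((muS σ).withDensityᵥ dens).variation = (muS σ).withDensity (fun x => ‖dens x‖ₑ) :=
      Measure.variation_withDensityᵥ dens_int
    have hvar2 : (muS σ).withDensity (fun x => ‖dens x‖ₑ) = muS σ := by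
      conv_rhs => rw [← withDensity_one (μ := muS σ)]
      exact withDensity_congr_ae (norm_dens_ae (muS_conc σ))
    constructor
    · intro ξ hξ
      rw [hν, integral_withDensityV dens_int (by rw [hvar2]; exact exp_int ξ)]
      exact fourier_of_str hS hn hξ
    · rw [hν, hvar, hvar2]
      have := total_of_str hS hn
      rw [← ENNReal.ofReal_toReal (measure_ne_top (muS σ) univ)]
      rw [measureReal_def] at this
      rw [this, ENNReal.ofReal_natCast]

/-- every sequence represents exactly one complex measure -/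
theorem rep_exists (σ : ℕ → ProbabilityMeasure (Sph n)) : ∃! ν : ComplexMeasure (E n), Rep σ ν :=
  ⟨(muS σ).withDensityᵥ dens, (rep_iff σ _).2 rfl, fun ν h => (rep_iff σ ν).1 h⟩

/-- the sequence is determined by the measure -/
theorem rep_inj (hn : 1 ≤ n) {σ τ : ℕ → ProbabilityMeasure (Sph n)} {ν : ComplexMeasure (E n)}
    (h1 : Rep σ ν) (h2 : Rep τ ν) : σ = τ := by
  have key : ∀ (ρ : ℕ → ProbabilityMeasure (Sph n)), Rep ρ ν → ∀ (j : ℕ) (C : Set (Sph n)),
      MeasurableSet C → ν (dil (j + 1) '' C)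
        = (-1 : ℂ) ^ j * ((M n (j + 1) * (ρ j : Measure (Sph n)).real C : ℝ) : ℂ) := by
    intro ρ hρ j C hC
    have hB : MeasurableSet (dil (j + 1) '' C) := (dil_emb (by omega)).measurableSet_image' hC
    have h3 := hρ _ hB
    have h0 : (0 : E n) ∉ dil (j + 1) '' C := by
      rintro ⟨s, _, hs⟩
      have := dil_norm (j + 1) s
      rw [hs, norm_zero] at this
      have := kpos (k := j + 1) (by omega)
      linarith
    rw [indicator_of_notMem h0, mul_zero, Complex.ofReal_zero, add_zero] at h3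
    have h4 := hasSum_single (f := fun k : ℕ => (-1 : ℂ) ^ k *
      ((4 * n / (Real.pi ^ 2 * ((k + 1 : ℕ) : ℝ) ^ 2) * (ρ k : Measure (Sph n)).real
        {s | (((k + 1 : ℕ) : ℝ) * Real.pi) • (s : E n) ∈ dil (j + 1) '' C} : ℝ) : ℂ)) j (by
      intro k hk
      have he : {s : Sph n | (((k + 1 : ℕ) : ℝ) * Real.pi) • (s : E n) ∈ dil (j + 1) '' C} = ∅ := by
        rw [eq_empty_iff_forall_notMem]
        rintro s ⟨u, _, hu⟩
        have h5 : dil (j + 1) u = dil (k + 1) s := hu
        have h6 := dil_mem (j + 1) u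
        rw [h5] at h6
        exact dil_notMem (by omega) s h6
      rw [he]
      simp)
    have h7 := h3.unique h4
    rw [h7]
    have he : {s : Sph n | (((j + 1 : ℕ) : ℝ) * Real.pi) • (s : E n) ∈ dil (j + 1) '' C} = C := by
      ext s
      constructor
      · rintro ⟨u, hu, hus⟩
        have h5 : dil (j + 1) u = dil (j + 1) s := hus
        rw [← dil_inj (by omega) h5]
        exact hu
      · intro hs
        exact ⟨s, hs, rfl⟩
    rw [he]
    rfl
  funext j
  apply Subtype.ext
  apply Measure.ext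
  intro C hC
  have h3 := (key σ h1 j C hC).symm.trans (key τ h2 j C hC)
  have h4 : ((-1 : ℂ) ^ j) ≠ 0 := pow_ne_zero _ (by norm_num)
  have h5 := mul_left_cancel₀ h4 h3
  have h6 : M n (j + 1) * (σ j : Measure (Sph n)).real C = M n (j + 1) * (τ j : Measure (Sph n)).real C := by
    exact_mod_cast h5
  have h7 := mul_left_cancel₀ (M_pos hn (by omega)).ne' h6
  rw [measureReal_def, measureReal_def,
    ENNReal.toReal_eq_toReal_iff' (measure_ne_top _ _) (measure_ne_top _ _)] at h7
  exact h7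

end Pool.Agent.K7.H38.LB
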