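import Pool.Agent.K7.H38.LB.Nec

set_option autoImplicit false

open Filter Topology Metric Set MeasureTheory
open scoped ENNReal
open Pool.Agent.Helper797.Bs

namespace Pool.Agent.K7.H38.LB

variable {n : ℕ}

/-- the squares of the radii -/
noncomputable def ar (k : ℕ) : ℝ := ((k : ℝ) * Real.pi) ^ 2

lemma an_ar (k : ℕ) : an k = ((ar k : ℝ) : ℂ) := by unfold an ar; push_cast; rfl

lemma ar_inj {j k : ℕ} (h : ar j = ar k) : j = k := by
  apply an_inj
  rw [an_ar, an_ar, h]

lemma ar_pos {k : ℕ} (hk : 1 ≤ k) : 0 < ar k := by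
  have : (0 : ℝ) < k := by exact_mod_cast hk
  have := Real.pi_pos
  unfold ar
  positivity

lemma interp_of_rel {a b : ℕ → ℝ} (ha : ∀ i j, a i = a j → i = j) {J : Finset ℕ} {k : ℕ}
    (hk : k ∉ J)
    (h : ∑ j ∈ insert k J, (∏ i ∈ (insert k J).erase j, (a j - a i)⁻¹) * b j = 0) :
    b k = (Lagrange.interpolate J a b).eval (a k) := by
  rw [Finset.sum_insert hk, Finset.erase_insert hk] at h
  have hne : ∀ i ∈ J, a k - a i ≠ 0 := fun i hi h0 => hk (by
    have := ha _ _ (sub_eq_zero.1 h0)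
    rw [this]; exact hi)
  have hP : ∏ i ∈ J, (a k - a i) ≠ 0 := Finset.prod_ne_zero_iff.2 hne
  have h1 : ∀ j ∈ J, (∏ i ∈ (insert k J).erase j, (a j - a i)⁻¹) * b j
      = (a j - a k)⁻¹ * (∏ i ∈ J.erase j, (a j - a i)⁻¹) * b j := by
    intro j hj
    have hjk : k ≠ j := fun e => hk (e ▸ hj)
    rw [Finset.erase_insert_of_ne hjk, Finset.prod_insert (fun e => hk (Finset.mem_of_mem_erase e))]
  rw [Finset.sum_congr rfl h1] at h
  rw [Lagrange.interpolate_apply, Polynomial.eval_finsetSum]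
  have h3 : ∀ j ∈ J, (Polynomial.C (b j) * Lagrange.basis J a j).eval (a k)
      = b j * ((∏ i ∈ J.erase j, (a j - a i)⁻¹) * ∏ i ∈ J.erase j, (a k - a i)) := by
    intro j _
    unfold Lagrange.basis
    rw [Polynomial.eval_mul, Polynomial.eval_C, Polynomial.eval_prod, ← Finset.prod_mul_distrib]
    congr 1
    apply Finset.prod_congr rfl
    intro i _
    unfold Lagrange.basisDivisor
    simp
  rw [Finset.sum_congr rfl h3]
  have h4 : b k = -(∏ i ∈ J, (a k - a i)) *
      ∑ j ∈ J, (a j - a k)⁻¹ * (∏ i ∈ J.erase j, (a j - a i)⁻¹) * b j := by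
    have h5 : (∏ i ∈ J, (a k - a i)) * (∏ i ∈ J, (a k - a i)⁻¹) = 1 := by
      rw [Finset.prod_inv_distrib, mul_inv_cancel₀ hP]
    linear_combination (∏ i ∈ J, (a k - a i)) * h - b k * h5
  rw [h4, Finset.mul_sum]
  apply Finset.sum_congr rfl
  intro j hj
  rw [← Finset.mul_prod_erase J _ hj]
  have h6 := hne j hj
  have h7 : a j - a k ≠ 0 := fun h0 => h6 (by linarith)
  have h8 : -(a k - a j) * (a j - a k)⁻¹ = 1 := by
    rw [neg_sub, mul_inv_cancel₀ h7]
  linear_combination ((∏ i ∈ J.erase j, (a k - a i)) * (∏ i ∈ J.erase j, (a j - a i)⁻¹) * b j) * h8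

/-- the relations, in real form -/
theorem Ext.relR {μ : Measure (E n)} [IsFiniteMeasure μ] {h : E n → ℂ} (H : Ext μ h) (hn : 1 ≤ n)
    (ω : E n) {m : ℕ} {J : Finset ℕ} (hJ : ∀ j ∈ J, 1 ≤ j) (hne : J.Nonempty)
    (hm : m ≤ 2 * J.card + 1) :
    ∑ k ∈ J, (∏ i ∈ J.erase k, (ar k - ar i)⁻¹) * ((A μ k m ω - A (mu0 n) k m ω) / ar k) = 0 := by
  have h1 := H.rel hn ω hJ hne hm
  have h2 : (((∑ k ∈ J, (∏ i ∈ J.erase k, (ar k - ar i)⁻¹) *
      ((A μ k m ω - A (mu0 n) k m ω) / ar k) : ℝ)) : ℂ) = 2 *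
      ∑ k ∈ J, lam J k * (((A μ k m ω - A (mu0 n) k m ω : ℝ) : ℂ) / (2 * an k)) := by
    rw [Complex.ofReal_sum, Finset.mul_sum]
    apply Finset.sum_congr rfl
    intro k hk
    have h3 : lam J k = ((∏ i ∈ J.erase k, (ar k - ar i)⁻¹ : ℝ) : ℂ) := by
      unfold lam
      rw [Complex.ofReal_prod]
      apply Finset.prod_congr rfl
      intro i _
      rw [an_ar, an_ar]
      push_cast
      rfl
    rw [h3, an_ar]
    have h4 : ((ar k : ℝ) : ℂ) ≠ 0 := by
      have := (ar_pos (hJ k hk)).ne'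
      exact_mod_cast this
    push_cast
    field_simp
  rw [h1, mul_zero] at h2
  exact_mod_cast h2

/-- the first moments agree with those of the reference measure -/
lemma Ext.low {μ : Measure (E n)} [IsFiniteMeasure μ] {h : E n → ℂ} (H : Ext μ h) (hn : 1 ≤ n)
    (ω : E n) {m : ℕ} (hm : m ≤ 3) {k : ℕ} (hk : 1 ≤ k) : A μ k m ω = A (mu0 n) k m ω := by
  have h1 := H.relR hn ω (J := {k}) (m := m) (by
    intro j hj; rw [Finset.mem_singleton] at hj; omega) (Finset.singleton_nonempty k)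
    (by rw [Finset.card_singleton]; omega)
  rw [Finset.sum_singleton, Finset.erase_singleton, Finset.prod_empty, one_mul,
    div_eq_zero_iff] at h1
  rcases h1 with h1 | h1
  · linarith
  · exact absurd h1 (ar_pos hk).ne'

lemma Ext.realmass {μ : Measure (E n)} [IsFiniteMeasure μ] {h : E n → ℂ} (H : Ext μ h) (hn : 1 ≤ n)
    {k : ℕ} (hk : 1 ≤ k) : μ.real (S n k) = M n k := by
  have h1 := H.low hn (0 : E n) (m := 0) (by omega) hk
  rw [A_zero, A_zero, real_mass (mu0_str hn) hn hk] at h1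
  exact h1

lemma D_eq {μ : Measure (E n)} [IsFiniteMeasure μ] {k : ℕ} (h : μ.real (S n k) = M n k) (m : ℕ)
    (ω : E n) : D μ k m ω = (M n k)⁻¹ * (((k : ℝ) * Real.pi) ^ m)⁻¹ * A μ k m ω := by
  unfold D A
  rw [setAverage_eq, h, smul_eq_mul, mul_assoc]
  congr 1
  rw [← integral_const_mul]
  apply integral_congr_ae
  refine Eventually.of_forall fun t => ?_
  change (inner ℝ t ω / (k * Real.pi)) ^ m = _ * _
  rw [div_pow]
  ring

lemma Adm.add {m : ℕ} {p q : Polynomial ℝ} (hp : Adm m p) (hq : Adm m q) : Adm m (p + q) := by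
  intro i hi
  rw [Polynomial.coeff_add] at hi
  by_cases h : p.coeff i = 0
  · exact hq i (fun h2 => hi (by rw [h, h2, add_zero]))
  · exact hp i h

lemma Adm.sum {m : ℕ} {ι : Type*} (s : Finset ι) {p : ι → Polynomial ℝ} (hp : ∀ i ∈ s, Adm m (p i)) :
    Adm m (∑ i ∈ s, p i) := by
  intro j hj
  rw [Polynomial.finsetSum_coeff] at hj
  obtain ⟨i, hi, h⟩ := Finset.exists_ne_zero_of_sum_ne_zero hj
  exact hp i hi j h

/-- the higher moments -/
theorem Ext.high {μ : Measure (E n)} [IsFiniteMeasure μ] {h : E n → ℂ} (H : Ext μ h) (hn : 1 ≤ n)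
    (ω : E n) {m : ℕ} (hm : 4 ≤ m) : ∃ Q : Polynomial ℝ, Adm m Q ∧
      ∀ k : ℕ, 1 ≤ k → D μ k m ω - D (mu0 n) k m ω = Q.eval (1 / (k : ℝ)) := by
  set b : ℕ → ℝ := fun k => (A μ k m ω - A (mu0 n) k m ω) / ar k with hb
  obtain ⟨q, hq⟩ : ∃ q, q = m / 2 := ⟨_, rfl⟩
  have hq2 : 2 ≤ q := by omega
  have hqm : m ≤ 2 * q + 1 := by omega
  have hqm' : 2 * q ≤ m := by omega
  set J : Finset ℕ := Finset.Icc 1 (q - 1) with hJ
  have hJc : J.card = q - 1 := by rw [hJ, Nat.card_Icc]; omega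
  set p := Lagrange.interpolate J ar b with hp
  have hpe : ∀ k, 1 ≤ k → b k = p.eval (ar k) := by
    intro k hk
    by_cases hkJ : k ∈ J
    · rw [hp, Lagrange.eval_interpolate_at_node b (fun i _ j _ h => ar_inj h) hkJ]
    · apply interp_of_rel (fun i j h => ar_inj h) hkJ
      apply H.relR hn ω
      · intro j hj
        rcases Finset.mem_insert.1 hj with rfl | hj
        · exact hk
        · exact (Finset.mem_Icc.1 hj).1
      · exact Finset.insert_nonempty _ _
      · rw [Finset.card_insert_of_notMem hkJ, hJc]; omega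
  have hdeg : p.natDegree < q - 1 ∨ p = 0 := by
    by_cases h0 : p = 0
    · exact Or.inr h0
    · left
      have h1 : p.degree < J.card := Lagrange.degree_interpolate_lt b (fun i _ j _ h => ar_inj h)
      rw [hJc] at h1
      exact (Polynomial.natDegree_lt_iff_degree_lt h0).2 h1
  have hpe2 : ∀ x : ℝ, p.eval x = ∑ i ∈ Finset.range (q - 1), p.coeff i * x ^ i := by
    intro x
    rcases hdeg with h1 | h1
    · exact Polynomial.eval_eq_sum_range' h1 x
    · rw [h1]; simp
  have hn0 : (0 : ℝ) < n := by exact_mod_cast hn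
  have hpi := Real.pi_pos
  refine ⟨∑ i ∈ Finset.range (q - 1),
    Polynomial.C (p.coeff i * Real.pi ^ (2 * i + 4) / (4 * n * Real.pi ^ m))
      * Polynomial.X ^ (m - 4 - 2 * i), ?_, ?_⟩
  · apply Adm.sum
    intro i hi j hj
    rw [Finset.mem_range] at hi
    rw [Polynomial.coeff_C_mul, Polynomial.coeff_X_pow] at hj
    by_cases hji : j = m - 4 - 2 * i
    · subst hji
      refine ⟨by omega, ?_⟩
      have : m - (m - 4 - 2 * i) = 2 * (i + 2) := by omega
      rw [this]
      exact even_two_mul _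
    · rw [if_neg hji, mul_zero] at hj
      exact absurd rfl hj
  · intro k hk
    have hk0 : (0 : ℝ) < k := by exact_mod_cast hk
    rw [D_eq (H.realmass hn hk), D_eq (real_mass (mu0_str hn) hn hk), ← mul_sub]
    have h1 : A μ k m ω - A (mu0 n) k m ω = ar k * b k := by
      rw [hb]
      have := (ar_pos hk).ne'
      field_simp
    rw [h1, hpe k hk, hpe2, Polynomial.eval_finsetSum, Finset.mul_sum, Finset.mul_sum]
    apply Finset.sum_congr rfl
    intro i hi
    rw [Finset.mem_range] at hi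
    rw [Polynomial.eval_mul, Polynomial.eval_C, Polynomial.eval_pow, Polynomial.eval_X]
    have hmi : m = (m - 4 - 2 * i) + (2 * i + 4) := by omega
    have e1 : ((k : ℝ) * Real.pi) ^ m = (k : ℝ) ^ (m - 4 - 2 * i) * (k : ℝ) ^ (2 * i + 4)
        * Real.pi ^ m := by
      rw [mul_pow, ← pow_add, ← hmi]
    rw [e1]
    unfold M ar
    rw [one_div, inv_pow]
    have e2 : (k : ℝ) ^ (2 * i + 4) = (k : ℝ) ^ 4 * ((k : ℝ) ^ 2) ^ i := by
      rw [← pow_mul, ← pow_add]; congr 1; ring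
    have e3 : Real.pi ^ (2 * i + 4) = Real.pi ^ 4 * (Real.pi ^ 2) ^ i := by
      rw [← pow_mul, ← pow_add]; congr 1; ring
    rw [e2, e3, mul_pow, mul_pow]
    field_simp

/-- an extremal measure has the structure -/
theorem Ext.str {μ : Measure (E n)} [IsFiniteMeasure μ] {h : E n → ℂ} (H : Ext μ h) (hn : 1 ≤ n) :
    Str μ where
  conc := (H.dens hn).mono fun _ ht => ht.2
  mass_zero := by
    have h1 := H.zero hn
    rw [S_zero] at h1
    rw [← mu0_zero, ← ENNReal.ofReal_toReal (measure_ne_top μ {0}),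
      ← ENNReal.ofReal_toReal (measure_ne_top (mu0 n) {0})]
    exact congrArg ENNReal.ofReal h1
  mass := fun k hk => by
    have h1 := H.realmass hn hk
    have e : ENNReal.ofReal (4 * n / (Real.pi ^ 2 * k ^ 2)) = ENNReal.ofReal (M n k) := rfl
    rw [e, ← h1, measureReal_def, ENNReal.ofReal_toReal (measure_ne_top _ _)]
  mom_one := fun ω k hk => by
    rw [← (mu0_str hn).mom_one ω k hk, D_eq (H.realmass hn hk), D_eq (real_mass (mu0_str hn) hn hk),
      H.low hn ω (by omega) hk]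
  mom_two := fun ω k hk => by
    rw [← (mu0_str hn).mom_two ω k hk, D_eq (H.realmass hn hk), D_eq (real_mass (mu0_str hn) hn hk),
      H.low hn ω (by omega) hk]
  mom_three := fun ω k hk => by
    rw [← (mu0_str hn).mom_three ω k hk, D_eq (H.realmass hn hk),
      D_eq (real_mass (mu0_str hn) hn hk), H.low hn ω (by omega) hk]
  mom := fun ω m hm => by
    obtain ⟨Q, hQ, hQe⟩ := H.high hn ω hm
    obtain ⟨q, hq, hqe⟩ := (mu0_str hn).mom ω m hm
    refine ⟨Q + q, hQ.add hq, fun k hk => ?_⟩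
    rw [Polynomial.eval_add, ← hQe k hk, ← hqe k hk]
    ring

/-- the characterisation -/
theorem ext_iff {μ : Measure (E n)} [IsFiniteMeasure μ] {h : E n → ℂ} (hn : 1 ≤ n)
    (hmeas : Measurable h) :
    Ext μ h ↔ Str μ ∧ ∀ᵐ t ∂μ, h t = -((Real.cos ‖t‖ : ℝ) : ℂ) := by
  constructor
  · intro H
    exact ⟨H.str hn, (H.dens hn).mono fun _ ht => ht.1⟩
  · rintro ⟨hs, hh⟩
    refine ⟨hmeas, ?_, ?_, total_of_str hs hn⟩
    · filter_upwards [hh, hs.conc] with t ht hc
      rw [ht, norm_neg, Complex.norm_real, Real.norm_eq_abs, ← Real.sqrt_sq_eq_abs, cos_sq_of hc,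
        Real.sqrt_one]
    · intro ξ hξ
      rw [← fourier_of_str hs hn hξ]
      apply integral_congr_ae
      filter_upwards [hh] with t ht
      rw [ht]

end Pool.Agent.K7.H38.LB
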