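import Pool.Agent.K7.H38.LB.Test2

set_option autoImplicit false

open Filter Topology Metric Set MeasureTheory
open scoped ENNReal
open Pool.Agent.Helper797.Bs

namespace Pool.Agent.K7.H38.LB

variable {n : ℕ}

/-- `ν = h μ` is an extremal measure: `|h| = 1`, `ν̂(ξ) = -|ξ|²` in the unit ball and `‖ν‖ = n` -/
structure Ext (μ : Measure (E n)) (h : E n → ℂ) : Prop where
  meas : Measurable h
  norm : ∀ᵐ t ∂μ, ‖h t‖ = 1
  ft : ∀ ξ : E n, ‖ξ‖ ≤ 1 →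
    ∫ t, Complex.exp (-(Complex.I * ((inner ℝ t ξ : ℝ) : ℂ))) * h t ∂μ = -((‖ξ‖ ^ 2 : ℝ) : ℂ)
  mass : μ.real univ = n

lemma eq_one_of {z : ℂ} (h1 : ‖z‖ ≤ 1) (h2 : 1 ≤ z.re) : z = 1 := by
  have h3 : z.re * z.re + z.im * z.im ≤ 1 := by
    have := Complex.normSq_apply z
    rw [Complex.normSq_eq_norm_sq] at this
    nlinarith [norm_nonneg z]
  apply Complex.ext
  · rw [Complex.one_re]; nlinarith [mul_self_nonneg z.im]
  · rw [Complex.one_im]
    have : z.im * z.im ≤ 0 := by nlinarith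
    exact mul_self_eq_zero.1 (le_antisymm this (mul_self_nonneg _))

lemma neg_cos_meas : Measurable (fun t : E n => (-((Real.cos ‖t‖ : ℝ) : ℂ))) := by fun_prop

lemma neg_cos_int {μ : Measure (E n)} [IsFiniteMeasure μ] :
    Integrable (fun t : E n => (-((Real.cos ‖t‖ : ℝ) : ℂ))) μ := by
  apply bdd_int (C := 1) neg_cos_meas.aestronglyMeasurable
  intro t
  rw [norm_neg, Complex.norm_real]
  exact Real.abs_cos_le_one _

lemma Ext.int {μ : Measure (E n)} [IsFiniteMeasure μ] {h : E n → ℂ} (H : Ext μ h) :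
    Integrable h μ :=
  Integrable.of_bound H.meas.aestronglyMeasurable 1 (H.norm.mono fun _ ht => ht.le)

lemma Ext.heq {μ : Measure (E n)} [IsFiniteMeasure μ] {h : E n → ℂ} (H : Ext μ h) (hn : 1 ≤ n)
    {F : (Fin n → ℂ) → ℂ} (hFd : Differentiable ℂ F) {C : ℝ} (hC : 0 ≤ C) (hF : Gro F C) :
    ∫ t, F (cx t) * h t ∂μ = ∫ t, F (cx t) * (-((Real.cos ‖t‖ : ℝ) : ℂ)) ∂(mu0 n) := by
  apply eq_gro hn hFd hC hF H.int neg_cos_int
  intro ξ hξ
  rw [H.ft ξ hξ, mu0_fourier hξ]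

lemma cos_sq_of {s : ℝ} (h : ∃ k : ℕ, s = k * Real.pi) : Real.cos s ^ 2 = 1 := by
  obtain ⟨k, rfl⟩ := h
  rw [Real.cos_nat_mul_pi, ← pow_mul, mul_comm, pow_mul]
  norm_num

/-- the support and the density of an extremal measure -/
theorem Ext.dens {μ : Measure (E n)} [IsFiniteMeasure μ] {h : E n → ℂ} (H : Ext μ h) (hn : 1 ≤ n) :
    ∀ᵐ t ∂μ, h t = -((Real.cos ‖t‖ : ℝ) : ℂ) ∧ ∃ k : ℕ, ‖t‖ = k * Real.pi := by
  have hSg : Sg (ev Complex.cos) 1 := Sg.ev fun z => by rw [one_mul]; exact norm_cos_le z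
  have hd : Differentiable ℂ (fun z : Fin n → ℂ => ev Complex.cos (dot z)) :=
    evcos_diff.comp dot_diff
  have h1 := H.heq hn hd zero_le_one (hSg.gro zero_le_one)
  have e1 : ∀ t : E n, ev Complex.cos (dot (cx t)) = ((Real.cos ‖t‖ : ℝ) : ℂ) := by
    intro t
    rw [dot_cx, ev_eq (fun s => Complex.cos_neg s) (z := ((‖t‖ : ℝ) : ℂ)) (by push_cast; rfl)]
    push_cast; rfl
  simp_rw [e1] at h1
  have h2 : ∫ t, ((Real.cos ‖t‖ : ℝ) : ℂ) * (-((Real.cos ‖t‖ : ℝ) : ℂ)) ∂(mu0 n) = -(n : ℂ) := by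
    have h3 : ∫ t, ((Real.cos ‖t‖ : ℝ) : ℂ) * (-((Real.cos ‖t‖ : ℝ) : ℂ)) ∂(mu0 n)
        = ∫ t : E n, (-1 : ℂ) ∂(mu0 n) := by
      apply integral_congr_ae
      filter_upwards [mu0_conc (n := n)] with t ht
      have h4 := cos_sq_of ht
      have h5 : ((Real.cos ‖t‖ : ℝ) : ℂ) ^ 2 = 1 := by
        rw [← Complex.ofReal_pow, h4, Complex.ofReal_one]
      linear_combination -h5
    rw [h3, integral_const, total_of_str (mu0_str hn) hn]
    simp
  rw [h2] at h1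
  -- real parts
  have hi : Integrable (fun t => ((Real.cos ‖t‖ : ℝ) : ℂ) * h t) μ := by
    have := H.int.bdd_mul (f := fun t : E n => ((Real.cos ‖t‖ : ℝ) : ℂ)) (c := 1)
      (by
        have : Measurable (fun t : E n => ((Real.cos ‖t‖ : ℝ) : ℂ)) := by fun_prop
        exact this.aestronglyMeasurable)
      (Eventually.of_forall fun t => by
        rw [Complex.norm_real]
        exact Real.abs_cos_le_one _)
    exact this
  have hre : ∫ t, (((Real.cos ‖t‖ : ℝ) : ℂ) * h t).re ∂μ = -(n : ℝ) := by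
    have h3 : ∫ t, (((Real.cos ‖t‖ : ℝ) : ℂ) * h t).re ∂μ
        = (∫ t, ((Real.cos ‖t‖ : ℝ) : ℂ) * h t ∂μ).re := by
      exact integral_re hi
    rw [h3, h1]
    simp
  have hnn : 0 ≤ᵐ[μ] fun t => 1 + (((Real.cos ‖t‖ : ℝ) : ℂ) * h t).re := by
    filter_upwards [H.norm] with t ht
    have h4 : ‖((Real.cos ‖t‖ : ℝ) : ℂ) * h t‖ ≤ 1 := by
      rw [norm_mul, ht, mul_one, Complex.norm_real]
      exact Real.abs_cos_le_one _
    have h5 := (abs_le.1 ((Complex.abs_re_le_norm _).trans h4)).1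
    change (0 : ℝ) ≤ _
    linarith
  have hint : Integrable (fun t => 1 + (((Real.cos ‖t‖ : ℝ) : ℂ) * h t).re) μ :=
    (integrable_const 1).add hi.re
  have hzero : ∫ t, (1 + (((Real.cos ‖t‖ : ℝ) : ℂ) * h t).re) ∂μ = 0 := by
    have h6 : ∫ t, (1 + (((Real.cos ‖t‖ : ℝ) : ℂ) * h t).re) ∂μ
        = ∫ _t, (1 : ℝ) ∂μ + ∫ t, (((Real.cos ‖t‖ : ℝ) : ℂ) * h t).re ∂μ :=
      integral_add (integrable_const (1 : ℝ)) hi.re
    rw [h6, hre, integral_const, H.mass]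
    simp
  have h7 := (integral_eq_zero_iff_of_nonneg_ae hnn hint).1 hzero
  filter_upwards [h7, H.norm] with t ht hnorm
  have h8 : 1 + (((Real.cos ‖t‖ : ℝ) : ℂ) * h t).re = 0 := ht
  have h9 : ‖-(((Real.cos ‖t‖ : ℝ) : ℂ) * h t)‖ ≤ 1 := by
    rw [norm_neg, norm_mul, hnorm, mul_one, Complex.norm_real]
    exact Real.abs_cos_le_one _
  have h10 := eq_one_of h9 (by rw [Complex.neg_re]; linarith)
  have h11 : ‖((Real.cos ‖t‖ : ℝ) : ℂ) * h t‖ = 1 := by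
    rw [← norm_neg, h10, norm_one]
  rw [norm_mul, hnorm, mul_one, Complex.norm_real, Real.norm_eq_abs] at h11
  have h12 : Real.cos ‖t‖ ^ 2 = 1 := by rw [← sq_abs, h11, one_pow]
  have h13 : Real.sin ‖t‖ = 0 := by
    have := Real.sin_sq_add_cos_sq ‖t‖
    have h14 : Real.sin ‖t‖ ^ 2 = 0 := by linarith
    exact pow_eq_zero_iff two_ne_zero |>.1 h14
  constructor
  · have h15 : ((Real.cos ‖t‖ : ℝ) : ℂ) ^ 2 = 1 := by
      rw [← Complex.ofReal_pow, h12, Complex.ofReal_one]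
    linear_combination (-(((Real.cos ‖t‖ : ℝ) : ℂ))) * h10 - (h t) * h15
  · obtain ⟨k, hk⟩ := Real.sin_eq_zero_iff.1 h13
    have hk0 : 0 ≤ k := by
      by_contra hneg
      rw [not_le] at hneg
      have h16 : (k : ℝ) < 0 := by exact_mod_cast hneg
      have h17 : (k : ℝ) * Real.pi < 0 := mul_neg_of_neg_of_pos h16 Real.pi_pos
      rw [hk] at h17
      exact absurd (norm_nonneg t) (not_le.2 h17)
    refine ⟨k.toNat, ?_⟩
    rw [← hk]
    congr 1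
    have : ((k.toNat : ℤ) : ℝ) = (k : ℝ) := by rw [Int.toNat_of_nonneg hk0]
    rw [← this]
    push_cast
    rfl

/-- the two measures give the same integrals -/
theorem Ext.same {μ : Measure (E n)} [IsFiniteMeasure μ] {h : E n → ℂ} (H : Ext μ h) (hn : 1 ≤ n)
    {F : (Fin n → ℂ) → ℂ} (hFd : Differentiable ℂ F) {C : ℝ} (hC : 0 ≤ C) (hF : Gro F C) :
    ∫ t, F (cx t) * (-((Real.cos ‖t‖ : ℝ) : ℂ)) ∂μ
      = ∫ t, F (cx t) * (-((Real.cos ‖t‖ : ℝ) : ℂ)) ∂(mu0 n) := by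
  rw [← H.heq hn hFd hC hF]
  apply integral_congr_ae
  filter_upwards [H.dens hn] with t ht
  rw [ht.1]

/-- moments which are not normalised -/
noncomputable def A (μ : Measure (E n)) (k m : ℕ) (ω : E n) : ℝ := ∫ t in S n k, (inner ℝ t ω) ^ m ∂μ

lemma genT {μ : Measure (E n)} [IsFiniteMeasure μ] (hc : ∀ᵐ t ∂μ, ∃ k : ℕ, ‖t‖ = k * Real.pi)
    {Φ : ℂ → ℂ} (hΦ : Differentiable ℂ Φ) (ω : E n) (m : ℕ) {C : ℝ}
    (hG : Gro (fun z => lin ω z ^ m * Φ (dot z)) C) :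
    HasSum (fun k : ℕ => (-(-1) ^ k * Φ (an k)) * ((A μ k m ω : ℝ) : ℂ))
      (∫ t, lin ω (cx t) ^ m * Φ (dot (cx t)) * (-((Real.cos ‖t‖ : ℝ) : ℂ)) ∂μ) := by
  have hd : Differentiable ℂ (fun z : Fin n → ℂ => lin ω z ^ m * Φ (dot z)) :=
    ((lin_diff ω).pow m).mul (hΦ.comp dot_diff)
  have hi : Integrable (fun t => lin ω (cx t) ^ m * Φ (dot (cx t)) * (-((Real.cos ‖t‖ : ℝ) : ℂ))) μ := by
    apply bdd_int (C := C)
    · have h1 : Continuous (fun t : E n => lin ω (cx t) ^ m * Φ (dot (cx t))) :=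
        hd.continuous.comp cx_cont
      exact h1.aestronglyMeasurable.mul neg_cos_meas.aestronglyMeasurable
    · intro t
      have h1 := hG (cx t)
      rw [imn_cx, Real.exp_zero, mul_one] at h1
      rw [norm_mul, norm_neg, Complex.norm_real, Real.norm_eq_abs]
      have h2 := Real.abs_cos_le_one ‖t‖
      calc ‖lin ω (cx t) ^ m * Φ (dot (cx t))‖ * |Real.cos ‖t‖| ≤ C * 1 := by
            have := (norm_nonneg _).trans h1
            gcongr
        _ = C := mul_one C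
  have h1 := decomp hc hi
  refine (hasSum_cg fun k => ?_).1 h1
  have e : ∀ t ∈ S n k, lin ω (cx t) ^ m * Φ (dot (cx t)) * (-((Real.cos ‖t‖ : ℝ) : ℂ))
      = (-(-1) ^ k * Φ (an k)) * (((inner ℝ t ω) ^ m : ℝ) : ℂ) := by
    intro t ht
    rw [lin_cx, dot_cx, on_S ht, ccos]
    have : (((k * Real.pi) ^ 2 : ℝ) : ℂ) = an k := by unfold an; push_cast; rfl
    rw [this]
    push_cast
    ring
  rw [setIntegral_congr_fun (S_meas k) e, integral_const_mul]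
  congr 1
  unfold A
  exact integral_ofReal (𝕜 := ℂ) (f := fun t : E n => (inner ℝ t ω) ^ m)

lemma A_zero (μ : Measure (E n)) (k : ℕ) (ω : E n) : A μ k 0 ω = μ.real (S n k) := by
  unfold A
  simp only [pow_zero]
  rw [setIntegral_const, smul_eq_mul, mul_one]

lemma an_zero : an 0 = 0 := by unfold an; simp

/-- the mass at the origin -/
theorem Ext.zero {μ : Measure (E n)} [IsFiniteMeasure μ] {h : E n → ℂ} (H : Ext μ h) (hn : 1 ≤ n) :
    μ.real (S n 0) = (mu0 n).real (S n 0) := by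
  obtain ⟨K, hK, hS⟩ := sv_Sg
  have hG : Gro (fun z : Fin n → ℂ => lin (0 : E n) z ^ 0 * sv (dot z)) K := by
    intro z
    change ‖lin (0 : E n) z ^ 0 * sv (dot z)‖ ≤ _
    rw [pow_zero, one_mul]
    exact hS.gro hK z
  have hd : Differentiable ℂ (fun z : Fin n → ℂ => lin (0 : E n) z ^ 0 * sv (dot z)) :=
    ((lin_diff _).pow 0).mul (sv_diff.comp dot_diff)
  have hc : ∀ᵐ t ∂μ, ∃ k : ℕ, ‖t‖ = k * Real.pi := (H.dens hn).mono fun _ ht => ht.2
  have hval : ∀ (ρ : Measure (E n)) [IsFiniteMeasure ρ], (∀ᵐ t ∂ρ, ∃ k : ℕ, ‖t‖ = k * Real.pi) →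
      ∫ t, lin (0 : E n) (cx t) ^ 0 * sv (dot (cx t)) * (-((Real.cos ‖t‖ : ℝ) : ℂ)) ∂ρ
        = -((ρ.real (S n 0) : ℝ) : ℂ) := by
    intro ρ _ hρ
    have h1 := genT hρ sv_diff (0 : E n) 0 hG
    have h2 : HasSum (fun k : ℕ => (-(-1) ^ k * sv (an k)) * ((A ρ k 0 (0 : E n) : ℝ) : ℂ))
        ((-(-1) ^ 0 * sv (an 0)) * ((A ρ 0 0 (0 : E n) : ℝ) : ℂ)) := by
      apply hasSum_single 0
      intro k hk
      rw [sv_node (by omega), mul_zero, zero_mul]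
    rw [h1.unique h2, an_zero, sv_zero, A_zero]
    ring
  have h3 := H.same hn hd hK hG
  rw [hval μ hc, hval (mu0 n) mu0_conc] at h3
  have h4 := neg_injective h3
  exact_mod_cast h4

/-- the relations between the moments -/
theorem Ext.rel {μ : Measure (E n)} [IsFiniteMeasure μ] {h : E n → ℂ} (H : Ext μ h) (hn : 1 ≤ n)
    (ω : E n) {m : ℕ} {J : Finset ℕ} (hJ : ∀ j ∈ J, 1 ≤ j) (hne : J.Nonempty)
    (hm : m ≤ 2 * J.card + 1) :
    ∑ k ∈ J, lam J k * (((A μ k m ω - A (mu0 n) k m ω : ℝ) : ℂ) / (2 * an k)) = 0 := by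
  obtain ⟨C, hC, hG⟩ := TF_gro (ω := ω) hJ hne hm
  have hc : ∀ᵐ t ∂μ, ∃ k : ℕ, ‖t‖ = k * Real.pi := (H.dens hn).mono fun _ ht => ht.2
  have h0J : 0 ∉ J := fun h0 => by have := hJ 0 h0; omega
  have hval : ∀ (ρ : Measure (E n)) [IsFiniteMeasure ρ], (∀ᵐ t ∂ρ, ∃ k : ℕ, ‖t‖ = k * Real.pi) →
      ∫ t, lin ω (cx t) ^ m * GJ J (dot (cx t)) * (-((Real.cos ‖t‖ : ℝ) : ℂ)) ∂ρ
        = ∑ k ∈ insert 0 J, (-(-1) ^ k * GJ J (an k)) * ((A ρ k m ω : ℝ) : ℂ) := by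
    intro ρ _ hρ
    have h1 := genT hρ (GJ_diff J) ω m hG
    have h2 : HasSum (fun k : ℕ => (-(-1) ^ k * GJ J (an k)) * ((A ρ k m ω : ℝ) : ℂ))
        (∑ k ∈ insert 0 J, (-(-1) ^ k * GJ J (an k)) * ((A ρ k m ω : ℝ) : ℂ)) := by
      apply hasSum_sum_of_ne_finset_zero
      intro k hk
      rw [Finset.mem_insert, not_or] at hk
      rw [GJ_other hJ hk.2 (by omega), mul_zero, zero_mul]
    exact h1.unique h2
  have h3 := H.same hn (TF_diff ω m J) hC hG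
  have h4 : ∫ t, lin ω (cx t) ^ m * GJ J (dot (cx t)) * (-((Real.cos ‖t‖ : ℝ) : ℂ)) ∂μ
      = ∫ t, lin ω (cx t) ^ m * GJ J (dot (cx t)) * (-((Real.cos ‖t‖ : ℝ) : ℂ)) ∂(mu0 n) := h3
  rw [hval μ hc, hval (mu0 n) mu0_conc, Finset.sum_insert h0J, Finset.sum_insert h0J] at h4
  have hA0 : A μ 0 m ω = A (mu0 n) 0 m ω := by
    rcases Nat.eq_zero_or_pos m with rfl | hmpos
    · rw [A_zero, A_zero, H.zero hn]
    · unfold A
      rw [S_zero, integral_singleton, integral_singleton, inner_zero_left, zero_pow (by omega)]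
      simp
  rw [hA0] at h4
  have h5 := add_left_cancel h4
  rw [← sub_eq_zero, ← Finset.sum_sub_distrib] at h5
  have h6 : ∀ k ∈ J, (-(-1) ^ k * GJ J (an k)) * ((A μ k m ω : ℝ) : ℂ)
      - (-(-1) ^ k * GJ J (an k)) * ((A (mu0 n) k m ω : ℝ) : ℂ)
      = -(lam J k * (((A μ k m ω - A (mu0 n) k m ω : ℝ) : ℂ) / (2 * an k))) := by
    intro k hk
    rw [GJ_node hJ hk]
    have e : ((-1 : ℂ) ^ k) * ((-1 : ℂ) ^ k) = 1 := by rw [← mul_pow]; norm_num
    push_cast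
    linear_combination (-(lam J k / (2 * an k) * (((A μ k m ω : ℝ) : ℂ) - ((A (mu0 n) k m ω : ℝ) : ℂ)))) * e
  rw [Finset.sum_congr rfl h6, Finset.sum_neg_distrib, neg_eq_zero] at h5
  exact h5

end Pool.Agent.K7.H38.LB
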