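import Pool.Agent.K7.H38.LB.Ref3

set_option autoImplicit false

open Filter Topology Metric Set MeasureTheory
open scoped ENNReal FourierTransform

namespace Pool.Agent.K7.H38.LB

variable {n : ℕ}

/-- the inclusion `ℝⁿ → ℂⁿ` -/
def cx (x : E n) : Fin n → ℂ := fun i => ((x i : ℝ) : ℂ)

/-- the euclidean norm of the imaginary part -/
noncomputable def imn (z : Fin n → ℂ) : ℝ := √(∑ i, (z i).im ^ 2)

/-- growth and decay -/
def Dec (G : (Fin n → ℂ) → ℂ) (C : ℝ) : Prop :=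
  ∀ z, ‖G z‖ ≤ C * Real.exp (imn z) * ∏ i, (1 + ‖z i‖ ^ 2)⁻¹

/-- the product weight -/
noncomputable def W (x : E n) : ℝ := ∏ i, (1 + (x i) ^ 2)⁻¹

lemma W_nonneg (x : E n) : 0 ≤ W x := Finset.prod_nonneg fun i _ => by positivity

lemma W_int : Integrable (W : E n → ℝ) := by
  have h1 : Integrable (fun x : Fin n → ℝ => ∏ i, (1 + (x i) ^ 2)⁻¹) := by
    have := Integrable.fintype_prod (ι := Fin n) (f := fun _ (t : ℝ) => (1 + t ^ 2)⁻¹)
      (μ := fun _ => (volume : Measure ℝ)) (fun _ => integrable_inv_one_add_sq)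
    exact this
  have h2 := (PiLp.volume_preserving_ofLp (Fin n)).integrable_comp h1.aestronglyMeasurable
  exact h2.2 h1

lemma cx_cont : Continuous (cx : E n → Fin n → ℂ) := by
  unfold cx
  fun_prop

/-- the shifted integrand -/
noncomputable def H (G : (Fin n → ℂ) → ℂ) (ξ η : E n) (x : E n) (w : ℂ) : ℂ :=
  G (cx x + w • cx η) * Complex.exp (-(Complex.I * (((inner ℝ x ξ : ℝ) : ℂ) + w * ((‖ξ‖ : ℝ) : ℂ))))

lemma coord_le {η : E n} (hη : ‖η‖ = 1) (i : Fin n) : |η i| ≤ 1 := by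
  have := PiLp.norm_apply_le η i
  rw [Real.norm_eq_abs, hη] at this
  exact this

lemma imn_shift {η : E n} (hη : ‖η‖ = 1) (x : E n) (w : ℂ) :
    imn (cx x + w • cx η) = |w.im| := by
  unfold imn cx
  have e : ∀ i : Fin n, (((fun i => ((x i : ℝ) : ℂ)) + w • fun i => ((η i : ℝ) : ℂ)) i).im ^ 2
      = w.im ^ 2 * (η i) ^ 2 := by
    intro i
    simp only [Pi.add_apply, Pi.smul_apply, smul_eq_mul, Complex.add_im, Complex.ofReal_im,
      Complex.im_mul_ofReal, zero_add]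
    ring
  simp_rw [e]
  rw [← Finset.mul_sum, ← EuclideanSpace.real_norm_sq_eq, hη, one_pow, mul_one, Real.sqrt_sq_eq_abs]

lemma weight_le {t R : ℝ} {v : ℂ} (hv : ‖v‖ ≤ R) :
    (1 + ‖((t : ℝ) : ℂ) + v‖ ^ 2)⁻¹ ≤ (2 + 2 * R ^ 2) * (1 + t ^ 2)⁻¹ := by
  have h1 : |t| ≤ ‖((t : ℝ) : ℂ) + v‖ + R := by
    have h2 : ‖((t : ℝ) : ℂ)‖ ≤ ‖((t : ℝ) : ℂ) + v‖ + ‖v‖ := by
      have := norm_sub_le (((t : ℝ) : ℂ) + v) v
      rwa [add_sub_cancel_right] at this
    rw [Complex.norm_real, Real.norm_eq_abs] at h2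
    linarith
  set a := ‖((t : ℝ) : ℂ) + v‖
  have ha : 0 ≤ a := norm_nonneg _
  have hR : 0 ≤ R := (norm_nonneg _).trans hv
  have h3 : t ^ 2 ≤ 2 * a ^ 2 + 2 * R ^ 2 := by
    rw [← sq_abs t]
    have h4 : |t| ^ 2 ≤ (a + R) ^ 2 := by gcongr
    nlinarith [sq_nonneg (a - R)]
  rw [← div_eq_mul_inv, inv_eq_one_div, div_le_div_iff₀ (by positivity) (by positivity)]
  nlinarith [sq_nonneg (a * R), mul_nonneg (sq_nonneg a) (sq_nonneg R)]

lemma H_bound {G : (Fin n → ℂ) → ℂ} {C : ℝ} (hC : 0 ≤ C) (hG : Dec G C) {ξ η : E n} (hη : ‖η‖ = 1)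
    (x : E n) {w : ℂ} {R : ℝ} (hw : ‖w‖ ≤ R) :
    ‖H G ξ η x w‖ ≤ C * Real.exp (|w.im| + w.im * ‖ξ‖) * ((2 + 2 * R ^ 2) ^ n * W x) := by
  unfold H
  rw [norm_mul, Complex.norm_exp]
  have e1 : (-(Complex.I * (((inner ℝ x ξ : ℝ) : ℂ) + w * ((‖ξ‖ : ℝ) : ℂ)))).re = w.im * ‖ξ‖ := by
    simp [Complex.mul_re, Complex.mul_im]
  rw [e1, Real.exp_add]
  have h1 := hG (cx x + w • cx η)
  rw [imn_shift hη] at h1
  have h2 : ∏ i, (1 + ‖(cx x + w • cx η) i‖ ^ 2)⁻¹ ≤ (2 + 2 * R ^ 2) ^ n * W x := by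
    unfold W
    have e2 : (2 + 2 * R ^ 2) ^ n = ∏ _i : Fin n, (2 + 2 * R ^ 2) := by
      rw [Finset.prod_const, Finset.card_univ, Fintype.card_fin]
    rw [e2, ← Finset.prod_mul_distrib]
    apply Finset.prod_le_prod
    · intro i _; positivity
    · intro i _
      apply weight_le
      change ‖w * ((η i : ℝ) : ℂ)‖ ≤ R
      rw [norm_mul, Complex.norm_real, Real.norm_eq_abs]
      have := coord_le hη i
      calc ‖w‖ * |η i| ≤ ‖w‖ * 1 := by gcongr
        _ ≤ R := by rw [mul_one]; exact hw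
  have hpos : 0 ≤ C * Real.exp |w.im| := by positivity
  calc ‖G (cx x + w • cx η)‖ * Real.exp (w.im * ‖ξ‖)
      ≤ (C * Real.exp |w.im| * ∏ i, (1 + ‖(cx x + w • cx η) i‖ ^ 2)⁻¹) * Real.exp (w.im * ‖ξ‖) := by
        gcongr
    _ ≤ (C * Real.exp |w.im| * ((2 + 2 * R ^ 2) ^ n * W x)) * Real.exp (w.im * ‖ξ‖) := by gcongr
    _ = _ := by ring

lemma H_cont {G : (Fin n → ℂ) → ℂ} (hG : Differentiable ℂ G) (ξ η : E n) :
    Continuous (Function.uncurry (H G ξ η)) := by
  unfold H Function.uncurry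
  have h1 := hG.continuous
  have h2 := cx_cont (n := n)
  have h3 : Continuous (fun p : E n × ℂ => G (cx p.1 + p.2 • cx η)) := by fun_prop
  fun_prop

lemma H_diff {G : (Fin n → ℂ) → ℂ} (hG : Differentiable ℂ G) (ξ η x : E n) :
    Differentiable ℂ (H G ξ η x) := by
  unfold H
  have h1 : Differentiable ℂ (fun w : ℂ => cx x + w • cx η) := by fun_prop
  have h3 : Differentiable ℂ (fun w : ℂ => G (cx x + w • cx η)) := hG.comp h1
  fun_prop

/-- the integral is an entire function of the shift -/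
lemma J_hasDeriv {G : (Fin n → ℂ) → ℂ} (hGd : Differentiable ℂ G) {C : ℝ} (hC : 0 ≤ C)
    (hG : Dec G C) {ξ η : E n} (hη : ‖η‖ = 1) (w₀ : ℂ) :
    DifferentiableAt ℂ (fun w => ∫ x, H G ξ η x w) w₀ := by
  set R : ℝ := ‖w₀‖ + 2 with hR
  have hHint : ∀ w : ℂ, Integrable (fun x => H G ξ η x w) := by
    intro w
    have hm : Continuous (fun x => H G ξ η x w) :=
      (H_cont hGd ξ η).comp (by fun_prop : Continuous fun x : E n => (x, w))
    refine Integrable.mono' ((W_int (n := n)).const_mul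
      (C * Real.exp (|w.im| + w.im * ‖ξ‖) * ((2 + 2 * ‖w‖ ^ 2) ^ n))) hm.aestronglyMeasurable ?_
    refine Eventually.of_forall fun x => ?_
    have := H_bound hC hG (ξ := ξ) hη x (le_refl ‖w‖)
    rw [← mul_assoc] at this
    exact this
  have key := hasDerivAt_integral_of_dominated_loc_of_deriv_le (𝕜 := ℂ) (μ := (volume : Measure (E n)))
    (F := fun w x => H G ξ η x w) (F' := fun w x => deriv (H G ξ η x) w) (x₀ := w₀)
    (s := ball w₀ 1)
    (bound := fun x => C * Real.exp (R + R * ‖ξ‖) * ((2 + 2 * R ^ 2) ^ n) * W x)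
    (ball_mem_nhds w₀ one_pos) ?_ (hHint w₀) ?_ ?_ ?_ ?_
  · exact key.2.differentiableAt
  · exact Eventually.of_forall fun w => (hHint w).aestronglyMeasurable
  · have h1 := measurable_deriv_with_param (𝕜 := ℂ) (f := H G ξ η) (H_cont hGd ξ η)
    exact (h1.comp (measurable_id.prodMk measurable_const)).aestronglyMeasurable
  · refine Eventually.of_forall fun x w hw => ?_
    have hw' : ‖w - w₀‖ < 1 := by simpa [dist_eq_norm] using hw
    have h1 := Complex.norm_deriv_le_of_forall_mem_sphere_norm_le (f := H G ξ η x) (c := w)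
      (R := 1) (C := C * Real.exp (R + R * ‖ξ‖) * ((2 + 2 * R ^ 2) ^ n) * W x) one_pos
      ((H_diff hGd ξ η x).diffContOnCl) ?_
    · simpa using h1
    · intro z hz
      have hz1 : ‖z - w‖ = 1 := by simpa [dist_eq_norm] using hz
      have hzR : ‖z‖ ≤ R := by
        have e : z = (z - w) + (w - w₀) + w₀ := by ring
        rw [e]
        have := norm_add₃_le (a := z - w) (b := w - w₀) (c := w₀)
        rw [hR]; linarith
      have h2 := H_bound hC hG (ξ := ξ) hη x hzR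
      rw [← mul_assoc] at h2
      refine h2.trans ?_
      have h3 : |z.im| ≤ R := (Complex.abs_im_le_norm z).trans hzR
      have h4 : z.im ≤ R := (le_abs_self _).trans h3
      have hW := W_nonneg x
      have hR0 : 0 ≤ R := by positivity
      gcongr
  · exact (W_int (n := n)).const_mul _
  · exact Eventually.of_forall fun x w _ => (H_diff hGd ξ η x w).hasDerivAt

/-- translation by real numbers -/
lemma J_real {G : (Fin n → ℂ) → ℂ} {ξ η : E n} (hξη : inner ℝ η ξ = ‖ξ‖) (w : ℂ) (r : ℝ) :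
    ∫ x, H G ξ η x (w + r) = ∫ x, H G ξ η x w := by
  have h := integral_add_right_eq_self (μ := (volume : Measure (E n)))
    (fun x => H G ξ η x w) (r • η)
  rw [← h]
  congr 1
  funext x
  unfold H
  have e1 : cx x + (w + (r : ℂ)) • cx η = cx (x + r • η) + w • cx η := by
    funext i
    simp only [cx, Pi.add_apply, Pi.smul_apply, smul_eq_mul, PiLp.add_apply, PiLp.smul_apply]
    push_cast
    ring
  have e2 : ((inner ℝ x ξ : ℝ) : ℂ) + (w + (r : ℂ)) * ((‖ξ‖ : ℝ) : ℂ)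
      = ((inner ℝ (x + r • η) ξ : ℝ) : ℂ) + w * ((‖ξ‖ : ℝ) : ℂ) := by
    rw [inner_add_left, inner_smul_left, hξη]
    simp only [conj_trivial]
    push_cast
    ring
  rw [e1, e2]

lemma J_const {G : (Fin n → ℂ) → ℂ} (hGd : Differentiable ℂ G) {C : ℝ} (hC : 0 ≤ C)
    (hG : Dec G C) {ξ η : E n} (hη : ‖η‖ = 1) (hξη : inner ℝ η ξ = ‖ξ‖) (w : ℂ) :
    ∫ x, H G ξ η x w = ∫ x, H G ξ η x 0 := by
  set J : ℂ → ℂ := fun w => ∫ x, H G ξ η x w with hJ
  have hd : Differentiable ℂ J := fun w₀ => J_hasDeriv hGd hC hG hη w₀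
  have h0 : ∀ w, deriv J w = 0 := by
    intro w
    -- restrict to the horizontal line
    have h1 : HasDerivAt (fun r : ℝ => J (w + (r : ℂ))) (deriv J w) 0 := by
      have h2 : HasDerivAt J (deriv J w) (w + ((0 : ℝ) : ℂ)) := by
        rw [Complex.ofReal_zero, add_zero]; exact (hd w).hasDerivAt
      have h3 : HasDerivAt (fun z : ℂ => J (w + z)) (deriv J w) ((0 : ℝ) : ℂ) :=
        h2.comp_const_add w _
      exact h3.comp_ofReal
    have h4 : (fun r : ℝ => J (w + (r : ℂ))) = fun _ => J w := by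
      funext r
      exact J_real hξη w r
    rw [h4] at h1
    exact h1.unique (hasDerivAt_const _ _)
  exact is_const_of_deriv_eq_zero hd h0 w 0

/-- the Fourier transform vanishes outside the ball -/
theorem pw {G : (Fin n → ℂ) → ℂ} (hGd : Differentiable ℂ G) {C : ℝ} (hC : 0 ≤ C)
    (hG : Dec G C) {ξ : E n} (hξ : 1 < ‖ξ‖) :
    ∫ x, G (cx x) * Complex.exp (-(Complex.I * ((inner ℝ x ξ : ℝ) : ℂ))) = 0 := by
  have hξ0 : ‖ξ‖ ≠ 0 := by positivity
  set η : E n := (‖ξ‖)⁻¹ • ξ with hηdef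
  have hη : ‖η‖ = 1 := by
    rw [hηdef, norm_smul, norm_inv, norm_norm, inv_mul_cancel₀ hξ0]
  have hξη : inner ℝ η ξ = ‖ξ‖ := by
    rw [hηdef, inner_smul_left, real_inner_self_eq_norm_sq]
    simp only [conj_trivial]
    field_simp
  have h0 : ∫ x, G (cx x) * Complex.exp (-(Complex.I * ((inner ℝ x ξ : ℝ) : ℂ)))
      = ∫ x, H G ξ η x 0 := by
    congr 1
    funext x
    unfold H
    simp
  rw [h0]
  -- bound for the shift by `-iT`
  set I0 : ℝ := ∫ x : E n, W x with hI0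
  have hb : ∀ T : ℝ, 0 ≤ T → ‖∫ x, H G ξ η x 0‖
      ≤ C * ((2 + 2 * T ^ 2) ^ n * Real.exp (-((‖ξ‖ - 1) * T))) * I0 := by
    intro T hT
    rw [← J_const hGd hC hG hη hξη (-(T : ℂ) * Complex.I)]
    refine (norm_integral_le_integral_norm _).trans ?_
    have hw : ‖-(T : ℂ) * Complex.I‖ ≤ T := by
      rw [norm_mul, norm_neg, Complex.norm_real, Complex.norm_I, mul_one, Real.norm_eq_abs,
        abs_of_nonneg hT]
    have him : (-(T : ℂ) * Complex.I).im = -T := by simp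
    have h1 : ∀ x, ‖H G ξ η x (-(T : ℂ) * Complex.I)‖
        ≤ C * ((2 + 2 * T ^ 2) ^ n * Real.exp (-((‖ξ‖ - 1) * T))) * W x := by
      intro x
      have h2 := H_bound hC hG (ξ := ξ) hη x hw
      rw [him, abs_neg, abs_of_nonneg hT] at h2
      refine h2.trans (le_of_eq ?_)
      have : T + -T * ‖ξ‖ = -((‖ξ‖ - 1) * T) := by ring
      rw [this]
      ring
    rw [hI0, ← integral_const_mul]
    apply integral_mono_of_nonneg (Eventually.of_forall fun _ => norm_nonneg _)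
      ((W_int (n := n)).const_mul _) (Eventually.of_forall h1)
  have hlim : Tendsto (fun T : ℝ => C * ((2 + 2 * T ^ 2) ^ n * Real.exp (-((‖ξ‖ - 1) * T))) * I0)
      atTop (𝓝 0) := by
    have hlt : 0 < ‖ξ‖ - 1 := by linarith
    have h1 : Tendsto (fun T : ℝ => (2 + 2 * T ^ 2) ^ n * Real.exp (-((‖ξ‖ - 1) * T))) atTop
        (𝓝 0) := by
      have h2 : Tendsto (fun T : ℝ => 4 ^ n * (T ^ (2 * n) * Real.exp (-((‖ξ‖ - 1) * T)))) atTop
          (𝓝 0) := by
        have h3 := (tendsto_rpow_mul_exp_neg_mul_atTop_nhds_zero ((2 * n : ℕ) : ℝ) (‖ξ‖ - 1) hlt)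
        have h4 := h3.const_mul (4 ^ n : ℝ)
        rw [mul_zero] at h4
        refine h4.congr fun T => ?_
        rw [Real.rpow_natCast, neg_mul]
      refine squeeze_zero' (Eventually.of_forall fun T => by positivity) ?_ h2
      filter_upwards [eventually_ge_atTop 1] with T hT
      rw [← mul_assoc]
      gcongr
      rw [pow_mul, ← mul_pow]
      gcongr
      nlinarith
    have h5 := (h1.const_mul C).mul_const I0
    rw [mul_zero, zero_mul] at h5
    exact h5
  have hle : ‖∫ x, H G ξ η x 0‖ ≤ 0 := by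
    refine ge_of_tendsto hlim ?_
    filter_upwards [eventually_ge_atTop 0] with T hT
    exact hb T hT
  exact norm_le_zero_iff.1 hle

end Pool.Agent.K7.H38.LB
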