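import Pool.Agent.K7.H38.LB.PW

set_option autoImplicit false

open Filter Topology Metric Set MeasureTheory
open scoped ENNReal FourierTransform

namespace Pool.Agent.K7.H38.LB

variable {n : ℕ}

lemma G_int {G : (Fin n → ℂ) → ℂ} (hGd : Differentiable ℂ G) {C : ℝ} (hC : 0 ≤ C)
    (hG : Dec G C) : Integrable (fun x : E n => G (cx x)) := by
  refine Integrable.mono' ((W_int (n := n)).const_mul C)
    (hGd.continuous.comp cx_cont).aestronglyMeasurable ?_
  refine Eventually.of_forall fun x => ?_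
  have h := hG (cx x)
  have h0 : imn (cx x) = 0 := by
    unfold imn cx
    simp
  rw [h0, Real.exp_zero, mul_one] at h
  have h1 : ∏ i, (1 + ‖cx x i‖ ^ 2)⁻¹ = W x := by
    unfold W cx
    apply Finset.prod_congr rfl
    intro i _
    rw [Complex.norm_real, Real.norm_eq_abs, sq_abs]
  rw [h1] at h
  exact h

lemma fourier_zero {G : (Fin n → ℂ) → ℂ} (hGd : Differentiable ℂ G) {C : ℝ} (hC : 0 ≤ C)
    (hG : Dec G C) {ζ : E n} (hζ : 1 < ‖(2 * Real.pi) • ζ‖) :
    𝓕 (fun x : E n => G (cx x)) ζ = 0 := by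
  rw [Real.fourier_eq', ← pw hGd hC hG hζ]
  congr 1
  funext x
  rw [inner_smul_right, smul_eq_mul, mul_comm]
  congr 2
  push_cast
  ring

lemma fourier_cont {g : E n → ℂ} (hg : Integrable g) : Continuous (𝓕 g) := by
  have e : 𝓕 g = fun ζ => ∫ v, Complex.exp (((-2 * Real.pi * inner ℝ v ζ : ℝ) : ℂ) * Complex.I) • g v := by
    funext ζ
    rw [Real.fourier_eq']
  rw [e]
  apply continuous_of_dominated (bound := fun v => ‖g v‖)
  · intro ζ
    have hc : Continuous (fun v : E n =>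
        Complex.exp (((-2 * Real.pi * inner ℝ v ζ : ℝ) : ℂ) * Complex.I)) := by fun_prop
    exact hc.aestronglyMeasurable.smul hg.aestronglyMeasurable
  · intro ζ
    refine Eventually.of_forall fun v => ?_
    rw [norm_smul, Complex.norm_exp_ofReal_mul_I, one_mul]
  · exact hg.norm
  · refine Eventually.of_forall fun v => ?_
    have hc : Continuous (fun ζ : E n =>
        Complex.exp (((-2 * Real.pi * inner ℝ v ζ : ℝ) : ℂ) * Complex.I)) := by fun_prop
    exact hc.smul continuous_const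

lemma fourier_int {G : (Fin n → ℂ) → ℂ} (hGd : Differentiable ℂ G) {C : ℝ} (hC : 0 ≤ C)
    (hG : Dec G C) : Integrable (𝓕 (fun x : E n => G (cx x))) := by
  have hc := fourier_cont (G_int hGd hC hG)
  apply hc.integrable_of_hasCompactSupport
  apply HasCompactSupport.intro (isCompact_closedBall (0 : E n) (1 / (2 * Real.pi)))
  intro ζ hζ
  apply fourier_zero hGd hC hG
  have h1 : 1 / (2 * Real.pi) < ‖ζ‖ := by
    rw [mem_closedBall, dist_zero_right, not_le] at hζ
    exact hζ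
  have hpi := Real.pi_pos
  rw [norm_smul, Real.norm_eq_abs, abs_of_pos (by positivity)]
  rw [div_lt_iff₀ (by positivity)] at h1
  linarith

lemma swap {G : (Fin n → ℂ) → ℂ} (hGd : Differentiable ℂ G) {C : ℝ} (hC : 0 ≤ C)
    (hG : Dec G C) {μ : Measure (E n)} [IsFiniteMeasure μ] {h : E n → ℂ} (hi : Integrable h μ) :
    ∫ t, G (cx t) * h t ∂μ
      = ∫ ζ, 𝓕 (fun x : E n => G (cx x)) ζ *
        ∫ t, Complex.exp (-(Complex.I * ((inner ℝ t (-((2 * Real.pi) • ζ)) : ℝ) : ℂ))) * h t ∂μ := by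
  set g : E n → ℂ := fun x => G (cx x) with hg
  have hgi := G_int hGd hC hG
  have hgc : Continuous g := hGd.continuous.comp cx_cont
  have hfi := fourier_int hGd hC hG
  have hinv := hgc.fourierInv_fourier_eq hgi hfi
  have e1 : ∀ t, G (cx t) = ∫ ζ, Complex.exp (-(Complex.I
      * ((inner ℝ t (-((2 * Real.pi) • ζ)) : ℝ) : ℂ))) * 𝓕 g ζ := by
    intro t
    have h1 := congrFun hinv t
    rw [Real.fourierInv_eq'] at h1
    have h2 : G (cx t) = g t := rfl
    rw [h2, ← h1]
    congr 1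
    funext ζ
    rw [smul_eq_mul, inner_neg_right, inner_smul_right, real_inner_comm]
    congr 2
    push_cast
    ring
  have hprod : Integrable (Function.uncurry fun (t ζ : E n) => Complex.exp (-(Complex.I
      * ((inner ℝ t (-((2 * Real.pi) • ζ)) : ℝ) : ℂ))) * 𝓕 g ζ * h t) (μ.prod volume) := by
    have h1 := hi.mul_prod hfi
    refine h1.mono ?_ ?_
    · have h2 : Continuous (fun z : E n × E n => Complex.exp (-(Complex.I
        * ((inner ℝ z.1 (-((2 * Real.pi) • z.2)) : ℝ) : ℂ)))) := by fun_prop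
      have h3 := h2.aestronglyMeasurable (μ := μ.prod volume)
      have h4 := h3.mul h1.aestronglyMeasurable
      refine h4.congr (Eventually.of_forall fun z => ?_)
      simp only [Function.uncurry, Pi.mul_apply]
      ring
    · refine Eventually.of_forall fun z => le_of_eq ?_
      simp only [Function.uncurry]
      rw [norm_mul, norm_mul, norm_mul, Complex.norm_exp]
      have : (-(Complex.I * ((inner ℝ z.1 (-((2 * Real.pi) • z.2)) : ℝ) : ℂ))).re = 0 := by simp
      rw [this, Real.exp_zero, one_mul, mul_comm]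
  have h2 := integral_integral_swap hprod
  have e2 : ∫ t, G (cx t) * h t ∂μ = ∫ t, (∫ ζ, Complex.exp (-(Complex.I
      * ((inner ℝ t (-((2 * Real.pi) • ζ)) : ℝ) : ℂ))) * 𝓕 g ζ * h t) ∂μ := by
    congr 1
    funext t
    rw [e1 t, ← integral_mul_const]
  rw [e2, h2]
  congr 1
  funext ζ
  rw [← integral_const_mul]
  congr 1
  funext t
  ring

/-- measures with the same Fourier transform in the ball -/
theorem eq_dec {G : (Fin n → ℂ) → ℂ} (hGd : Differentiable ℂ G) {C : ℝ} (hC : 0 ≤ C)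
    (hG : Dec G C) {μ₁ μ₂ : Measure (E n)} [IsFiniteMeasure μ₁] [IsFiniteMeasure μ₂]
    {h₁ h₂ : E n → ℂ} (hi₁ : Integrable h₁ μ₁) (hi₂ : Integrable h₂ μ₂)
    (heq : ∀ ξ : E n, ‖ξ‖ ≤ 1 →
      ∫ t, Complex.exp (-(Complex.I * ((inner ℝ t ξ : ℝ) : ℂ))) * h₁ t ∂μ₁
        = ∫ t, Complex.exp (-(Complex.I * ((inner ℝ t ξ : ℝ) : ℂ))) * h₂ t ∂μ₂) :
    ∫ t, G (cx t) * h₁ t ∂μ₁ = ∫ t, G (cx t) * h₂ t ∂μ₂ := by
  rw [swap hGd hC hG hi₁, swap hGd hC hG hi₂]
  congr 1
  funext ζ
  by_cases hζ : 1 < ‖(2 * Real.pi) • ζ‖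
  · rw [fourier_zero hGd hC hG hζ, zero_mul, zero_mul]
  · rw [heq (-((2 * Real.pi) • ζ)) (by rw [norm_neg]; exact not_lt.1 hζ)]

end Pool.Agent.K7.H38.LB
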