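import Pool.Agent.K7.H38.LB.PW2

set_option autoImplicit false

open Filter Topology Metric Set MeasureTheory
open scoped ENNReal FourierTransform
open Pool.Agent.Helper797.Bs

namespace Pool.Agent.K7.H38.LB

variable {n : ℕ}

/-- growth -/
def Gro (F : (Fin n → ℂ) → ℂ) (C : ℝ) : Prop := ∀ z, ‖F z‖ ≤ C * Real.exp (imn z)

lemma snc_real_le (x : ℝ) : ‖snc (x : ℂ)‖ ≤ 1 := by
  rcases eq_or_ne x 0 with rfl | hx
  · rw [Complex.ofReal_zero, snc_zero]; simp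
  · have hc : (x : ℂ) ≠ 0 := by exact_mod_cast hx
    rw [snc_ne hc, ← Complex.ofReal_sin, ← Complex.ofReal_div, Complex.norm_real, Real.norm_eq_abs,
      abs_div]
    exact div_le_one_of_le₀ Real.abs_sin_le_abs (abs_nonneg _)

lemma snc_sq : ∃ K : ℝ, 0 ≤ K ∧ ∀ w : ℂ, (1 + ‖w‖ ^ 2) * ‖snc w‖ ^ 2 ≤ K * Real.exp (2 * |w.im|) := by
  obtain ⟨K, hK, hb⟩ := snc_bound
  refine ⟨K ^ 2 + 1, by positivity, fun w => ?_⟩
  have h1 := hb w
  have h2 : ‖w‖ * ‖snc w‖ ≤ Real.exp |w.im| := by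
    rcases eq_or_ne w 0 with rfl | hw
    · rw [norm_zero, zero_mul]; positivity
    · rw [← norm_mul, snc_ne hw, mul_div_cancel₀ _ hw]
      exact norm_sin_le _
  have e : Real.exp (2 * |w.im|) = Real.exp |w.im| ^ 2 := by
    rw [← Real.exp_nat_mul]; norm_num
  rw [e]
  have h3 : ‖snc w‖ ^ 2 ≤ (K * Real.exp |w.im|) ^ 2 := by gcongr
  have h4 : (‖w‖ * ‖snc w‖) ^ 2 ≤ Real.exp |w.im| ^ 2 := by gcongr
  calc (1 + ‖w‖ ^ 2) * ‖snc w‖ ^ 2 = ‖snc w‖ ^ 2 + (‖w‖ * ‖snc w‖) ^ 2 := by ring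
    _ ≤ (K * Real.exp |w.im|) ^ 2 + Real.exp |w.im| ^ 2 := by linarith
    _ = _ := by ring

/-- the convergence factors -/
noncomputable def fac (c : ℝ) (z : Fin n → ℂ) : ℂ := ∏ i, (snc ((c : ℂ) * z i)) ^ 2

lemma im_le_imn (z : Fin n → ℂ) (i : Fin n) : |(z i).im| ≤ imn z := by
  unfold imn
  apply Real.abs_le_sqrt
  exact Finset.single_le_sum (f := fun i => (z i).im ^ 2) (fun i _ => sq_nonneg _) (Finset.mem_univ i)

lemma fac_bound {c : ℝ} (hc : 0 < c) (hc1 : c ≤ 1) : ∃ K : ℝ, 0 ≤ K ∧ ∀ z : Fin n → ℂ,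
    ‖fac c z‖ ≤ K * Real.exp (2 * c * n * imn z) * ∏ i, (1 + ‖z i‖ ^ 2)⁻¹ := by
  obtain ⟨K, hK, hb⟩ := snc_sq
  refine ⟨(K / c ^ 2) ^ n, by positivity, fun z => ?_⟩
  have h1 : ∀ i : Fin n, ‖(snc ((c : ℂ) * z i)) ^ 2‖
      ≤ (K / c ^ 2) * Real.exp (2 * c * imn z) * (1 + ‖z i‖ ^ 2)⁻¹ := by
    intro i
    have h2 := hb ((c : ℂ) * z i)
    rw [norm_mul, Complex.norm_real, Real.norm_eq_abs, abs_of_pos hc, Complex.im_ofReal_mul, abs_mul,
      abs_of_pos hc] at h2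
    have h3 := im_le_imn z i
    rw [norm_pow, ← div_eq_mul_inv, le_div_iff₀ (by positivity), div_mul_eq_mul_div,
      le_div_iff₀ (by positivity)]
    have h4 : c ^ 2 * (1 + ‖z i‖ ^ 2) ≤ 1 + (c * ‖z i‖) ^ 2 := by
      have : c ^ 2 ≤ 1 := by nlinarith
      nlinarith
    have h5 : Real.exp (2 * (c * |(z i).im|)) ≤ Real.exp (2 * c * imn z) := by
      apply Real.exp_le_exp.2
      nlinarith
    set s := ‖snc ((c : ℂ) * z i)‖ ^ 2
    have hs : 0 ≤ s := by positivity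
    calc s * (1 + ‖z i‖ ^ 2) * c ^ 2 = (c ^ 2 * (1 + ‖z i‖ ^ 2)) * s := by ring
      _ ≤ (1 + (c * ‖z i‖) ^ 2) * s := by gcongr
      _ ≤ K * Real.exp (2 * (c * |(z i).im|)) := h2
      _ ≤ K * Real.exp (2 * c * imn z) := by gcongr
  unfold fac
  rw [norm_prod]
  calc ∏ i, ‖(snc ((c : ℂ) * z i)) ^ 2‖
      ≤ ∏ i, ((K / c ^ 2) * Real.exp (2 * c * imn z) * (1 + ‖z i‖ ^ 2)⁻¹) :=
        Finset.prod_le_prod (fun i _ => norm_nonneg _) (fun i _ => h1 i)
    _ = _ := by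
        rw [Finset.prod_mul_distrib, Finset.prod_const, Finset.card_univ, Fintype.card_fin, mul_pow,
          ← Real.exp_nat_mul]
        congr 3
        ring

lemma imn_smul {r : ℝ} (hr : 0 ≤ r) (z : Fin n → ℂ) : imn ((r : ℂ) • z) = r * imn z := by
  unfold imn
  have e : ∀ i, (((r : ℂ) • z) i).im ^ 2 = r ^ 2 * (z i).im ^ 2 := by
    intro i
    rw [Pi.smul_apply, smul_eq_mul, Complex.im_ofReal_mul]
    ring
  simp_rw [e]
  rw [← Finset.mul_sum, Real.sqrt_mul (sq_nonneg r), Real.sqrt_sq hr]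

/-- the approximating functions -/
noncomputable def Gd (F : (Fin n → ℂ) → ℂ) (d : ℝ) (z : Fin n → ℂ) : ℂ :=
  F (((1 - d : ℝ) : ℂ) • z) * fac (d / (2 * n)) z

lemma diff_prod {f : Fin n → (Fin n → ℂ) → ℂ} (s : Finset (Fin n))
    (h : ∀ i, Differentiable ℂ (f i)) : Differentiable ℂ (fun z => ∏ i ∈ s, f i z) := by
  classical
  induction s using Finset.induction_on with
  | empty => simp
  | insert a s ha ih =>
    simp_rw [Finset.prod_insert ha]
    exact (h a).mul ih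

lemma fac_diff (c : ℝ) : Differentiable ℂ (fac c : (Fin n → ℂ) → ℂ) := by
  unfold fac
  have h1 : ∀ i : Fin n, Differentiable ℂ (fun z : Fin n → ℂ => (snc ((c : ℂ) * z i)) ^ 2) := by
    intro i
    have h2 : Differentiable ℂ (fun z : Fin n → ℂ => (c : ℂ) * z i) := by fun_prop
    exact (snc_diff.comp h2).pow 2
  exact diff_prod (s := Finset.univ) (f := fun (i : Fin n) (z : Fin n → ℂ) => (snc ((c : ℂ) * z i)) ^ 2) h1

lemma Gd_diff {F : (Fin n → ℂ) → ℂ} (hF : Differentiable ℂ F) (d : ℝ) : Differentiable ℂ (Gd F d) := by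
  unfold Gd
  have h1 : Differentiable ℂ (fun z : Fin n → ℂ => ((1 - d : ℝ) : ℂ) • z) := by fun_prop
  exact (hF.comp h1).mul (fac_diff _)

lemma imn_nonneg (z : Fin n → ℂ) : 0 ≤ imn z := Real.sqrt_nonneg _

lemma Gd_dec (hn : 1 ≤ n) {F : (Fin n → ℂ) → ℂ} {C : ℝ} (hC : 0 ≤ C) (hF : Gro F C) {d : ℝ}
    (hd : 0 < d) (hd1 : d ≤ 1) : ∃ C' : ℝ, 0 ≤ C' ∧ Dec (Gd F d) C' := by
  have hn0 : (1 : ℝ) ≤ n := by exact_mod_cast hn
  have hc : 0 < d / (2 * n) := by positivity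
  have hc1 : d / (2 * n) ≤ 1 := by
    rw [div_le_one (by positivity)]; linarith
  obtain ⟨K, hK, hb⟩ := fac_bound (n := n) hc hc1
  refine ⟨C * K, by positivity, fun z => ?_⟩
  unfold Gd
  rw [norm_mul]
  have h1 := hF (((1 - d : ℝ) : ℂ) • z)
  rw [imn_smul (by linarith)] at h1
  have h2 := hb z
  have e : 2 * (d / (2 * n)) * n * imn z = d * imn z := by field_simp
  rw [e] at h2
  have hprod : 0 ≤ ∏ i, (1 + ‖z i‖ ^ 2)⁻¹ := Finset.prod_nonneg fun i _ => by positivity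
  calc ‖F (((1 - d : ℝ) : ℂ) • z)‖ * ‖fac (d / (2 * n)) z‖
      ≤ (C * Real.exp ((1 - d) * imn z)) * (K * Real.exp (d * imn z) * ∏ i, (1 + ‖z i‖ ^ 2)⁻¹) := by
        gcongr
    _ = C * K * (Real.exp ((1 - d) * imn z) * Real.exp (d * imn z)) * ∏ i, (1 + ‖z i‖ ^ 2)⁻¹ := by
        ring
    _ = _ := by
        rw [← Real.exp_add]
        congr 3
        ring

lemma imn_cx (t : E n) : imn (cx t) = 0 := by unfold imn cx; simp

lemma cx_smul (r : ℝ) (t : E n) : (r : ℂ) • cx t = cx (r • t) := by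
  funext i
  simp [cx]

lemma Gd_real_le {F : (Fin n → ℂ) → ℂ} {C : ℝ} (hC : 0 ≤ C) (hF : Gro F C) (d : ℝ) (t : E n) :
    ‖Gd F d (cx t)‖ ≤ C := by
  unfold Gd
  rw [norm_mul, cx_smul]
  have h1 := hF (cx ((1 - d) • t))
  rw [imn_cx, Real.exp_zero, mul_one] at h1
  have h2 : ‖fac (d / (2 * n)) (cx t)‖ ≤ 1 := by
    unfold fac
    rw [norm_prod]
    apply Finset.prod_le_one (fun i _ => norm_nonneg _)
    intro i _
    rw [norm_pow]
    apply pow_le_one₀ (norm_nonneg _)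
    unfold cx
    rw [← Complex.ofReal_mul]
    exact snc_real_le _
  calc _ ≤ C * 1 := by gcongr
    _ = C := mul_one C

lemma Gd_tendsto {F : (Fin n → ℂ) → ℂ} (hF : Differentiable ℂ F) (z : Fin n → ℂ) :
    Tendsto (fun j : ℕ => Gd F (1 / ((j : ℝ) + 1)) z) atTop (𝓝 (F z)) := by
  have h0 : Tendsto (fun j : ℕ => 1 / ((j : ℝ) + 1)) atTop (𝓝 0) := tendsto_one_div_add_atTop_nhds_zero_nat
  have hc : Continuous (fun d : ℝ => Gd F d z) := by
    unfold Gd fac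
    have h1 := hF.continuous
    have h2 := snc_diff.continuous
    apply Continuous.mul
    · apply h1.comp
      fun_prop
    · apply continuous_finsetProd
      intro i _
      apply Continuous.pow
      apply h2.comp
      apply Continuous.mul _ continuous_const
      exact Complex.continuous_ofReal.comp (by fun_prop)
  have h1 := (hc.tendsto 0).comp h0
  have e : Gd F 0 z = F z := by
    unfold Gd fac
    simp [snc_zero]
  rw [e] at h1
  exact h1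

/-- two measures with the same Fourier transform in the ball give the same integrals on `B(K₂)` -/
theorem eq_gro (hn : 1 ≤ n) {F : (Fin n → ℂ) → ℂ} (hFd : Differentiable ℂ F) {C : ℝ} (hC : 0 ≤ C)
    (hF : Gro F C) {μ₁ μ₂ : Measure (E n)} [IsFiniteMeasure μ₁] [IsFiniteMeasure μ₂]
    {h₁ h₂ : E n → ℂ} (hi₁ : Integrable h₁ μ₁) (hi₂ : Integrable h₂ μ₂)
    (heq : ∀ ξ : E n, ‖ξ‖ ≤ 1 →
      ∫ t, Complex.exp (-(Complex.I * ((inner ℝ t ξ : ℝ) : ℂ))) * h₁ t ∂μ₁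
        = ∫ t, Complex.exp (-(Complex.I * ((inner ℝ t ξ : ℝ) : ℂ))) * h₂ t ∂μ₂) :
    ∫ t, F (cx t) * h₁ t ∂μ₁ = ∫ t, F (cx t) * h₂ t ∂μ₂ := by
  have lim : ∀ (μ : Measure (E n)) [IsFiniteMeasure μ] (h : E n → ℂ), Integrable h μ →
      Tendsto (fun j : ℕ => ∫ t, Gd F (1 / ((j : ℝ) + 1)) (cx t) * h t ∂μ) atTop
        (𝓝 (∫ t, F (cx t) * h t ∂μ)) := by
    intro μ _ h hi
    apply tendsto_integral_of_dominated_convergence (fun t => C * ‖h t‖)
    · intro j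
      exact ((Gd_diff hFd _).continuous.comp cx_cont).aestronglyMeasurable.mul
        hi.aestronglyMeasurable
    · exact hi.norm.const_mul C
    · intro j
      refine Eventually.of_forall fun t => ?_
      rw [norm_mul]
      have := Gd_real_le hC hF (1 / ((j : ℝ) + 1)) t
      gcongr
    · exact Eventually.of_forall fun t => (Gd_tendsto hFd (cx t)).mul_const _
  have l1 := lim μ₁ h₁ hi₁
  have l2 := lim μ₂ h₂ hi₂
  refine tendsto_nhds_unique l1 (l2.congr fun j => ?_)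
  have hd : 0 < 1 / ((j : ℝ) + 1) := by positivity
  have hd1 : 1 / ((j : ℝ) + 1) ≤ 1 := by
    rw [div_le_one (by positivity)]
    have : (0 : ℝ) ≤ j := Nat.cast_nonneg j
    linarith
  obtain ⟨C', hC', hdec⟩ := Gd_dec hn hC hF hd hd1
  exact (eq_dec (Gd_diff hFd _) hC' hdec hi₁ hi₂ heq).symm

end Pool.Agent.K7.H38.LB
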