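import Pool.Agent.K7.H38.LB.Fin
import Pool.Agent.K7.H38.LB.CM

set_option autoImplicit false

open Filter Topology Metric Set MeasureTheory
open scoped ENNReal

namespace Pool.Agent.K7.H38.LB

variable {n : ℕ}

/-- the unit sphere -/
abbrev Sph (n : ℕ) : Type := sphere (0 : E n) 1

/-- `s ↦ k π s` -/
noncomputable def dil (k : ℕ) (s : Sph n) : E n := ((k : ℝ) * Real.pi) • (s : E n)

lemma dil_cont (k : ℕ) : Continuous (dil k : Sph n → E n) := by unfold dil; fun_prop

lemma dil_meas (k : ℕ) : Measurable (dil k : Sph n → E n) := (dil_cont k).measurable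

lemma sph_norm (s : Sph n) : ‖(s : E n)‖ = 1 := by
  have := s.2
  rwa [mem_sphere_zero_iff_norm] at this

lemma dil_norm (k : ℕ) (s : Sph n) : ‖dil k s‖ = k * Real.pi := by
  unfold dil
  rw [norm_smul, sph_norm, mul_one, Real.norm_eq_abs, abs_of_nonneg (by positivity)]

lemma dil_mem (k : ℕ) (s : Sph n) : dil k s ∈ S n k := dil_norm k s

lemma kpos {k : ℕ} (hk : 1 ≤ k) : 0 < (k : ℝ) * Real.pi := by
  have : (0 : ℝ) < k := by exact_mod_cast hk
  have := Real.pi_pos
  positivity

lemma dil_inj {k : ℕ} (hk : 1 ≤ k) : Function.Injective (dil k : Sph n → E n) := by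
  intro s t h
  have h1 := smul_right_injective (E n) (kpos hk).ne' h
  exact Subtype.ext h1

lemma dil_emb {k : ℕ} (hk : 1 ≤ k) : MeasurableEmbedding (dil k : Sph n → E n) :=
  ((dil_cont k).isClosedEmbedding (dil_inj hk)).measurableEmbedding

lemma dil_range {k : ℕ} (hk : 1 ≤ k) : range (dil k : Sph n → E n) = S n k := by
  ext t
  constructor
  · rintro ⟨s, rfl⟩
    exact dil_mem k s
  · intro ht
    have ht' : ‖t‖ = k * Real.pi := ht
    have hk0 := kpos hk
    refine ⟨⟨((k : ℝ) * Real.pi)⁻¹ • t, ?_⟩, ?_⟩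
    · rw [mem_sphere_zero_iff_norm, norm_smul, ht', norm_inv, Real.norm_eq_abs, abs_of_pos hk0,
        inv_mul_cancel₀ hk0.ne']
    · unfold dil
      rw [smul_smul, mul_inv_cancel₀ hk0.ne', one_smul]

/-- the positive measure with given angular parts -/
noncomputable def muS (σ : ℕ → ProbabilityMeasure (Sph n)) : Measure (E n) :=
  ENNReal.ofReal (n / 3) • Measure.dirac 0 +
    Measure.sum (fun k : ℕ => ENNReal.ofReal (M n (k + 1)) •
      ((σ k : Measure (Sph n)).map (dil (k + 1))))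

lemma M_nonneg (k : ℕ) : 0 ≤ M n k := by unfold M; positivity

lemma M_summable : Summable (fun k : ℕ => M n (k + 1)) := by
  have h := (c_summable).mul_left (2 * (n : ℝ))
  refine h.congr fun k => ?_
  rw [M_c]

instance (σ : ℕ → ProbabilityMeasure (Sph n)) (k : ℕ) :
    IsProbabilityMeasure ((σ k : Measure (Sph n)).map (dil (k + 1))) :=
  Measure.isProbabilityMeasure_map (dil_meas _).aemeasurable

instance (σ : ℕ → ProbabilityMeasure (Sph n)) : IsFiniteMeasure (muS σ) := ⟨by
  unfold muS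
  rw [Measure.add_apply, Measure.smul_apply, Measure.sum_apply _ MeasurableSet.univ]
  simp only [Measure.smul_apply, measure_univ, smul_eq_mul, mul_one]
  apply ENNReal.add_lt_top.2
  constructor
  · exact ENNReal.ofReal_lt_top
  · exact M_summable.tsum_ofReal_lt_top⟩

lemma muS_int {G : Type*} [NormedAddCommGroup G] [NormedSpace ℝ G] [CompleteSpace G]
    (σ : ℕ → ProbabilityMeasure (Sph n)) {F : E n → G}
    (hF : StronglyMeasurable F) {C : ℝ} (hb : ∀ t, ‖F t‖ ≤ C) :
    HasSum (fun k : ℕ => M n (k + 1) • ∫ s, F (dil (k + 1) s) ∂(σ k : Measure (Sph n)))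
      (∫ t, F t ∂(muS σ) - ((n : ℝ) / 3) • F 0) := by
  have hint : ∀ μ : Measure (E n), IsFiniteMeasure μ → Integrable F μ := fun μ _ =>
    Integrable.of_bound hF.aestronglyMeasurable C (Eventually.of_forall hb)
  have hs : IsFiniteMeasure (Measure.sum (fun k : ℕ => ENNReal.ofReal (M n (k + 1)) •
      ((σ k : Measure (Sph n)).map (dil (k + 1))))) := by
    have h0 : IsFiniteMeasure (muS σ) := inferInstance
    constructor
    refine lt_of_le_of_lt ?_ h0.measure_univ_lt_top
    unfold muS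
    rw [Measure.add_apply]
    exact le_add_self
  have h1 := hasSum_integral_measure (hint _ hs)
  have e1 : ∀ k : ℕ, ∫ t, F t ∂(ENNReal.ofReal (M n (k + 1)) •
      ((σ k : Measure (Sph n)).map (dil (k + 1))))
      = M n (k + 1) • ∫ s, F (dil (k + 1) s) ∂(σ k : Measure (Sph n)) := by
    intro k
    rw [integral_smul_measure, integral_map (dil_meas _).aemeasurable hF.aestronglyMeasurable,
      ENNReal.toReal_ofReal (M_nonneg _)]
  simp_rw [e1] at h1
  have e2 : ∫ t, F t ∂(muS σ) - ((n : ℝ) / 3) • F 0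
      = ∫ t, F t ∂(Measure.sum (fun k : ℕ => ENNReal.ofReal (M n (k + 1)) •
        ((σ k : Measure (Sph n)).map (dil (k + 1))))) := by
    unfold muS
    have hd : IsFiniteMeasure (ENNReal.ofReal ((n : ℝ) / 3) • (Measure.dirac 0 : Measure (E n))) := by
      constructor
      rw [Measure.smul_apply, Measure.dirac_apply_of_mem (mem_univ _), smul_eq_mul, mul_one]
      exact ENNReal.ofReal_lt_top
    rw [integral_add_measure (hint _ hd) (hint _ hs), integral_smul_measure, integral_dirac' _ _ hF,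
      ENNReal.toReal_ofReal (by positivity), add_sub_cancel_left]
  rw [e2]
  exact h1

lemma zero_notMem_S {j : ℕ} (hj : 1 ≤ j) : (0 : E n) ∉ S n j := by
  intro h
  have h2 : ‖(0 : E n)‖ = j * Real.pi := h
  rw [norm_zero] at h2
  have := kpos hj
  linarith

lemma dil_notMem {j k : ℕ} (hjk : k ≠ j) (s : Sph n) : dil k s ∉ S n j := by
  intro h
  have h1 : ‖dil k s‖ = j * Real.pi := h
  rw [dil_norm] at h1
  apply hjk
  exact_mod_cast mul_right_cancel₀ Real.pi_ne_zero h1

lemma muS_sphere {G : Type*} [NormedAddCommGroup G] [NormedSpace ℝ G] [CompleteSpace G]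
    (σ : ℕ → ProbabilityMeasure (Sph n))
    {f : E n → G} (hf : StronglyMeasurable f) {C : ℝ} (j : ℕ) (hC : 0 ≤ C)
    (hb : ∀ t ∈ S n (j + 1), ‖f t‖ ≤ C) :
    ∫ t in S n (j + 1), f t ∂(muS σ)
      = M n (j + 1) • ∫ s, f (dil (j + 1) s) ∂(σ j : Measure (Sph n)) := by
  have hF : StronglyMeasurable ((S n (j + 1)).indicator f) := hf.indicator (S_meas _)
  have hFb : ∀ t, ‖(S n (j + 1)).indicator f t‖ ≤ C := by
    intro t
    by_cases ht : t ∈ S n (j + 1)
    · rw [indicator_of_mem ht]; exact hb t ht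
    · rw [indicator_of_notMem ht, norm_zero]; exact hC
  have h1 := muS_int σ hF hFb
  rw [indicator_of_notMem (zero_notMem_S (by omega)), smul_zero, sub_zero,
    integral_indicator (S_meas _)] at h1
  have h2 : HasSum (fun k : ℕ => M n (k + 1) •
      ∫ s, (S n (j + 1)).indicator f (dil (k + 1) s) ∂(σ k : Measure (Sph n)))
      (M n (j + 1) • ∫ s, (S n (j + 1)).indicator f (dil (j + 1) s) ∂(σ j : Measure (Sph n))) := by
    apply hasSum_single j
    intro k hk
    have e : ∀ s : Sph n, (S n (j + 1)).indicator f (dil (k + 1) s) = 0 := fun s =>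
      indicator_of_notMem (dil_notMem (by omega) s) _
    simp_rw [e]
    rw [integral_zero, smul_zero]
  have h3 := h1.unique h2
  rw [h3]
  congr 1
  apply integral_congr_ae
  refine Eventually.of_forall fun s => ?_
  exact indicator_of_mem (dil_mem (j + 1) s) _

lemma muS_mass (σ : ℕ → ProbabilityMeasure (Sph n)) (j : ℕ) :
    muS σ (S n (j + 1)) = ENNReal.ofReal (M n (j + 1)) := by
  have h1 := muS_sphere (n := n) σ (f := fun _ => (1 : ℝ)) stronglyMeasurable_const (C := 1) j
    zero_le_one (fun _ _ => by simp)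
  rw [setIntegral_const, smul_eq_mul, mul_one, integral_const, probReal_univ,
    smul_eq_mul, smul_eq_mul, mul_one, mul_one] at h1
  rw [← h1, measureReal_def, ENNReal.ofReal_toReal (measure_ne_top _ _)]

lemma muS_zero (σ : ℕ → ProbabilityMeasure (Sph n)) : muS σ {0} = ENNReal.ofReal (n / 3) := by
  have hF : StronglyMeasurable (({0} : Set (E n)).indicator fun _ => (1 : ℝ)) :=
    stronglyMeasurable_const.indicator (measurableSet_singleton 0)
  have h1 := muS_int σ hF (C := 1) (fun t => by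
    by_cases ht : t ∈ ({0} : Set (E n))
    · rw [indicator_of_mem ht]; simp
    · rw [indicator_of_notMem ht]; simp)
  have h2 : (fun k : ℕ => M n (k + 1) •
      ∫ s, ({0} : Set (E n)).indicator (fun _ => (1 : ℝ)) (dil (k + 1) s)
        ∂(σ k : Measure (Sph n))) = fun _ => (0 : ℝ) := by
    funext k
    have e : ∀ s : Sph n, ({0} : Set (E n)).indicator (fun _ => (1 : ℝ)) (dil (k + 1) s) = 0 := by
      intro s
      have h3 := dil_notMem (j := 0) (k := k + 1) (by omega) s
      rw [S_zero] at h3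
      exact indicator_of_notMem h3 _
    simp_rw [e]
    rw [integral_zero, smul_zero]
  rw [h2] at h1
  have h3 := h1.unique hasSum_zero
  rw [integral_indicator (measurableSet_singleton 0), indicator_of_mem (mem_singleton _),
    setIntegral_const, smul_eq_mul, smul_eq_mul, mul_one, mul_one] at h3
  have h4 : (muS σ).real {0} = n / 3 := by linarith
  rw [← h4, measureReal_def, ENNReal.ofReal_toReal (measure_ne_top _ _)]

lemma conc_meas : MeasurableSet {t : E n | ∃ k : ℕ, ‖t‖ = k * Real.pi} := by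
  have : {t : E n | ∃ k : ℕ, ‖t‖ = k * Real.pi} = ⋃ k : ℕ, S n k := by
    ext t; simp [S]
  rw [this]
  exact MeasurableSet.iUnion fun k => S_meas k

lemma muS_conc (σ : ℕ → ProbabilityMeasure (Sph n)) :
    ∀ᵐ t ∂(muS σ), ∃ k : ℕ, ‖t‖ = k * Real.pi := by
  unfold muS
  rw [ae_add_measure_iff]
  constructor
  · apply Measure.ae_smul_measure
    rw [ae_dirac_iff conc_meas]
    exact ⟨0, by simp⟩
  · rw [Measure.ae_sum_iff' conc_meas]
    intro k
    apply Measure.ae_smul_measure
    rw [ae_map_iff (dil_meas _).aemeasurable conc_meas]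
    exact Eventually.of_forall fun s => ⟨k + 1, dil_norm _ s⟩

lemma muS_D (hn : 1 ≤ n) (σ : ℕ → ProbabilityMeasure (Sph n)) (k m : ℕ) (ω : E n) :
    D (muS σ) (k + 1) m ω = ∫ s, (inner ℝ (s : E n) ω) ^ m ∂(σ k : Measure (Sph n)) := by
  unfold D
  rw [setAverage_eq]
  have hm : (muS σ).real (S n (k + 1)) = M n (k + 1) := by
    rw [measureReal_def, muS_mass, ENNReal.toReal_ofReal (M_nonneg _)]
  have hk0 := kpos (k := k + 1) (by omega)
  have h1 := muS_sphere σ (f := fun t : E n => (inner ℝ t ω / (((k + 1 : ℕ) : ℝ) * Real.pi)) ^ m)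
    (by
      have h1 : Measurable (fun t : E n => inner ℝ t ω) := by fun_prop
      have h2 : Measurable (fun t : E n => (inner ℝ t ω / (((k + 1 : ℕ) : ℝ) * Real.pi)) ^ m) := by
        fun_prop
      exact h2.stronglyMeasurable)
    (C := ‖ω‖ ^ m) k (by positivity) (by
      intro t ht
      rw [norm_pow]
      gcongr
      rw [norm_div, Real.norm_eq_abs, Real.norm_eq_abs, abs_of_pos hk0, div_le_iff₀ hk0]
      have := abs_real_inner_le_norm t ω
      rw [on_S ht] at this
      linarith)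
  rw [h1, hm]
  have e : ∀ s : Sph n, (inner ℝ (dil (k + 1) s) ω / (((k + 1 : ℕ) : ℝ) * Real.pi)) ^ m
      = (inner ℝ (s : E n) ω) ^ m := by
    intro s
    unfold dil
    rw [real_inner_smul_left, mul_div_assoc, mul_div_cancel₀ _ hk0.ne']
  simp_rw [e]
  rw [smul_smul, inv_mul_cancel₀ (M_pos hn (by omega)).ne', one_smul]

/-- admissible sequences of angular parts -/
structure Admissible (σ : ℕ → ProbabilityMeasure (Sph n)) : Prop where
  mom_one : ∀ (ω : E n) (k : ℕ), ∫ s, inner ℝ (s : E n) ω ∂(σ k : Measure (Sph n)) = 0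
  mom_two : ∀ (ω : E n) (k : ℕ),
    ∫ s, (inner ℝ (s : E n) ω) ^ 2 ∂(σ k : Measure (Sph n)) = ‖ω‖ ^ 2 / n
  mom_three : ∀ (ω : E n) (k : ℕ), ∫ s, (inner ℝ (s : E n) ω) ^ 3 ∂(σ k : Measure (Sph n)) = 0
  mom : ∀ (ω : E n) (m : ℕ), 4 ≤ m → ∃ q : Polynomial ℝ, Adm m q ∧
    ∀ k : ℕ, ∫ s, (inner ℝ (s : E n) ω) ^ m ∂(σ k : Measure (Sph n))
      = q.eval (1 / ((k + 1 : ℕ) : ℝ))

theorem str_iff (hn : 1 ≤ n) (σ : ℕ → ProbabilityMeasure (Sph n)) :
    Str (muS σ) ↔ Admissible σ := by
  constructor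
  · intro h
    refine ⟨fun ω k => ?_, fun ω k => ?_, fun ω k => ?_, fun ω m hm => ?_⟩
    · have := muS_D hn σ k 1 ω
      simp only [pow_one] at this
      rw [← this, h.mom_one ω (k + 1) (by omega)]
    · rw [← muS_D hn, h.mom_two ω (k + 1) (by omega)]
    · rw [← muS_D hn, h.mom_three ω (k + 1) (by omega)]
    · obtain ⟨q, hq, hqe⟩ := h.mom ω m hm
      exact ⟨q, hq, fun k => by rw [← muS_D hn, hqe (k + 1) (by omega)]⟩
  · intro h
    refine ⟨muS_conc σ, muS_zero σ, fun k hk => ?_, fun ω k hk => ?_, fun ω k hk => ?_,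
      fun ω k hk => ?_, fun ω m hm => ?_⟩
    · obtain ⟨j, rfl⟩ : ∃ j, k = j + 1 := ⟨k - 1, by omega⟩
      exact muS_mass σ j
    · obtain ⟨j, rfl⟩ : ∃ j, k = j + 1 := ⟨k - 1, by omega⟩
      rw [muS_D hn]
      simp only [pow_one]
      exact h.mom_one ω j
    · obtain ⟨j, rfl⟩ : ∃ j, k = j + 1 := ⟨k - 1, by omega⟩
      rw [muS_D hn, h.mom_two]
    · obtain ⟨j, rfl⟩ : ∃ j, k = j + 1 := ⟨k - 1, by omega⟩
      rw [muS_D hn, h.mom_three]
    · obtain ⟨q, hq, hqe⟩ := h.mom ω m hm
      refine ⟨q, hq, fun k hk => ?_⟩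
      obtain ⟨j, rfl⟩ : ∃ j, k = j + 1 := ⟨k - 1, by omega⟩
      rw [muS_D hn, hqe]

/-- every measure with the structure comes from a sequence of angular parts -/
theorem exists_sigma {μ : Measure (E n)} (hn : 1 ≤ n) (h : Str μ) :
    ∃ σ : ℕ → ProbabilityMeasure (Sph n), μ = muS σ := by
  have hM : ∀ k : ℕ, ENNReal.ofReal (M n (k + 1)) ≠ 0 := fun k => by
    rw [ne_eq, ENNReal.ofReal_eq_zero, not_le]
    exact M_pos hn (by omega)
  have hmass : ∀ k : ℕ, μ (S n (k + 1)) = ENNReal.ofReal (M n (k + 1)) := fun k =>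
    h.mass (k + 1) (by omega)
  have hp : ∀ k : ℕ, IsProbabilityMeasure
      ((ENNReal.ofReal (M n (k + 1)))⁻¹ • μ.comap (dil (k + 1) : Sph n → E n)) := by
    intro k
    constructor
    rw [Measure.smul_apply, (dil_emb (by omega)).comap_apply, image_univ, dil_range (by omega),
      hmass, smul_eq_mul, ENNReal.inv_mul_cancel (hM k) ENNReal.ofReal_ne_top]
  obtain ⟨σ, hσ⟩ : ∃ σ : ℕ → ProbabilityMeasure (Sph n), ∀ k, (σ k : Measure (Sph n))
      = (ENNReal.ofReal (M n (k + 1)))⁻¹ • μ.comap (dil (k + 1) : Sph n → E n) :=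
    ⟨fun k => ⟨_, hp k⟩, fun k => rfl⟩
  refine ⟨σ, ?_⟩
  unfold muS
  have e1 : ∀ k : ℕ, ENNReal.ofReal (M n (k + 1)) • ((σ k : Measure (Sph n)).map (dil (k + 1)))
      = μ.restrict (S n (k + 1)) := by
    intro k
    rw [hσ, Measure.map_smul, smul_smul, ENNReal.mul_inv_cancel (hM k) ENNReal.ofReal_ne_top,
      one_smul, (dil_emb (by omega)).map_comap, dil_range (by omega)]
  simp_rw [e1]
  rw [← h.mass_zero, ← Measure.restrict_singleton]
  have h2 : μ.restrict (⋃ k, S n k) = μ := by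
    apply Measure.restrict_eq_self_of_ae_mem
    filter_upwards [h.conc] with t ht
    obtain ⟨k, hk⟩ := ht
    exact mem_iUnion.2 ⟨k, hk⟩
  have h3 : (⋃ k, S n k) = {0} ∪ ⋃ k, S n (k + 1) := by
    rw [← S_zero]
    ext t
    simp only [mem_iUnion, mem_union]
    constructor
    · rintro ⟨k, hk⟩
      rcases k with _ | k
      · exact Or.inl hk
      · exact Or.inr ⟨k, hk⟩
    · rintro (h | ⟨k, hk⟩)
      · exact ⟨0, h⟩
      · exact ⟨k + 1, hk⟩
  have h4 : Disjoint ({0} : Set (E n)) (⋃ k, S n (k + 1)) := by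
    rw [disjoint_singleton_left, mem_iUnion]
    rintro ⟨k, hk⟩
    exact zero_notMem_S (by omega) hk
  have h5 : Pairwise (Function.onFun Disjoint (fun k => S n (k + 1))) := by
    intro j k hjk
    exact S_disj (by omega : j + 1 ≠ k + 1)
  rw [← Measure.restrict_iUnion h5 (fun k => S_meas _),
    ← Measure.restrict_union h4 (MeasurableSet.iUnion fun k => S_meas _), ← h3, h2]

end Pool.Agent.K7.H38.LB
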