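import Pool.Agent.K7.H38.LB.Suff2

set_option autoImplicit false

open Filter Topology Metric Set MeasureTheory
open scoped ENNReal

namespace Pool.Agent.K7.H38.LB

variable {n : ℕ}

/-- the points `k π e_i` -/
noncomputable def pt (k : ℝ) (i : Fin n) : E n := EuclideanSpace.single i (k * Real.pi)

lemma pt_norm {k : ℝ} (i : Fin n) : ‖(pt k i : E n)‖ = |k| * Real.pi := by
  unfold pt
  rw [EuclideanSpace.norm_single, Real.norm_eq_abs, abs_mul, abs_of_pos Real.pi_pos]

lemma pt_inner (k : ℝ) (i : Fin n) (ω : E n) : inner ℝ (pt k i) ω = k * Real.pi * ω i := by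
  unfold pt
  rw [EuclideanSpace.inner_single_left]
  simp

/-- `c_k = 2 / (π² k²)` -/
noncomputable def c (k : ℕ) : ℝ := 2 / (Real.pi ^ 2 * k ^ 2)

lemma c_nonneg (k : ℕ) : 0 ≤ c k := by unfold c; positivity

/-- points on one sphere -/
noncomputable def nu (n k : ℕ) : Measure (E n) :=
  ∑ i : Fin n, (Measure.dirac (pt (k : ℝ) i) + Measure.dirac (pt (-(k : ℝ)) i))

/-- the reference measure -/
noncomputable def mu0 (n : ℕ) : Measure (E n) :=
  ENNReal.ofReal (n / 3) • Measure.dirac 0 +
    Measure.sum (fun k : ℕ => ENNReal.ofReal (c (k + 1)) • nu n (k + 1))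

lemma nu_univ (k : ℕ) : nu n k univ = 2 * n := by
  unfold nu
  rw [Measure.finsetSum_apply]
  simp only [Measure.coe_add, Pi.add_apply, Measure.dirac_apply_of_mem (mem_univ _)]
  rw [Finset.sum_const, Finset.card_univ, Fintype.card_fin, nsmul_eq_mul, mul_comm]
  norm_num

instance (k : ℕ) : IsFiniteMeasure (nu n k) := ⟨by
  rw [nu_univ]
  exact ENNReal.mul_lt_top (by norm_num) (ENNReal.natCast_lt_top n)⟩

lemma c_summable : Summable (fun k : ℕ => c (k + 1)) := by
  have h := (Real.summable_one_div_nat_pow (p := 2)).2 (by norm_num)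
  have h1 := ((summable_nat_add_iff 1).2 h).mul_left (2 / Real.pi ^ 2)
  refine h1.congr fun k => ?_
  unfold c
  rw [div_mul_div_comm, mul_one]

instance : IsFiniteMeasure (mu0 n) := ⟨by
  unfold mu0
  rw [Measure.add_apply, Measure.smul_apply, Measure.sum_apply _ MeasurableSet.univ]
  simp only [Measure.smul_apply, nu_univ, smul_eq_mul]
  rw [ENNReal.tsum_mul_right]
  apply ENNReal.add_lt_top.2
  constructor
  · rw [Measure.dirac_apply_of_mem (mem_univ _), mul_one]
    exact ENNReal.ofReal_lt_top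
  · apply ENNReal.mul_lt_top
    · exact c_summable.tsum_ofReal_lt_top
    · exact ENNReal.mul_lt_top (by norm_num) (ENNReal.natCast_lt_top n)⟩

lemma nu_int {G : Type*} [NormedAddCommGroup G] [NormedSpace ℝ G] [CompleteSpace G] {F : E n → G}
    (hF : StronglyMeasurable F) (k : ℕ) :
    ∫ t, F t ∂(nu n k) = ∑ i : Fin n, (F (pt k i) + F (pt (-(k : ℝ)) i)) := by
  unfold nu
  have hi : ∀ p : E n, Integrable F (Measure.dirac p) := fun p =>
    integrable_dirac' hF (by simp)
  rw [integral_finsetSum_measure (fun i _ => (hi _).add_measure (hi _))]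
  apply Finset.sum_congr rfl
  intro i _
  rw [integral_add_measure (hi _) (hi _), integral_dirac' _ _ hF, integral_dirac' _ _ hF]

lemma mu0_int {G : Type*} [NormedAddCommGroup G] [NormedSpace ℝ G] [CompleteSpace G] {F : E n → G}
    (hF : StronglyMeasurable F) {C : ℝ} (hb : ∀ t, ‖F t‖ ≤ C) :
    HasSum (fun k : ℕ => c (k + 1) •
      ∑ i : Fin n, (F (pt ((k + 1 : ℕ) : ℝ) i) + F (pt (-((k + 1 : ℕ) : ℝ)) i)))
      (∫ t, F t ∂(mu0 n) - ((n : ℝ) / 3) • F 0) := by
  have hint : ∀ μ : Measure (E n), IsFiniteMeasure μ → Integrable F μ := fun μ _ =>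
    Integrable.of_bound hF.aestronglyMeasurable C (Eventually.of_forall hb)
  have hs : IsFiniteMeasure (Measure.sum (fun k : ℕ => ENNReal.ofReal (c (k + 1)) • nu n (k + 1))) := by
    have h0 : IsFiniteMeasure (mu0 n) := inferInstance
    constructor
    refine lt_of_le_of_lt ?_ h0.measure_univ_lt_top
    unfold mu0
    rw [Measure.add_apply]
    exact le_add_self
  have h1 := hasSum_integral_measure (hint _ hs)
  have e1 : ∀ k : ℕ, ∫ t, F t ∂(ENNReal.ofReal (c (k + 1)) • nu n (k + 1))
      = c (k + 1) • ∑ i : Fin n, (F (pt ((k + 1 : ℕ) : ℝ) i) + F (pt (-((k + 1 : ℕ) : ℝ)) i)) := by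
    intro k
    rw [integral_smul_measure, nu_int hF, ENNReal.toReal_ofReal (c_nonneg _)]
  simp_rw [e1] at h1
  have e2 : ∫ t, F t ∂(mu0 n) - ((n : ℝ) / 3) • F 0
      = ∫ t, F t ∂(Measure.sum (fun k : ℕ => ENNReal.ofReal (c (k + 1)) • nu n (k + 1))) := by
    unfold mu0
    have hd : IsFiniteMeasure (ENNReal.ofReal ((n : ℝ) / 3) • (Measure.dirac 0 : Measure (E n))) := by
      constructor
      rw [Measure.smul_apply, Measure.dirac_apply_of_mem (mem_univ _), smul_eq_mul, mul_one]
      exact ENNReal.ofReal_lt_top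
    rw [integral_add_measure (hint _ hd) (hint _ hs), integral_smul_measure, integral_dirac' _ _ hF,
      ENNReal.toReal_ofReal (by positivity), add_sub_cancel_left]
  rw [e2]
  exact h1

end Pool.Agent.K7.H38.LB
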