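import Pool.Agent.K7.H38.LB.Ref

set_option autoImplicit false

open Filter Topology Metric Set MeasureTheory
open scoped ENNReal

namespace Pool.Agent.K7.H38.LB

variable {n : ℕ}

lemma pt_mem {k : ℕ} {s : ℝ} (hs : |s| = k) (i : Fin n) : (pt s i : E n) ∈ S n k := by
  change ‖pt s i‖ = _
  rw [pt_norm, hs]

lemma pt_not_mem {j k : ℕ} {s : ℝ} (hs : |s| = k) (hjk : k ≠ j) (i : Fin n) :
    (pt s i : E n) ∉ S n j := by
  intro h
  have h2 : ‖(pt s i : E n)‖ = j * Real.pi := h
  rw [pt_norm, hs] at h2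
  have := mul_right_cancel₀ Real.pi_ne_zero h2
  exact hjk (by exact_mod_cast this)

lemma abs_nat (k : ℕ) : |(k : ℝ)| = k := abs_of_nonneg (Nat.cast_nonneg k)

lemma abs_neg_nat (k : ℕ) : |-(k : ℝ)| = k := by rw [abs_neg, abs_nat]

lemma mu0_sphere {G : Type*} [NormedAddCommGroup G] [NormedSpace ℝ G] [CompleteSpace G]
    {f : E n → G} (hf : StronglyMeasurable f) {C : ℝ} {j : ℕ} (hj : 1 ≤ j) (hC : 0 ≤ C)
    (hb : ∀ t ∈ S n j, ‖f t‖ ≤ C) :
    ∫ t in S n j, f t ∂(mu0 n) = c j • ∑ i : Fin n, (f (pt (j : ℝ) i) + f (pt (-(j : ℝ)) i)) := by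
  have hF : StronglyMeasurable ((S n j).indicator f) := hf.indicator (S_meas j)
  have hFb : ∀ t, ‖(S n j).indicator f t‖ ≤ C := by
    intro t
    by_cases ht : t ∈ S n j
    · rw [indicator_of_mem ht]; exact hb t ht
    · rw [indicator_of_notMem ht, norm_zero]; exact hC
  have h1 := mu0_int hF hFb
  have h0 : (0 : E n) ∉ S n j := by
    intro h
    have h2 : ‖(0 : E n)‖ = j * Real.pi := h
    rw [norm_zero] at h2
    have h3 : (0 : ℝ) < j := by exact_mod_cast hj
    have := Real.pi_pos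
    have : 0 < j * Real.pi := by positivity
    linarith
  rw [indicator_of_notMem h0, smul_zero, sub_zero, integral_indicator (S_meas j)] at h1
  have h2 : HasSum (fun k : ℕ => c (k + 1) •
      ∑ i : Fin n, ((S n j).indicator f (pt ((k + 1 : ℕ) : ℝ) i)
        + (S n j).indicator f (pt (-((k + 1 : ℕ) : ℝ)) i)))
      (c ((j - 1) + 1) •
      ∑ i : Fin n, ((S n j).indicator f (pt (((j - 1) + 1 : ℕ) : ℝ) i)
        + (S n j).indicator f (pt (-(((j - 1) + 1 : ℕ) : ℝ)) i))) := by
    apply hasSum_single (j - 1)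
    intro k hk
    have hkj : k + 1 ≠ j := by omega
    rw [Finset.sum_eq_zero, smul_zero]
    intro i _
    rw [indicator_of_notMem (pt_not_mem (abs_nat (k + 1)) hkj i),
      indicator_of_notMem (pt_not_mem (abs_neg_nat (k + 1)) hkj i), add_zero]
  have h3 := h1.unique h2
  rw [h3]
  have ej : j - 1 + 1 = j := by omega
  rw [ej]
  congr 1
  apply Finset.sum_congr rfl
  intro i _
  rw [indicator_of_mem (pt_mem (abs_nat j) i), indicator_of_mem (pt_mem (abs_neg_nat j) i)]

lemma M_c (k : ℕ) : M n k = 2 * n * c k := by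
  unfold M c; ring

lemma mu0_zero : mu0 n {0} = ENNReal.ofReal (n / 3) := by
  have hF : StronglyMeasurable (({0} : Set (E n)).indicator fun _ => (1 : ℝ)) :=
    stronglyMeasurable_const.indicator (measurableSet_singleton 0)
  have h1 := mu0_int hF (C := 1) (fun t => by
    by_cases ht : t ∈ ({0} : Set (E n))
    · rw [indicator_of_mem ht]; simp
    · rw [indicator_of_notMem ht]; simp)
  have h2 : (fun k : ℕ => c (k + 1) •
      ∑ i : Fin n, (({0} : Set (E n)).indicator (fun _ => (1 : ℝ)) (pt ((k + 1 : ℕ) : ℝ) i)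
        + ({0} : Set (E n)).indicator (fun _ => (1 : ℝ)) (pt (-((k + 1 : ℕ) : ℝ)) i)))
      = fun _ => (0 : ℝ) := by
    funext k
    rw [Finset.sum_eq_zero, smul_zero]
    intro i _
    have e1 := pt_not_mem (j := 0) (abs_nat (k + 1)) (by omega) i
    have e2 := pt_not_mem (j := 0) (abs_neg_nat (k + 1)) (by omega) i
    rw [S_zero] at e1 e2
    rw [indicator_of_notMem e1, indicator_of_notMem e2, add_zero]
  rw [h2] at h1
  have h3 := h1.unique hasSum_zero
  rw [integral_indicator (measurableSet_singleton 0), indicator_of_mem (mem_singleton _),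
    setIntegral_const, smul_eq_mul, smul_eq_mul, mul_one, mul_one] at h3
  have h4 : (mu0 n).real {0} = n / 3 := by linarith
  rw [← h4, measureReal_def, ENNReal.ofReal_toReal (measure_ne_top _ _)]

lemma mu0_mass {k : ℕ} (hk : 1 ≤ k) : mu0 n (S n k) = ENNReal.ofReal (M n k) := by
  have h1 := mu0_sphere (n := n) (f := fun _ => (1 : ℝ)) stronglyMeasurable_const (C := 1) hk
    zero_le_one (fun _ _ => by simp)
  rw [setIntegral_const, smul_eq_mul, mul_one, Finset.sum_const, Finset.card_univ,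
    Fintype.card_fin, nsmul_eq_mul, smul_eq_mul] at h1
  have h4 : (mu0 n).real (S n k) = M n k := by rw [h1, M_c]; ring
  rw [← h4, measureReal_def, ENNReal.ofReal_toReal (measure_ne_top _ _)]

lemma mu0_mom (hn : 1 ≤ n) {k : ℕ} (hk : 1 ≤ k) (m : ℕ) (ω : E n) :
    D (mu0 n) k m ω = (∑ i : Fin n, ((ω i) ^ m + (-(ω i)) ^ m)) / (2 * n) := by
  have hk0 : (0 : ℝ) < k * Real.pi := by
    have : (0 : ℝ) < k := by exact_mod_cast hk
    have := Real.pi_pos
    positivity
  unfold D
  rw [setAverage_eq]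
  have hm : (mu0 n).real (S n k) = M n k := by
    rw [measureReal_def, mu0_mass hk, ENNReal.toReal_ofReal (M_pos hn hk).le]
  have h1 := mu0_sphere (n := n) (f := fun t => (inner ℝ t ω / (k * Real.pi)) ^ m)
    (by
      have h1 : Measurable (fun t : E n => inner ℝ t ω) := by fun_prop
      have h2 : Measurable (fun t : E n => (inner ℝ t ω / (k * Real.pi)) ^ m) := by fun_prop
      exact h2.stronglyMeasurable)
    (C := ‖ω‖ ^ m) hk (by positivity) (by
      intro t ht
      rw [norm_pow]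
      gcongr
      rw [norm_div, Real.norm_eq_abs, Real.norm_eq_abs, abs_of_pos hk0, div_le_iff₀ hk0]
      have := abs_real_inner_le_norm t ω
      rw [on_S ht] at this
      linarith)
  rw [h1, hm]
  have e : ∀ i : Fin n, (inner ℝ (pt (k : ℝ) i) ω / (k * Real.pi)) ^ m
      + (inner ℝ (pt (-(k : ℝ)) i) ω / (k * Real.pi)) ^ m = (ω i) ^ m + (-(ω i)) ^ m := by
    intro i
    rw [pt_inner, pt_inner]
    congr 2
    · field_simp
    · field_simp
  simp_rw [e]
  rw [smul_eq_mul, smul_eq_mul, M_c]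
  have hc : 0 < c k := by
    unfold c
    have h3 : (0 : ℝ) < k := by exact_mod_cast hk
    have := Real.pi_pos
    positivity
  have hn0 : (0 : ℝ) < n := by exact_mod_cast hn
  field_simp

lemma mu0_conc : ∀ᵐ t ∂(mu0 n), ∃ k : ℕ, ‖t‖ = k * Real.pi := by
  have hmeas : MeasurableSet {t : E n | ∃ k : ℕ, ‖t‖ = k * Real.pi} := by
    have : {t : E n | ∃ k : ℕ, ‖t‖ = k * Real.pi} = ⋃ k : ℕ, S n k := by
      ext t; simp [S]
    rw [this]
    exact MeasurableSet.iUnion fun k => S_meas k
  unfold mu0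
  rw [ae_add_measure_iff]
  constructor
  · apply Measure.ae_smul_measure
    rw [ae_dirac_iff hmeas]
    exact ⟨0, by simp⟩
  · rw [Measure.ae_sum_iff' hmeas]
    intro k
    apply Measure.ae_smul_measure
    unfold nu
    rw [ae_iff, Measure.finsetSum_apply]
    apply Finset.sum_eq_zero
    intro i _
    rw [← ae_iff, ae_add_measure_iff]
    constructor
    · rw [ae_dirac_iff hmeas]
      exact ⟨k + 1, pt_mem (abs_nat (k + 1)) i⟩
    · rw [ae_dirac_iff hmeas]
      exact ⟨k + 1, pt_mem (abs_neg_nat (k + 1)) i⟩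

theorem mu0_str (hn : 1 ≤ n) : Str (mu0 n) where
  conc := mu0_conc
  mass_zero := mu0_zero
  mass := fun k hk => mu0_mass hk
  mom_one := fun ω k hk => by rw [mu0_mom hn hk]; simp
  mom_two := fun ω k hk => by
    rw [mu0_mom hn hk, EuclideanSpace.real_norm_sq_eq]
    have e : ∑ i : Fin n, ((ω i) ^ 2 + (-(ω i)) ^ 2) = 2 * ∑ i : Fin n, (ω i) ^ 2 := by
      rw [Finset.mul_sum]
      apply Finset.sum_congr rfl
      intro i _
      ring
    rw [e]
    have hn0 : (0 : ℝ) < n := by exact_mod_cast hn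
    field_simp
  mom_three := fun ω k hk => by
    rw [mu0_mom hn hk]
    have e : ∀ i : Fin n, (ω i) ^ 3 + (-(ω i)) ^ 3 = 0 := fun i => by ring
    simp [e]
  mom := fun ω m hm => by
    refine ⟨Polynomial.C ((∑ i : Fin n, ((ω i) ^ m + (-(ω i)) ^ m)) / (2 * n)), ?_, ?_⟩
    · intro i hi
      rw [Polynomial.coeff_C] at hi
      by_cases h0 : i = 0
      · subst h0
        refine ⟨by omega, ?_⟩
        rw [if_pos rfl] at hi
        by_contra hodd
        rw [Nat.sub_zero, Nat.not_even_iff_odd] at hodd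
        apply hi
        have e : ∀ i : Fin n, (ω i) ^ m + (-(ω i)) ^ m = 0 := fun i => by
          rw [hodd.neg_pow]; ring
        simp [e]
      · rw [if_neg h0] at hi
        exact absurd rfl hi
    · intro k hk
      rw [Polynomial.eval_C, mu0_mom hn hk]

end Pool.Agent.K7.H38.LB
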