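import Pool.Agent.K7.H38.LB.Ref2

set_option autoImplicit false

open Filter Topology Metric Set MeasureTheory
open scoped ENNReal

namespace Pool.Agent.K7.H38.LB

variable {n : ℕ}

lemma four {x : ℝ} (hx : |x| ≤ 1) :
    HasSum (fun k : ℕ => c (k + 1) * ((-1) ^ (k + 1) * Real.cos (((k + 1 : ℕ) : ℝ) * Real.pi * x)))
      ((x ^ 2 - 1 / 3) / 2) := by
  have hx2 := abs_le.1 hx
  have h := hasSum_one_div_nat_pow_mul_cos (k := 1) one_ne_zero (x := (1 + x) / 2)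
    ⟨by linarith, by linarith⟩
  have hB : (Polynomial.map (algebraMap ℚ ℝ) (Polynomial.bernoulli (2 * 1))).eval ((1 + x) / 2)
      = ((1 + x) / 2) ^ 2 - (1 + x) / 2 + 1 / 6 := by
    rw [Polynomial.bernoulli]
    simp [Finset.sum_range_succ, bernoulli_two, bernoulli_one]
    ring
  rw [hB] at h
  have h1 := (hasSum_nat_add_iff' 1).2 h
  have h2 := h1.mul_left (2 / Real.pi ^ 2)
  have e : ∀ k : ℕ, 2 / Real.pi ^ 2 * (1 / ((k + 1 : ℕ) : ℝ) ^ (2 * 1)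
      * Real.cos (2 * Real.pi * ((k + 1 : ℕ) : ℝ) * ((1 + x) / 2)))
      = c (k + 1) * ((-1) ^ (k + 1) * Real.cos (((k + 1 : ℕ) : ℝ) * Real.pi * x)) := by
    intro k
    have e1 : 2 * Real.pi * ((k + 1 : ℕ) : ℝ) * ((1 + x) / 2)
        = ((k + 1 : ℕ) : ℝ) * Real.pi * x + ((k + 1 : ℕ) : ℝ) * Real.pi := by ring
    rw [e1, Real.cos_add_nat_mul_pi]
    unfold c
    have : ((k + 1 : ℕ) : ℝ) ≠ 0 := by positivity
    field_simp
  simp_rw [e] at h2
  have e3 : 2 / Real.pi ^ 2 * ((-1) ^ (1 + 1) * (2 * Real.pi) ^ (2 * 1) / 2 / ((2 * 1).factorial : ℝ) *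
      (((1 + x) / 2) ^ 2 - (1 + x) / 2 + 1 / 6) - ∑ i ∈ Finset.range 1,
        1 / ((i : ℕ) : ℝ) ^ (2 * 1) * Real.cos (2 * Real.pi * ((i : ℕ) : ℝ) * ((1 + x) / 2)))
      = (x ^ 2 - 1 / 3) / 2 := by
    have h2f : ((2 * 1).factorial : ℝ) = 2 := by norm_num [Nat.factorial]
    rw [h2f, Finset.sum_range_one]
    have := Real.pi_ne_zero
    norm_num
    field_simp
    ring
  rw [e3] at h2
  exact h2

lemma pair (s : ℝ) : Complex.exp (-(Complex.I * ((s : ℝ) : ℂ))) + Complex.exp (-(Complex.I * ((-s : ℝ) : ℂ)))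
    = ((2 * Real.cos s : ℝ) : ℂ) := by
  push_cast
  rw [Complex.cos]
  have a1 : -(Complex.I * (s : ℂ)) = -(s : ℂ) * Complex.I := by ring
  have a2 : -(Complex.I * (-(s : ℂ))) = (s : ℂ) * Complex.I := by ring
  rw [a1, a2]
  ring

/-- the Fourier transform of the reference measure -/
theorem mu0_fourier {ξ : E n} (hξ : ‖ξ‖ ≤ 1) :
    ∫ t, Complex.exp (-(Complex.I * ((inner ℝ t ξ : ℝ) : ℂ))) * (-((Real.cos ‖t‖ : ℝ) : ℂ)) ∂(mu0 n)
      = -((‖ξ‖ ^ 2 : ℝ) : ℂ) := by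
  set F : E n → ℂ := fun t =>
    Complex.exp (-(Complex.I * ((inner ℝ t ξ : ℝ) : ℂ))) * (-((Real.cos ‖t‖ : ℝ) : ℂ)) with hF
  have hFm : StronglyMeasurable F := by
    have h1 : Measurable (fun t : E n => inner ℝ t ξ) := by fun_prop
    have : Measurable F := by
      rw [hF]
      fun_prop
    exact this.stronglyMeasurable
  have hFb : ∀ t, ‖F t‖ ≤ 1 := by
    intro t
    rw [hF]
    dsimp only
    rw [norm_mul, norm_neg, Complex.norm_real, Real.norm_eq_abs, Complex.norm_exp]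
    have h2 := Real.abs_cos_le_one ‖t‖
    simpa using h2
  have h1 := mu0_int hFm hFb
  have hξi : ∀ i : Fin n, |ξ i| ≤ 1 := by
    intro i
    have := PiLp.norm_apply_le ξ i
    rw [Real.norm_eq_abs] at this
    exact this.trans hξ
  have e1 : ∀ (k : ℕ) (i : Fin n), F (pt ((k + 1 : ℕ) : ℝ) i) + F (pt (-((k + 1 : ℕ) : ℝ)) i)
      = ((-(2 * ((-1) ^ (k + 1) * Real.cos (((k + 1 : ℕ) : ℝ) * Real.pi * ξ i))) : ℝ) : ℂ) := by
    intro k i
    simp only [hF]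
    rw [pt_inner, pt_inner, pt_norm, pt_norm, abs_nat, abs_neg_nat, Real.cos_nat_mul_pi]
    have e2 : -((k + 1 : ℕ) : ℝ) * Real.pi * ξ i = -(((k + 1 : ℕ) : ℝ) * Real.pi * ξ i) := by ring
    rw [e2, ← add_mul, pair, ← Complex.ofReal_neg, ← Complex.ofReal_mul]
    congr 1
    ring
  simp_rw [e1] at h1
  have h2 : HasSum (fun k : ℕ => ∑ i : Fin n,
      c (k + 1) * ((-1) ^ (k + 1) * Real.cos (((k + 1 : ℕ) : ℝ) * Real.pi * ξ i)))
      (∑ i : Fin n, ((ξ i) ^ 2 - 1 / 3) / 2) := hasSum_sum fun i _ => four (hξi i)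
  have h3 := h2.mul_left (-2)
  have h4 : HasSum (fun k : ℕ => c (k + 1) • ∑ i : Fin n,
      ((-(2 * ((-1) ^ (k + 1) * Real.cos (((k + 1 : ℕ) : ℝ) * Real.pi * ξ i))) : ℝ) : ℂ))
      (((-2 * ∑ i : Fin n, ((ξ i) ^ 2 - 1 / 3) / 2 : ℝ)) : ℂ) := by
    have := Complex.hasSum_ofReal.2 h3
    refine (hasSum_cg fun k => ?_).1 this
    rw [Complex.real_smul, ← Complex.ofReal_sum, ← Complex.ofReal_mul]
    congr 1
    rw [Finset.mul_sum, Finset.mul_sum]
    apply Finset.sum_congr rfl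
    intro i _
    ring
  have h5 := h1.unique h4
  have e0 : F 0 = -1 := by simp [hF]
  rw [e0] at h5
  have h6 : ∫ t, F t ∂(mu0 n) = (((-2 * ∑ i : Fin n, ((ξ i) ^ 2 - 1 / 3) / 2 : ℝ)) : ℂ)
      + ((n : ℝ) / 3) • (-1 : ℂ) := by rw [← h5]; ring
  rw [h6, EuclideanSpace.real_norm_sq_eq, Complex.real_smul]
  have e5 : -2 * ∑ i : Fin n, ((ξ i) ^ 2 - 1 / 3) / 2 = -(∑ i : Fin n, (ξ i) ^ 2) + n / 3 := by
    rw [← Finset.sum_div, Finset.sum_sub_distrib, Finset.sum_const, Finset.card_univ,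
      Fintype.card_fin, nsmul_eq_mul]
    ring
  rw [e5]
  push_cast
  ring

/-- sufficiency: every structured measure has the right Fourier transform -/
theorem fourier_of_str {μ : Measure (E n)} [IsFiniteMeasure μ] (h : Str μ) (hn : 1 ≤ n) {ξ : E n}
    (hξ : ‖ξ‖ ≤ 1) :
    ∫ t, Complex.exp (-(Complex.I * ((inner ℝ t ξ : ℝ) : ℂ))) * (-((Real.cos ‖t‖ : ℝ) : ℂ)) ∂μ
      = -((‖ξ‖ ^ 2 : ℝ) : ℂ) := by
  rw [eqF h (mu0_str hn) hn hξ, mu0_fourier hξ]

/-- total mass -/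
theorem total_of_str {μ : Measure (E n)} [IsFiniteMeasure μ] (h : Str μ) (hn : 1 ≤ n) :
    μ.real univ = n := by
  have h1 := decomp h.conc (F := fun _ => (1 : ℂ)) (integrable_const 1)
  have h2 : (fun k : ℕ => ∫ t in S n k, (1 : ℂ) ∂μ) = fun k : ℕ => ((μ.real (S n k) : ℝ) : ℂ) := by
    funext k
    rw [setIntegral_const, Complex.real_smul, mul_one]
  rw [h2, integral_const, Complex.real_smul, mul_one] at h1
  have h3 := Complex.hasSum_ofReal.1 h1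
  have hk : ∀ k : ℕ, μ.real (S n (k + 1)) = (4 * n / Real.pi ^ 2) * (1 / ((k + 1 : ℕ) : ℝ) ^ 2) := by
    intro k
    rw [real_mass h hn (by omega)]
    unfold M
    have : ((k + 1 : ℕ) : ℝ) ≠ 0 := by positivity
    have := Real.pi_ne_zero
    field_simp
  have h4 : HasSum (fun k : ℕ => 1 / ((k + 1 : ℕ) : ℝ) ^ 2) (Real.pi ^ 2 / 6) := by
    have := (hasSum_nat_add_iff' 1).2 hasSum_zeta_two
    simpa using this
  have h5 := h4.mul_left (4 * n / Real.pi ^ 2)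
  simp_rw [← hk] at h5
  have h6 := (hasSum_nat_add_iff (f := fun k => μ.real (S n k)) 1).1 h5
  have h7 := h3.unique h6
  rw [h7]
  simp only [Finset.range_one, Finset.sum_singleton]
  have h0 : μ.real (S n 0) = n / 3 := by
    rw [S_zero, measureReal_def, h.mass_zero, ENNReal.toReal_ofReal (by positivity)]
  rw [h0]
  have := Real.pi_ne_zero
  field_simp
  ring

end Pool.Agent.K7.H38.LB
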