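import Pool.Agent.Helper797.BsFinal

set_option autoImplicit false

open Complex Filter Topology Metric Set
open Pool.Agent.Helper797.Bs

namespace Pool.Agent.K7.H38.LB

lemma sin_eq_zero_near {s : ℂ} (h : Complex.sin s = 0) : ∃ k : ℤ, s = (k : ℂ) * Real.pi :=
  Complex.sin_eq_zero_iff.1 h

lemma int_inj {j k : ℤ} (h : (j : ℂ) * Real.pi = (k : ℂ) * Real.pi) : j = k := by
  have hpc : (Real.pi : ℂ) ≠ 0 := by exact_mod_cast Real.pi_ne_zero
  have := mul_right_cancel₀ hpc h
  exact_mod_cast this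

lemma pole {h : ℂ → ℂ} (hh : Differentiable ℂ h) (k : ℤ) :
    Tendsto (fun s => (s - (k:ℂ) * Real.pi) * (h s / Complex.sin s)) (𝓝[≠] ((k:ℂ) * Real.pi))
      (𝓝 (h ((k:ℂ) * Real.pi) / Complex.cos ((k:ℂ) * Real.pi))) := by
  set p : ℂ := (k:ℂ) * Real.pi with hp
  have hsin : Complex.sin p = 0 := Complex.sin_eq_zero_iff.mpr ⟨k, rfl⟩
  have hcos : Complex.cos p ≠ 0 := by
    intro h
    have := norm_cos_int k
    rw [← hp, h, norm_zero] at this
    norm_num at this
  have hslope : Tendsto (fun s => Complex.sin s / (s - p)) (𝓝[≠] p) (𝓝 (Complex.cos p)) := by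
    have h := (Complex.hasDerivAt_sin p).tendsto_slope
    refine h.congr' ?_
    filter_upwards with s
    rw [slope_def_field, hsin, sub_zero]
  have hgc : Tendsto h (𝓝[≠] p) (𝓝 (h p)) :=
    hh.continuous.continuousAt.tendsto.mono_left nhdsWithin_le_nhds
  have := hgc.div hslope hcos
  refine this.congr' ?_
  filter_upwards [self_mem_nhdsWithin] with s hs
  have hs' : s - p ≠ 0 := sub_ne_zero.mpr hs
  simp only [Pi.div_apply]
  rw [div_div_eq_mul_div]
  ring

/-- partial fractions for `h(s) / sin s` -/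
theorem resid {h : ℂ → ℂ} (hh : Differentiable ℂ h) {C : ℝ} (hC : 0 ≤ C)
    (hb : ∀ s, ‖s‖ ^ 2 * ‖h s‖ ≤ C * Real.exp |s.im|) :
    Tendsto (fun N : ℕ => ∑ k ∈ Finset.Icc (-(N:ℤ)) N,
      h ((k:ℂ) * Real.pi) / Complex.cos ((k:ℂ) * Real.pi)) atTop (𝓝 0) := by
  classical
  have hpi := Real.pi_pos
  -- the circle integrals
  have hint : ∀ N : ℕ, (∮ s in C(0, (N + 1 / 2) * Real.pi), h s / Complex.sin s)
      = 2 * Real.pi * I * ∑ k ∈ Finset.Icc (-(N:ℤ)) N,
        h ((k:ℂ) * Real.pi) / Complex.cos ((k:ℂ) * Real.pi) := by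
    intro N
    set R : ℝ := (N + 1 / 2) * Real.pi with hR
    have hRpos : 0 < R := by positivity
    set ZN : Finset ℂ := (Finset.Icc (-(N:ℤ)) N).image (fun k : ℤ => (k:ℂ) * Real.pi) with hZN
    have key := residue_sum hRpos ZN ?_ (fun p => h p / Complex.cos p)
      (fun s => h s / Complex.sin s) ?_ ?_
    · rw [key]
      congr 1
      rw [hZN, Finset.sum_image]
      intro a _ b _ hab
      exact int_inj hab
    · intro p hp
      obtain ⟨k, hk, rfl⟩ := Finset.mem_image.mp hp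
      rw [norm_mul, Complex.norm_real, Real.norm_eq_abs, abs_of_pos hpi, hR]
      have h1 : ‖(k:ℂ)‖ ≤ N := by
        rw [Complex.norm_intCast]
        have := Finset.mem_Icc.1 hk
        rw [abs_le]
        constructor
        · have : (-(N:ℤ) : ℝ) ≤ (k : ℝ) := by exact_mod_cast this.1
          push_cast at this; exact this
        · exact_mod_cast this.2
      have : ‖(k:ℂ)‖ * Real.pi ≤ N * Real.pi := by gcongr
      nlinarith
    · intro s hs hsZ
      apply (hh s).div (Complex.differentiable_sin s)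
      intro h0
      obtain ⟨k, rfl⟩ := sin_eq_zero_near h0
      apply hsZ
      rw [hZN, Finset.mem_image]
      refine ⟨k, ?_, rfl⟩
      rw [norm_mul, Complex.norm_real, Real.norm_eq_abs, abs_of_pos hpi, hR,
        Complex.norm_intCast] at hs
      have h1 : |(k:ℝ)| ≤ N + 1 / 2 := le_of_mul_le_mul_right hs hpi
      have h2 : |(k:ℝ)| < N + 1 := by linarith
      have h3 : |k| < (N:ℤ) + 1 := by
        have : ((|k| : ℤ) : ℝ) < (((N:ℤ) + 1 : ℤ) : ℝ) := by push_cast; exact h2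
        exact_mod_cast this
      rw [Finset.mem_Icc]
      have := abs_le.1 (Int.lt_add_one_iff.1 h3)
      exact this
    · intro p hp
      obtain ⟨k, hk, rfl⟩ := Finset.mem_image.mp hp
      exact pole hh k
  have hbound : ∀ N : ℕ, 1 ≤ N → ‖∑ k ∈ Finset.Icc (-(N:ℤ)) N,
        h ((k:ℂ) * Real.pi) / Complex.cos ((k:ℂ) * Real.pi)‖ ≤ 8 * C / N := by
    intro N hN
    have hN' : (1:ℝ) ≤ N := by exact_mod_cast hN
    set R : ℝ := (N + 1 / 2) * Real.pi with hR
    have hRpos : 0 < R := by positivity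
    have hRN : N ≤ R := by
      have := Real.pi_gt_three
      rw [hR]; nlinarith
    have hkey : ∀ s ∈ sphere (0:ℂ) R, ‖h s / Complex.sin s‖ ≤ 8 * C / R ^ 2 := by
      intro s hs
      rw [mem_sphere_zero_iff_norm] at hs
      have h1 := sin_lower N s hs
      have h2 := hb s
      have hexp := Real.exp_pos |s.im|
      rw [hs] at h2
      have hsin : 0 < ‖Complex.sin s‖ := by linarith
      rw [norm_div, div_le_div_iff₀ hsin (by positivity)]
      nlinarith
    have h3 := circleIntegral.norm_integral_le_of_norm_le_const hRpos.le hkey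
    rw [hint N, norm_mul] at h3
    have e : ‖(2 * Real.pi * I : ℂ)‖ = 2 * Real.pi := by
      rw [norm_mul, norm_mul, Complex.norm_I, Complex.norm_real, Real.norm_eq_abs, abs_of_pos hpi]
      norm_num
    rw [e] at h3
    have h4 : 2 * Real.pi * R * (8 * C / R ^ 2) = 2 * Real.pi * (8 * C / R) := by field_simp
    rw [h4] at h3
    have h5 := le_of_mul_le_mul_left h3 (by positivity)
    refine h5.trans ?_
    gcongr
  rw [tendsto_zero_iff_norm_tendsto_zero]
  have hlim : Tendsto (fun N : ℕ => 8 * C / (N:ℝ)) atTop (𝓝 0) :=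
    tendsto_const_div_atTop_nhds_zero_nat (8 * C)
  refine tendsto_of_tendsto_of_tendsto_of_le_of_le' tendsto_const_nhds hlim
    (Eventually.of_forall fun _ => norm_nonneg _) ?_
  filter_upwards [eventually_ge_atTop 1] with N hN
  exact hbound N hN

lemma sum_Icc_even {f : ℤ → ℂ} (hf : ∀ k, f (-k) = f k) (N : ℕ) :
    ∑ k ∈ Finset.Icc (-(N:ℤ)) N, f k = f 0 + 2 * ∑ k ∈ Finset.range N, f ((k:ℤ) + 1) := by
  induction N with
  | zero => simp
  | succ N ih =>
    have e : Finset.Icc (-((N + 1 : ℕ):ℤ)) ((N + 1 : ℕ):ℤ)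
        = insert (-((N:ℤ) + 1)) (insert ((N:ℤ) + 1) (Finset.Icc (-(N:ℤ)) N)) := by
      ext x
      simp only [Finset.mem_Icc, Finset.mem_insert]
      push_cast
      omega
    rw [e, Finset.sum_insert, Finset.sum_insert, ih, Finset.sum_range_succ, hf]
    · ring
    · simp
    · simp only [Finset.mem_insert, Finset.mem_Icc, not_or]
      constructor
      · omega
      · omega

/-- the version for even functions with `h 0 = 0` -/
theorem resid_even {h : ℂ → ℂ} (hh : Differentiable ℂ h) {C : ℝ} (hC : 0 ≤ C)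
    (hb : ∀ s, ‖s‖ ^ 2 * ‖h s‖ ≤ C * Real.exp |s.im|) (hev : ∀ s, h (-s) = h s) (h0 : h 0 = 0) :
    HasSum (fun k : ℕ => (-1) ^ (k + 1) * h (((k + 1 : ℕ):ℂ) * Real.pi)) 0 := by
  have hpi := Real.pi_pos
  have hcos : ∀ k : ℕ, Complex.cos (((k:ℤ):ℂ) * Real.pi) = (-1) ^ k := by
    intro k
    have h := Real.cos_nat_mul_pi k
    have h2 : ((Real.cos (k * Real.pi) : ℝ) : ℂ) = (((-1) ^ k : ℝ) : ℂ) := by rw [h]
    push_cast at h2 ⊢
    exact h2
  have h1 := resid hh hC hb
  have h2 : ∀ N : ℕ, ∑ k ∈ Finset.Icc (-(N:ℤ)) N,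
      h ((k:ℂ) * Real.pi) / Complex.cos ((k:ℂ) * Real.pi)
      = 2 * ∑ k ∈ Finset.range N, (-1) ^ (k + 1) * h (((k + 1 : ℕ):ℂ) * Real.pi) := by
    intro N
    rw [sum_Icc_even (f := fun k : ℤ => h ((k:ℂ) * Real.pi) / Complex.cos ((k:ℂ) * Real.pi))]
    · have e0 : h (((0:ℤ):ℂ) * Real.pi) / Complex.cos (((0:ℤ):ℂ) * Real.pi) = 0 := by
        simp [h0]
      rw [e0, zero_add]
      congr 1
      apply Finset.sum_congr rfl
      intro k _
      have e1 : (((k:ℤ) + 1 : ℤ):ℂ) = (((k + 1 : ℕ) : ℤ) : ℂ) := by push_cast; ring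
      rw [e1, hcos (k + 1)]
      have e2 : ((-1 : ℂ) ^ (k + 1)) * ((-1 : ℂ) ^ (k + 1)) = 1 := by
        rw [← mul_pow]; norm_num
      have e3 : ((-1 : ℂ) ^ (k + 1)) ≠ 0 := by
        intro h; rw [h] at e2; norm_num at e2
      rw [div_eq_iff e3]
      have e4 : (((k + 1 : ℕ) : ℤ) : ℂ) = ((k + 1 : ℕ) : ℂ) := by push_cast; ring
      rw [e4]
      linear_combination (-(h (((k + 1 : ℕ) : ℂ) * Real.pi))) * e2
    · intro k
      have e1 : (((-k : ℤ)):ℂ) * Real.pi = -((k:ℂ) * Real.pi) := by push_cast; ring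
      rw [e1, hev, Complex.cos_neg]
  simp_rw [h2] at h1
  have h3 : Tendsto (fun N : ℕ => ∑ k ∈ Finset.range N,
      (-1) ^ (k + 1) * h (((k + 1 : ℕ):ℂ) * Real.pi)) atTop (𝓝 0) := by
    have := h1.const_mul (1 / 2 : ℂ)
    rw [mul_zero] at this
    refine this.congr fun N => ?_
    ring
  have hsum : Summable (fun k : ℕ => (-1) ^ (k + 1) * h (((k + 1 : ℕ):ℂ) * Real.pi)) := by
    apply Summable.of_norm_bounded (g := fun k : ℕ => C * (1 / ((k + 1 : ℕ):ℝ) ^ 2))
    · apply Summable.mul_left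
      have := (Real.summable_one_div_nat_pow (p := 2)).2 (by norm_num)
      exact (summable_nat_add_iff 1).2 this
    · intro k
      rw [norm_mul, norm_pow, norm_neg, norm_one, one_pow, one_mul]
      have h4 := hb (((k + 1 : ℕ):ℂ) * Real.pi)
      have him : ((((k + 1 : ℕ):ℂ) * Real.pi)).im = 0 := by
        rw [← Complex.ofReal_natCast, ← Complex.ofReal_mul, Complex.ofReal_im]
      rw [him, abs_zero, Real.exp_zero, mul_one, norm_mul, Complex.norm_real, Real.norm_eq_abs,
        abs_of_pos hpi, Complex.norm_natCast] at h4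
      have hk : (0:ℝ) < ((k + 1 : ℕ):ℝ) := by positivity
      rw [mul_one_div, le_div_iff₀ (by positivity)]
      have h5 : ((k + 1 : ℕ):ℝ) ^ 2 ≤ (((k + 1 : ℕ):ℝ) * Real.pi) ^ 2 := by
        rw [mul_pow]
        have h7 : 1 ≤ Real.pi ^ 2 := by have := Real.pi_gt_three; nlinarith
        exact le_mul_of_one_le_right (sq_nonneg _) h7
      have h6 := norm_nonneg (h (((k + 1 : ℕ):ℂ) * Real.pi))
      nlinarith
  have h4 := hsum.hasSum.tendsto_sum_nat
  have h5 := tendsto_nhds_unique h4 h3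
  rw [← h5]
  exact hsum.hasSum

end Pool.Agent.K7.H38.LB
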