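import Pool.Agent.K7.H38.LB.Basic

set_option autoImplicit false

open Filter Topology Metric Set MeasureTheory
open Pool.Agent.Helper797.Bs

namespace Pool.Agent.K7.H38.LB

variable {n : ℕ}

lemma Adm.natDegree_lt {m : ℕ} {q : Polynomial ℝ} (hq : Adm m q) : q.natDegree < m + 1 := by
  by_cases h : q = 0
  · rw [h, Polynomial.natDegree_zero]; omega
  · have h1 : q.coeff q.natDegree ≠ 0 := by
      rw [Polynomial.coeff_natDegree]
      exact Polynomial.leadingCoeff_ne_zero.2 h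
    have := (hq _ h1).1
    omega

/-- `4 n / (π² k²)` -/
noncomputable def M (n k : ℕ) : ℝ := 4 * n / (Real.pi ^ 2 * k ^ 2)

lemma termZero {N m : ℕ} (hN : 1 ≤ N) (hm : m ≤ N) {q : Polynomial ℝ} (hq : Adm m q) :
    HasSum (fun k : ℕ => (-1 : ℂ) ^ (k + 1) * ((M n (k + 1) : ℝ) : ℂ) *
      (Complex.cos ((((k + 1 : ℕ) : ℂ) * Real.pi) / N) ^ (N - m) *
        Complex.sin ((((k + 1 : ℕ) : ℂ) * Real.pi) / N) ^ m) *
        ((q.eval (1 / ((k + 1 : ℕ) : ℝ)) : ℝ) : ℂ)) 0 := by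
  have h1 : ∀ i ∈ Finset.range (m + 1), HasSum (fun k : ℕ => ((4 * n * Real.pi ^ i * q.coeff i : ℝ) : ℂ) *
      ((-1 : ℂ) ^ (k + 1) *
      (Complex.cos ((((k + 1 : ℕ) : ℂ) * Real.pi) / N) ^ (N - m) *
        Complex.sin ((((k + 1 : ℕ) : ℂ) * Real.pi) / N) ^ m /
          (((k + 1 : ℕ) : ℂ) * Real.pi) ^ (i + 2)))) 0 := by
    intro i _
    by_cases hi : q.coeff i = 0
    · rw [hi]
      simp only [mul_zero, Complex.ofReal_zero, zero_mul]
      exact hasSum_zero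
    · obtain ⟨h2, h3⟩ := hq i hi
      have h4 := (sumP (N := N) (m := m) (p := i + 2) hN hm (by omega) (by omega) (by
        have : m - i = (m - (i + 2)) + 2 := by omega
        rw [this] at h3
        exact (Nat.even_add.1 h3).2 (by norm_num))).mul_left ((4 * n * Real.pi ^ i * q.coeff i : ℝ) : ℂ)
      rw [mul_zero] at h4
      exact h4
  have h2 := hasSum_sum h1
  rw [Finset.sum_const_zero] at h2
  have e : (fun k : ℕ => (-1 : ℂ) ^ (k + 1) * ((M n (k + 1) : ℝ) : ℂ) *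
      (Complex.cos ((((k + 1 : ℕ) : ℂ) * Real.pi) / N) ^ (N - m) *
        Complex.sin ((((k + 1 : ℕ) : ℂ) * Real.pi) / N) ^ m) *
        ((q.eval (1 / ((k + 1 : ℕ) : ℝ)) : ℝ) : ℂ))
      = fun k : ℕ => ∑ i ∈ Finset.range (m + 1), ((4 * n * Real.pi ^ i * q.coeff i : ℝ) : ℂ) *
      ((-1 : ℂ) ^ (k + 1) *
      (Complex.cos ((((k + 1 : ℕ) : ℂ) * Real.pi) / N) ^ (N - m) *
        Complex.sin ((((k + 1 : ℕ) : ℂ) * Real.pi) / N) ^ m /
          (((k + 1 : ℕ) : ℂ) * Real.pi) ^ (i + 2))) := by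
    funext k
    rw [Polynomial.eval_eq_sum_range' hq.natDegree_lt, Complex.ofReal_sum, Finset.mul_sum]
    apply Finset.sum_congr rfl
    intro i _
    have hk : ((k + 1 : ℕ) : ℂ) ≠ 0 := by exact_mod_cast Nat.succ_ne_zero k
    have hp : (Real.pi : ℂ) ≠ 0 := by exact_mod_cast Real.pi_ne_zero
    unfold M
    set c := Complex.cos ((((k + 1 : ℕ) : ℂ) * Real.pi) / N) ^ (N - m) *
        Complex.sin ((((k + 1 : ℕ) : ℂ) * Real.pi) / N) ^ m
    set κ : ℂ := ((k + 1 : ℕ) : ℂ) with hκ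
    push_cast
    rw [← Nat.cast_succ, Nat.succ_eq_add_one, ← hκ]
    rw [mul_pow κ, pow_add κ, pow_add (Real.pi : ℂ), one_div_pow]
    field_simp
  rw [e]
  exact h2

/-- the approximations of `exp (-i ⟨t, ξ⟩)` -/
noncomputable def PN (N : ℕ) (ξ t : E n) : ℂ :=
  (Complex.cos ((‖t‖ / N : ℝ) : ℂ)
    - Complex.I * ((inner ℝ t ξ / ‖t‖ : ℝ) : ℂ) * Complex.sin ((‖t‖ / N : ℝ) : ℂ)) ^ N

lemma inner_div_le {ξ : E n} (hξ : ‖ξ‖ ≤ 1) (t : E n) : |inner ℝ t ξ / ‖t‖| ≤ 1 := by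
  rw [abs_div, abs_norm]
  apply div_le_one_of_le₀ _ (norm_nonneg _)
  calc |inner ℝ t ξ| ≤ ‖t‖ * ‖ξ‖ := abs_real_inner_le_norm t ξ
    _ ≤ ‖t‖ * 1 := by gcongr
    _ = ‖t‖ := mul_one _

lemma PN_le (N : ℕ) {ξ : E n} (hξ : ‖ξ‖ ≤ 1) (t : E n) : ‖PN N ξ t‖ ≤ 1 := by
  unfold PN
  rw [norm_pow]
  apply pow_le_one₀ (norm_nonneg _)
  have hx := inner_div_le hξ t
  set x := inner ℝ t ξ / ‖t‖
  set s := ‖t‖ / N
  have h1 : ‖Complex.cos (s : ℂ) - Complex.I * (x : ℂ) * Complex.sin (s : ℂ)‖ ^ 2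
      = Real.cos s ^ 2 + (x * Real.sin s) ^ 2 := by
    rw [← Complex.normSq_eq_norm_sq, ← Complex.ofReal_cos, ← Complex.ofReal_sin,
      Complex.normSq_apply]
    simp only [Complex.sub_re, Complex.sub_im, Complex.ofReal_re, Complex.ofReal_im, Complex.mul_re,
      Complex.mul_im, Complex.I_re, Complex.I_im]
    ring
  have h2 : (x * Real.sin s) ^ 2 ≤ Real.sin s ^ 2 := by
    rw [mul_pow]
    have : x ^ 2 ≤ 1 := (sq_le_one_iff_abs_le_one x).2 hx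
    nlinarith [sq_nonneg (Real.sin s)]
  have h3 : ‖Complex.cos (s : ℂ) - Complex.I * (x : ℂ) * Complex.sin (s : ℂ)‖ ^ 2 ≤ 1 ^ 2 := by
    rw [h1]
    have := Real.sin_sq_add_cos_sq s
    linarith
  exact abs_le_of_sq_le_sq' h3 zero_le_one |>.2

lemma lim_cos (s : ℝ) : Tendsto (fun N : ℕ => (N : ℝ) * (Real.cos (s / N) - 1)) atTop (𝓝 0) := by
  have hb : ∀ N : ℕ, 1 ≤ N → ‖(N : ℝ) * (Real.cos (s / N) - 1)‖ ≤ s ^ 2 / 2 / N := by
    intro N hN
    have hNr : (0 : ℝ) < N := by exact_mod_cast hN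
    have h1 := Real.one_sub_sq_div_two_le_cos (x := s / N)
    have h2 := Real.cos_le_one (s / N)
    rw [norm_mul, Real.norm_eq_abs, Real.norm_eq_abs, abs_of_pos hNr, abs_of_nonpos (by linarith)]
    have h3 : -(Real.cos (s / N) - 1) ≤ (s / N) ^ 2 / 2 := by linarith
    calc (N : ℝ) * -(Real.cos (s / N) - 1) ≤ N * ((s / N) ^ 2 / 2) := by gcongr
      _ = s ^ 2 / 2 / N := by field_simp
  rw [tendsto_zero_iff_norm_tendsto_zero]
  have hlim : Tendsto (fun N : ℕ => s ^ 2 / 2 / (N:ℝ)) atTop (𝓝 0) :=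
    tendsto_const_div_atTop_nhds_zero_nat (s ^ 2 / 2)
  refine tendsto_of_tendsto_of_tendsto_of_le_of_le' tendsto_const_nhds hlim
    (Eventually.of_forall fun _ => norm_nonneg _) ?_
  filter_upwards [eventually_ge_atTop 1] with N hN
  exact hb N hN

lemma lim_sin (s : ℝ) : Tendsto (fun N : ℕ => (N : ℝ) * Real.sin (s / N)) atTop (𝓝 s) := by
  rcases eq_or_ne s 0 with rfl | hs
  · simp
  have h1 : Tendsto (fun N : ℕ => s / (N : ℝ)) atTop (𝓝[≠] 0) := by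
    apply tendsto_nhdsWithin_of_tendsto_nhds_of_eventually_within
    · exact tendsto_const_div_atTop_nhds_zero_nat s
    · filter_upwards [eventually_ge_atTop 1] with N hN
      have hNr : (0 : ℝ) < N := by exact_mod_cast hN
      exact div_ne_zero hs hNr.ne'
  have h2 := (Real.hasDerivAt_sin 0).tendsto_slope
  rw [Real.cos_zero] at h2
  have h3 := (h2.comp h1).const_mul s
  rw [mul_one] at h3
  refine h3.congr' ?_
  filter_upwards [eventually_ge_atTop 1] with N hN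
  have hNr : (0 : ℝ) < N := by exact_mod_cast hN
  rw [Function.comp_apply, slope_def_field, Real.sin_zero, sub_zero, sub_zero]
  field_simp

lemma PN_tendsto (ξ t : E n) :
    Tendsto (fun N => PN N ξ t) atTop (𝓝 (Complex.exp (-(Complex.I * ((inner ℝ t ξ : ℝ) : ℂ))))) := by
  have h1 := lim_cos ‖t‖
  have h2 := lim_sin ‖t‖
  have h3 : Tendsto (fun N : ℕ => (N : ℂ) * ((Complex.cos ((‖t‖ / N : ℝ) : ℂ)
    - Complex.I * ((inner ℝ t ξ / ‖t‖ : ℝ) : ℂ) * Complex.sin ((‖t‖ / N : ℝ) : ℂ)) - 1)) atTop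
      (𝓝 (-(Complex.I * ((inner ℝ t ξ : ℝ) : ℂ)))) := by
    have h1c : Tendsto (fun N : ℕ => (((N : ℝ) * (Real.cos (‖t‖ / N) - 1) : ℝ) : ℂ)) atTop
        (𝓝 ((0 : ℝ) : ℂ)) := (Complex.continuous_ofReal.tendsto 0).comp h1
    have h2c : Tendsto (fun N : ℕ => (((N : ℝ) * Real.sin (‖t‖ / N) : ℝ) : ℂ)) atTop
        (𝓝 ((‖t‖ : ℝ) : ℂ)) := (Complex.continuous_ofReal.tendsto _).comp h2
    have h4 := h1c.sub (h2c.const_mul (Complex.I * ((inner ℝ t ξ / ‖t‖ : ℝ) : ℂ)))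
    have e : ((0 : ℝ) : ℂ) - Complex.I * ((inner ℝ t ξ / ‖t‖ : ℝ) : ℂ) * ((‖t‖ : ℝ) : ℂ)
        = -(Complex.I * ((inner ℝ t ξ : ℝ) : ℂ)) := by
      rcases eq_or_ne t 0 with rfl | ht
      · simp
      · have hn : ((‖t‖ : ℝ) : ℂ) ≠ 0 := by exact_mod_cast norm_ne_zero_iff.2 ht
        push_cast
        field_simp
        ring
    rw [e] at h4
    refine h4.congr fun N => ?_
    push_cast
    ring
  have h5 := Complex.tendsto_one_add_pow_exp_of_tendsto h3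
  refine h5.congr fun N => ?_
  unfold PN
  congr 1
  ring

lemma PN_meas (N : ℕ) (ξ : E n) : Measurable (PN N ξ) := by
  unfold PN
  have h1 : Measurable (fun t : E n => inner ℝ t ξ) := by fun_prop
  fun_prop

end Pool.Agent.K7.H38.LB
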