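import Pool.Agent.K7.H38.LB.Suff

set_option autoImplicit false

open Filter Topology Metric Set MeasureTheory
open Pool.Agent.Helper797.Bs

namespace Pool.Agent.K7.H38.LB

variable {n : ℕ}

lemma M_pos (hn : 1 ≤ n) {k : ℕ} (hk : 1 ≤ k) : 0 < M n k := by
  have h1 : (0 : ℝ) < n := by exact_mod_cast hn
  have h2 : (0 : ℝ) < k := by exact_mod_cast hk
  have := Real.pi_pos
  unfold M
  positivity

lemma real_mass {μ : Measure (E n)} (hμ : Str μ) (hn : 1 ≤ n) {k : ℕ} (hk : 1 ≤ k) :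
    μ.real (S n k) = M n k := by
  have e : ENNReal.ofReal (4 * n / (Real.pi ^ 2 * k ^ 2)) = ENNReal.ofReal (M n k) := rfl
  rw [measureReal_def, hμ.mass k hk, e, ENNReal.toReal_ofReal (M_pos hn hk).le]

lemma moments_int {μ : Measure (E n)} (hμ : Str μ) (hn : 1 ≤ n) {k : ℕ}
    (hk : 1 ≤ k) (m : ℕ) (ω : E n) :
    ∫ t in S n k, (inner ℝ t ω / (k * Real.pi)) ^ m ∂μ = M n k * D μ k m ω := by
  unfold D
  rw [setAverage_eq, real_mass hμ hn hk, smul_eq_mul, ← mul_assoc, mul_inv_cancel₀ (M_pos hn hk).ne',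
    one_mul]

lemma D_zero {μ : Measure (E n)} [IsFiniteMeasure μ] (hμ : Str μ) (hn : 1 ≤ n) {k : ℕ}
    (hk : 1 ≤ k) (ω : E n) : D μ k 0 ω = 1 := by
  have h := moments_int hμ hn hk 0 ω
  simp only [pow_zero] at h
  rw [setIntegral_const, real_mass hμ hn hk, smul_eq_mul, mul_one] at h
  have := M_pos hn hk
  field_simp at h
  exact h.symm

lemma Adm.zero (m : ℕ) : Adm m 0 := by
  intro i hi
  simp at hi

lemma Adm.sub {m : ℕ} {p q : Polynomial ℝ} (hp : Adm m p) (hq : Adm m q) : Adm m (p - q) := by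
  intro i hi
  rw [Polynomial.coeff_sub] at hi
  by_cases h : p.coeff i = 0
  · exact hq i (fun h2 => hi (by rw [h, h2, sub_zero]))
  · exact hp i h

lemma diffpoly {μ₁ μ₂ : Measure (E n)} [IsFiniteMeasure μ₁] [IsFiniteMeasure μ₂] (h1 : Str μ₁)
    (h2 : Str μ₂) (hn : 1 ≤ n) (ω : E n) (m : ℕ) :
    ∃ q : Polynomial ℝ, Adm m q ∧
      ∀ k : ℕ, 1 ≤ k → D μ₁ k m ω - D μ₂ k m ω = q.eval (1 / (k : ℝ)) := by
  by_cases hm : 4 ≤ m
  · obtain ⟨p, hp, hpe⟩ := h1.mom ω m hm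
    obtain ⟨q, hq, hqe⟩ := h2.mom ω m hm
    refine ⟨p - q, hp.sub hq, fun k hk => ?_⟩
    rw [hpe k hk, hqe k hk, Polynomial.eval_sub]
  · refine ⟨0, Adm.zero m, fun k hk => ?_⟩
    rw [Polynomial.eval_zero]
    have : m = 0 ∨ m = 1 ∨ m = 2 ∨ m = 3 := by omega
    rcases this with rfl | rfl | rfl | rfl
    · rw [D_zero h1 hn hk, D_zero h2 hn hk, sub_self]
    · rw [h1.mom_one ω k hk, h2.mom_one ω k hk, sub_self]
    · rw [h1.mom_two ω k hk, h2.mom_two ω k hk, sub_self]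
    · rw [h1.mom_three ω k hk, h2.mom_three ω k hk, sub_self]

lemma on_S {k : ℕ} {t : E n} (ht : t ∈ S n k) : ‖t‖ = k * Real.pi := ht

lemma ccos (k : ℕ) : ((Real.cos (k * Real.pi) : ℝ) : ℂ) = (-1) ^ k := by
  rw [Real.cos_nat_mul_pi]; push_cast; rfl

lemma sphere_int {μ : Measure (E n)} [IsFiniteMeasure μ] (hμ : Str μ) (hn : 1 ≤ n) (N : ℕ) {k : ℕ}
    (hk : 1 ≤ k) (ξ : E n) :
    ∫ t in S n k, PN N ξ t * (-((Real.cos ‖t‖ : ℝ) : ℂ)) ∂μ
      = ∑ m ∈ Finset.range (N + 1), ((-1) ^ (k + 1) * ((N.choose m : ℂ) * (-Complex.I) ^ m) *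
          (Complex.cos (((k : ℂ) * Real.pi) / N) ^ (N - m) *
            Complex.sin (((k : ℂ) * Real.pi) / N) ^ m)) * ((M n k * D μ k m ξ : ℝ) : ℂ) := by
  have hk0 : (0 : ℝ) < k * Real.pi := by
    have : (0 : ℝ) < k := by exact_mod_cast hk
    have := Real.pi_pos
    positivity
  have e1 : ∀ t ∈ S n k, PN N ξ t * (-((Real.cos ‖t‖ : ℝ) : ℂ))
      = ∑ m ∈ Finset.range (N + 1), ((-1) ^ (k + 1) * ((N.choose m : ℂ) * (-Complex.I) ^ m) *
          (Complex.cos (((k : ℂ) * Real.pi) / N) ^ (N - m) *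
            Complex.sin (((k : ℂ) * Real.pi) / N) ^ m)) *
              (((inner ℝ t ξ / (k * Real.pi)) ^ m : ℝ) : ℂ) := by
    intro t ht
    unfold PN
    rw [on_S ht, ccos]
    set x : ℝ := inner ℝ t ξ / (k * Real.pi)
    have e0 : (((k : ℝ) * Real.pi / (N : ℝ) : ℝ) : ℂ) = (k : ℂ) * Real.pi / N := by push_cast; rfl
    rw [e0]
    set c := Complex.cos ((k : ℂ) * Real.pi / N)
    set s := Complex.sin ((k : ℂ) * Real.pi / N)
    have e2 : c - Complex.I * (x : ℂ) * s = (-(Complex.I * (x : ℂ) * s)) + c := by ring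
    rw [e2, add_pow, Finset.sum_mul]
    apply Finset.sum_congr rfl
    intro m _
    have e3 : (-(Complex.I * (x : ℂ) * s)) ^ m = (-Complex.I) ^ m * (x : ℂ) ^ m * s ^ m := by
      rw [← mul_pow, ← mul_pow]; congr 1; ring
    rw [e3]
    push_cast
    ring
  rw [setIntegral_congr_fun (S_meas k) e1]
  rw [integral_finsetSum]
  · apply Finset.sum_congr rfl
    intro m _
    rw [integral_const_mul]
    congr 1
    rw [← moments_int hμ hn hk m ξ]
    exact integral_ofReal (𝕜 := ℂ) (f := fun t : E n => (inner ℝ t ξ / (k * Real.pi)) ^ m)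
  · intro m _
    apply Integrable.const_mul
    apply Measure.integrableOn_of_bounded (M := ‖ξ‖ ^ m) (measure_ne_top _ _)
    · apply Measurable.aestronglyMeasurable
      have h1 : Measurable (fun t : E n => inner ℝ t ξ) := by fun_prop
      fun_prop
    · rw [ae_restrict_iff' (S_meas k)]
      refine Eventually.of_forall fun t ht => ?_
      rw [Complex.norm_real, norm_pow]
      gcongr
      rw [norm_div, Real.norm_eq_abs, Real.norm_eq_abs, abs_of_pos hk0, div_le_iff₀ hk0]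
      have := abs_real_inner_le_norm t ξ
      rw [on_S ht] at this
      linarith

lemma PN_int {μ : Measure (E n)} [IsFiniteMeasure μ] (N : ℕ) {ξ : E n} (hξ : ‖ξ‖ ≤ 1) :
    Integrable (fun t => PN N ξ t * (-((Real.cos ‖t‖ : ℝ) : ℂ))) μ := by
  apply bdd_int (C := 1)
  · apply Measurable.aestronglyMeasurable
    have := PN_meas N ξ
    fun_prop
  · intro t
    rw [norm_mul, norm_neg, Complex.norm_real, Real.norm_eq_abs]
    have h1 := PN_le N hξ t
    have h2 := Real.abs_cos_le_one ‖t‖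
    calc ‖PN N ξ t‖ * |Real.cos ‖t‖| ≤ 1 * 1 := by gcongr
      _ = 1 := one_mul 1

lemma hasSum_cg {f g : ℕ → ℂ} {a : ℂ} (h : ∀ k, f k = g k) : HasSum f a ↔ HasSum g a := by
  rw [funext h]

/-- the difference of two structured measures -/
theorem eqN {μ₁ μ₂ : Measure (E n)} [IsFiniteMeasure μ₁] [IsFiniteMeasure μ₂] (h1 : Str μ₁)
    (h2 : Str μ₂) (hn : 1 ≤ n) {N : ℕ} (hN : 1 ≤ N) {ξ : E n} (hξ : ‖ξ‖ ≤ 1) :
    ∫ t, PN N ξ t * (-((Real.cos ‖t‖ : ℝ) : ℂ)) ∂μ₁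
      = ∫ t, PN N ξ t * (-((Real.cos ‖t‖ : ℝ) : ℂ)) ∂μ₂ := by
  have s1 := decomp h1.conc (PN_int (μ := μ₁) N hξ)
  have s2 := decomp h2.conc (PN_int (μ := μ₂) N hξ)
  have s3 := s1.sub s2
  set f : ℕ → ℂ := fun k => ∫ t in S n k, PN N ξ t * (-((Real.cos ‖t‖ : ℝ) : ℂ)) ∂μ₁
    - ∫ t in S n k, PN N ξ t * (-((Real.cos ‖t‖ : ℝ) : ℂ)) ∂μ₂ with hf
  have f0 : f 0 = 0 := by
    simp only [hf]
    rw [S_zero]
    have e : ∀ (μ : Measure (E n)), Str μ →
        ∫ t in ({0} : Set (E n)), PN N ξ t * (-((Real.cos ‖t‖ : ℝ) : ℂ)) ∂μ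
          = (((n : ℝ) / 3 : ℝ) : ℂ) * (PN N ξ 0 * (-((Real.cos ‖(0 : E n)‖ : ℝ) : ℂ))) := by
      intro μ hμ
      rw [integral_singleton, measureReal_def, hμ.mass_zero, ENNReal.toReal_ofReal (by positivity)]
      rfl
    rw [e μ₁ h1, e μ₂ h2, sub_self]
  have hterm : ∀ m ∈ Finset.range (N + 1), HasSum (fun k : ℕ =>
      ((-1) ^ (k + 1 + 1) * ((N.choose m : ℂ) * (-Complex.I) ^ m) *
          (Complex.cos ((((k + 1 : ℕ) : ℂ) * Real.pi) / N) ^ (N - m) *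
            Complex.sin ((((k + 1 : ℕ) : ℂ) * Real.pi) / N) ^ m)) *
              (((M n (k + 1) * D μ₁ (k + 1) m ξ : ℝ) : ℂ) - ((M n (k + 1) * D μ₂ (k + 1) m ξ : ℝ) : ℂ)))
                0 := by
    intro m hm
    obtain ⟨q, hq, hqe⟩ := diffpoly h1 h2 hn ξ m
    have key := (termZero (n := n) hN (by have := Finset.mem_range.1 hm; omega) hq).mul_left
      (-((N.choose m : ℂ) * (-Complex.I) ^ m))
    rw [mul_zero] at key
    refine (hasSum_cg fun k => ?_).2 key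
    have h3 : ((M n (k + 1) * D μ₁ (k + 1) m ξ : ℝ) : ℂ) - ((M n (k + 1) * D μ₂ (k + 1) m ξ : ℝ) : ℂ)
        = ((M n (k + 1) : ℝ) : ℂ) * ((q.eval (1 / ((k + 1 : ℕ) : ℝ)) : ℝ) : ℂ) := by
      rw [← hqe (k + 1) (by omega)]
      push_cast
      ring
    rw [h3, pow_succ]
    ring
  have h4 := hasSum_sum hterm
  rw [Finset.sum_const_zero] at h4
  have h5 : HasSum (fun k : ℕ => f (k + 1)) 0 := by
    refine (hasSum_cg fun k => ?_).2 h4
    simp only [hf]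
    rw [sphere_int h1 hn N (by omega) ξ, sphere_int h2 hn N (by omega) ξ, ← Finset.sum_sub_distrib]
    apply Finset.sum_congr rfl
    intro m _
    ring
  have h6 : HasSum f 0 := by
    have := (hasSum_nat_add_iff 1).1 h5
    simpa [f0] using this
  exact sub_eq_zero.1 (s3.unique h6)

/-- structured measures have the same Fourier transform in the ball -/
theorem eqF {μ₁ μ₂ : Measure (E n)} [IsFiniteMeasure μ₁] [IsFiniteMeasure μ₂] (h1 : Str μ₁)
    (h2 : Str μ₂) (hn : 1 ≤ n) {ξ : E n} (hξ : ‖ξ‖ ≤ 1) :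
    ∫ t, Complex.exp (-(Complex.I * ((inner ℝ t ξ : ℝ) : ℂ))) * (-((Real.cos ‖t‖ : ℝ) : ℂ)) ∂μ₁
      = ∫ t, Complex.exp (-(Complex.I * ((inner ℝ t ξ : ℝ) : ℂ)))
          * (-((Real.cos ‖t‖ : ℝ) : ℂ)) ∂μ₂ := by
  have lim : ∀ (μ : Measure (E n)) [IsFiniteMeasure μ], Tendsto (fun N : ℕ =>
      ∫ t, PN N ξ t * (-((Real.cos ‖t‖ : ℝ) : ℂ)) ∂μ) atTop
      (𝓝 (∫ t, Complex.exp (-(Complex.I * ((inner ℝ t ξ : ℝ) : ℂ)))
        * (-((Real.cos ‖t‖ : ℝ) : ℂ)) ∂μ)) := by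
    intro μ _
    apply tendsto_integral_of_dominated_convergence (fun _ => (1 : ℝ))
    · intro N
      exact (PN_int N hξ).aestronglyMeasurable
    · exact integrable_const _
    · intro N
      refine Eventually.of_forall fun t => ?_
      rw [norm_mul, norm_neg, Complex.norm_real, Real.norm_eq_abs]
      have h1 := PN_le N hξ t
      have h2 := Real.abs_cos_le_one ‖t‖
      calc ‖PN N ξ t‖ * |Real.cos ‖t‖| ≤ 1 * 1 := by gcongr
        _ = 1 := one_mul 1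
    · refine Eventually.of_forall fun t => ?_
      exact (PN_tendsto ξ t).mul_const _
  have l1 := lim μ₁
  have l2 := lim μ₂
  refine tendsto_nhds_unique l1 (l2.congr' ?_)
  filter_upwards [eventually_ge_atTop 1] with N hN
  exact (eqN h1 h2 hn hN hξ).symm

end Pool.Agent.K7.H38.LB
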