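import Pool.Agent.K7.H38.LB.PW3

set_option autoImplicit false

open Filter Topology Metric Set MeasureTheory
open scoped ENNReal
open Pool.Agent.Helper797.Bs

namespace Pool.Agent.K7.H38.LB

variable {n : ℕ}

/-! ### growth from the values on `ℝⁿ` -/

lemma imn_line (x : E n) {η : E n} (hη : ‖η‖ = 1) (w : ℂ) : imn (cx x + w • cx η) = |w.im| :=
  imn_shift hη x w

lemma cx_norm_le (x : E n) : ‖cx x‖ ≤ ‖x‖ := by
  rw [pi_norm_le_iff_of_nonneg (norm_nonneg _)]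
  intro i
  unfold cx
  rw [Complex.norm_real]
  exact PiLp.norm_apply_le x i

/-- Phragmén-Lindelöf -/
theorem gro_of_real {F : (Fin n → ℂ) → ℂ} (hF : Differentiable ℂ F)
    (hg : ∀ ε > 0, ∃ C : ℝ, 0 ≤ C ∧ ∀ z, ‖F z‖ ≤ C * Real.exp (imn z + ε * ‖z‖)) {M : ℝ}
    (hM : ∀ t : E n, ‖F (cx t)‖ ≤ M) : Gro F M := by
  intro z
  -- `z = x + i y`
  set x : E n := WithLp.toLp 2 (fun i => (z i).re) with hx
  set y : E n := WithLp.toLp 2 (fun i => (z i).im) with hy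
  have hz : z = cx x + Complex.I • cx y := by
    funext i
    simp only [cx, hx, hy, Pi.add_apply, Pi.smul_apply, smul_eq_mul]
    rw [mul_comm]
    exact (Complex.re_add_im (z i)).symm
  have himn : imn z = ‖y‖ := by
    unfold imn
    rw [EuclideanSpace.norm_eq]
    congr 1
    apply Finset.sum_congr rfl
    intro i _
    rw [Real.norm_eq_abs, sq_abs]
  by_cases hy0 : ‖y‖ = 0
  · have : y = 0 := norm_eq_zero.1 hy0
    rw [himn, hy0, Real.exp_zero, mul_one, hz, this]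
    have e : cx x + Complex.I • cx (0 : E n) = cx x := by
      funext i; simp [cx]
    rw [e]
    exact hM x
  set η : E n := (‖y‖)⁻¹ • y with hη
  have hη1 : ‖η‖ = 1 := by
    rw [hη, norm_smul, norm_inv, norm_norm, inv_mul_cancel₀ hy0]
  have hzl : z = cx x + ((‖y‖ : ℝ) * Complex.I) • cx η := by
    rw [hz]
    congr 1
    funext i
    simp only [cx, hη, Pi.smul_apply, smul_eq_mul, PiLp.smul_apply]
    push_cast
    have : ((‖y‖ : ℝ) : ℂ) ≠ 0 := by exact_mod_cast hy0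
    field_simp
  have hd : Differentiable ℂ (fun w : ℂ => F (cx x + w • cx η)) := hF.comp (by fun_prop)
  have key := pl_bound hd (σ := 1) (M := M) zero_le_one ?_ ?_ ((‖y‖ : ℝ) * Complex.I)
  · rw [hzl, imn_line x hη1]
    have him : (((‖y‖ : ℝ) : ℂ) * Complex.I).im = ‖y‖ := by simp
    rw [him] at key ⊢
    rw [one_mul] at key
    exact key
  · intro ε hε
    obtain ⟨C, hC, hb⟩ := hg ε hε
    refine ⟨C * Real.exp (ε * ‖x‖), fun w => ?_⟩
    refine (hb _).trans ?_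
    rw [imn_line x hη1, mul_assoc, ← Real.exp_add]
    apply mul_le_mul_of_nonneg_left _ hC
    apply Real.exp_le_exp.2
    have h1 : ‖cx x + w • cx η‖ ≤ ‖x‖ + ‖w‖ := by
      refine (norm_add_le _ _).trans ?_
      rw [norm_smul]
      have h2 := cx_norm_le x
      have h3 := cx_norm_le η
      rw [hη1] at h3
      have : ‖w‖ * ‖cx η‖ ≤ ‖w‖ * 1 := by gcongr
      linarith
    have h4 := Complex.abs_im_le_norm w
    nlinarith
  · intro r
    have e : cx x + (r : ℂ) • cx η = cx (x + r • η) := by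
      rw [cx_smul]
      funext i
      simp [cx]
    rw [e]
    exact hM _

/-! ### functions of `z · z` -/

/-- `z · z` -/
noncomputable def dot (z : Fin n → ℂ) : ℂ := ∑ i, z i ^ 2

lemma dot_diff : Differentiable ℂ (dot : (Fin n → ℂ) → ℂ) := by
  unfold dot
  fun_prop

lemma dot_cx (t : E n) : dot (cx t) = ((‖t‖ ^ 2 : ℝ) : ℂ) := by
  unfold dot cx
  rw [EuclideanSpace.real_norm_sq_eq]
  push_cast
  rfl

lemma im_sqrt_le (z : Fin n → ℂ) : |(Complex.sqrt (dot z)).im| ≤ imn z := by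
  unfold imn
  apply Real.abs_le_sqrt
  have h0 := two_im_sq (Complex.sqrt (dot z))
  rw [sq_sqrt] at h0
  have h1 : ‖dot z‖ ≤ ∑ i, ‖z i ^ 2‖ := norm_sum_le _ _
  have h2 : (dot z).re = ∑ i, (z i ^ 2).re := by
    unfold dot; rw [Complex.re_sum]
  have h3 : ∑ i, (2 * (z i).im ^ 2) = ∑ i, (‖z i ^ 2‖ - (z i ^ 2).re) :=
    Finset.sum_congr rfl fun i _ => two_im_sq (z i)
  rw [← Finset.mul_sum, Finset.sum_sub_distrib] at h3
  linarith

/-- `Φ(s²)` with `|Φ(s²)| ≤ K exp |Im s|` -/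
def Sg (Φ : ℂ → ℂ) (K : ℝ) : Prop := ∀ w, ‖Φ w‖ ≤ K * Real.exp |(Complex.sqrt w).im|

lemma Sg.ev {f : ℂ → ℂ} {K : ℝ} (hf : ∀ z, ‖f z‖ ≤ K * Real.exp |z.im|) : Sg (ev f) K := fun w => by
  unfold Pool.Agent.Helper797.Bs.ev
  exact hf _

/-! ### the nodes -/

/-- `a_k = (k π)²` -/
noncomputable def an (k : ℕ) : ℂ := ((k : ℂ) * Real.pi) ^ 2

/-- `w ↦ sin √w / √w` -/
noncomputable def sv : ℂ → ℂ := ev snc

lemma sv_diff : Differentiable ℂ sv := evsnc_diff

lemma kpi_ne {k : ℕ} (hk : 1 ≤ k) : (k : ℂ) * Real.pi ≠ 0 := by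
  have h1 : (k : ℂ) ≠ 0 := by
    have : k ≠ 0 := by omega
    exact_mod_cast this
  have h2 : (Real.pi : ℂ) ≠ 0 := by exact_mod_cast Real.pi_ne_zero
  exact mul_ne_zero h1 h2

lemma sv_sq (s : ℂ) : sv (s ^ 2) = snc s := ev_eq snc_neg rfl

lemma sv_node {k : ℕ} (hk : 1 ≤ k) : sv (an k) = 0 := by
  unfold an
  rw [sv_sq, snc_ne (kpi_ne hk), Complex.sin_nat_mul_pi, zero_div]

lemma sv_zero : sv 0 = 1 := by
  have := sv_sq 0
  rw [snc_zero] at this
  simpa using this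

lemma ccos' (k : ℕ) : Complex.cos ((k : ℂ) * Real.pi) = (-1) ^ k := by
  have h := ccos k
  push_cast at h
  exact h

lemma sv_deriv {k : ℕ} (hk : 1 ≤ k) : deriv sv (an k) = (-1) ^ k / (2 * an k) := by
  unfold sv an
  rw [ev_deriv snc_diff snc_neg (kpi_ne hk) (snc_deriv (kpi_ne hk)), Complex.sin_nat_mul_pi, ccos']
  have h1 := left_ne_zero_of_mul (kpi_ne hk)
  have h2 := right_ne_zero_of_mul (kpi_ne hk)
  field_simp
  ring

lemma an_inj {j k : ℕ} (h : an j = an k) : j = k := by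
  unfold an at h
  have h1 : ((j : ℝ) * Real.pi) ^ 2 = ((k : ℝ) * Real.pi) ^ 2 := by exact_mod_cast h
  have hpi := Real.pi_pos
  have h2 : (j : ℝ) * Real.pi = k * Real.pi :=
    (sq_eq_sq₀ (by positivity) (by positivity)).1 h1
  have h3 := mul_right_cancel₀ hpi.ne' h2
  exact_mod_cast h3

lemma sv_Sg : ∃ K : ℝ, 0 ≤ K ∧ Sg sv K := by
  obtain ⟨K, hK, hb⟩ := snc_bound
  exact ⟨K, hK, Sg.ev hb⟩

/-- `sv(w) / (w - a_j)` -/
noncomputable def Pj (j : ℕ) : ℂ → ℂ := dslope sv (an j)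

lemma Pj_diff (j : ℕ) : Differentiable ℂ (Pj j) := by
  have h : DifferentiableOn ℂ (Pj j) univ :=
    (Complex.differentiableOn_dslope (by simp)).2 sv_diff.differentiableOn
  exact fun z => (h z (mem_univ z)).differentiableAt (by simp)

lemma Pj_ne {j : ℕ} (hj : 1 ≤ j) {w : ℂ} (h : w ≠ an j) : Pj j w = sv w / (w - an j) := by
  unfold Pj
  rw [dslope_of_ne _ h, slope_def_field, sv_node hj, sub_zero]

lemma Pj_same {j : ℕ} (hj : 1 ≤ j) : Pj j (an j) = (-1) ^ j / (2 * an j) := by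
  unfold Pj
  rw [dslope_same, sv_deriv hj]

lemma Pj_other {j k : ℕ} (hj : 1 ≤ j) (hk : 1 ≤ k) (hjk : k ≠ j) : Pj j (an k) = 0 := by
  rw [Pj_ne hj (fun h => hjk (an_inj h)), sv_node hk, zero_div]

lemma Pj_Sg {j : ℕ} (hj : 1 ≤ j) : ∃ K : ℝ, 0 ≤ K ∧ Sg (Pj j) K := by
  obtain ⟨K, hK, hb⟩ := sv_Sg
  obtain ⟨C, hC⟩ := (isCompact_closedBall (an j) 1).exists_bound_of_continuousOn
    (Pj_diff j).continuous.continuousOn
  refine ⟨max C K, le_max_of_le_right hK, fun w => ?_⟩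
  have he : 1 ≤ Real.exp |(Complex.sqrt w).im| := Real.one_le_exp (abs_nonneg _)
  rcases le_total ‖w - an j‖ 1 with h | h
  · have h1 := hC w (by simpa [dist_eq_norm] using h)
    have h2 : C ≤ max C K := le_max_left _ _
    have h3 : (0:ℝ) ≤ max C K := le_max_of_le_right hK
    nlinarith
  · have hne : w ≠ an j := by
      intro h0; rw [h0, sub_self, norm_zero] at h; linarith
    rw [Pj_ne hj hne, norm_div]
    have h2 : ‖sv w‖ / ‖w - an j‖ ≤ ‖sv w‖ := div_le_self (norm_nonneg _) h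
    refine (h2.trans (hb w)).trans ?_
    gcongr
    exact le_max_right _ _

/-- the weights -/
noncomputable def lam (J : Finset ℕ) (j : ℕ) : ℂ := ∏ i ∈ J.erase j, (an j - an i)⁻¹

/-- `sv(w) / ∏ (w - a_j)` -/
noncomputable def GJ (J : Finset ℕ) (w : ℂ) : ℂ := ∑ j ∈ J, lam J j * Pj j w

lemma GJ_diff (J : Finset ℕ) : Differentiable ℂ (GJ J) := by
  unfold GJ
  exact Differentiable.fun_sum fun j _ => (Pj_diff j).const_mul _

lemma GJ_Sg {J : Finset ℕ} (hJ : ∀ j ∈ J, 1 ≤ j) : ∃ K : ℝ, 0 ≤ K ∧ Sg (GJ J) K := by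
  have h : ∀ j : ℕ, ∃ K : ℝ, 0 ≤ K ∧ (1 ≤ j → Sg (Pj j) K) := by
    intro j
    by_cases hj : 1 ≤ j
    · obtain ⟨K, hK, hb⟩ := Pj_Sg hj
      exact ⟨K, hK, fun _ => hb⟩
    · exact ⟨0, le_rfl, fun h => absurd h hj⟩
  choose K hK hb using h
  refine ⟨∑ j ∈ J, ‖lam J j‖ * K j, Finset.sum_nonneg fun j _ => mul_nonneg (norm_nonneg _) (hK j),
    fun w => ?_⟩
  unfold GJ
  refine (norm_sum_le _ _).trans ?_
  rw [Finset.sum_mul]
  apply Finset.sum_le_sum
  intro j hj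
  rw [norm_mul, mul_assoc]
  gcongr
  exact hb j (hJ j hj) w

lemma GJ_node {J : Finset ℕ} (hJ : ∀ j ∈ J, 1 ≤ j) {k : ℕ} (hk : k ∈ J) :
    GJ J (an k) = lam J k * ((-1) ^ k / (2 * an k)) := by
  unfold GJ
  rw [Finset.sum_eq_single k]
  · rw [Pj_same (hJ k hk)]
  · intro j hj hjk
    rw [Pj_other (hJ j hj) (hJ k hk) hjk.symm, mul_zero]
  · intro h; exact absurd hk h

lemma GJ_other {J : Finset ℕ} (hJ : ∀ j ∈ J, 1 ≤ j) {k : ℕ} (hk : k ∉ J) (hk1 : 1 ≤ k) :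
    GJ J (an k) = 0 := by
  unfold GJ
  apply Finset.sum_eq_zero
  intro j hj
  rw [Pj_other (hJ j hj) hk1 (fun h => hk (h ▸ hj)), mul_zero]

/-- product formula -/
lemma GJ_prod {J : Finset ℕ} (hJ : ∀ j ∈ J, 1 ≤ j) (hne : J.Nonempty) {w : ℂ}
    (hw : ∀ j ∈ J, w ≠ an j) : GJ J w = sv w * ∏ j ∈ J, (w - an j)⁻¹ := by
  have h1 := Lagrange.sum_basis (s := J) (v := an) (fun i _ j _ h => an_inj h) hne
  have h2 := congrArg (Polynomial.eval w) h1
  rw [Polynomial.eval_finsetSum, Polynomial.eval_one] at h2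
  have h3 : ∀ j ∈ J, (Lagrange.basis J an j).eval w = lam J j * ∏ i ∈ J.erase j, (w - an i) := by
    intro j _
    unfold Lagrange.basis lam
    rw [Polynomial.eval_prod, ← Finset.prod_mul_distrib]
    apply Finset.prod_congr rfl
    intro i _
    unfold Lagrange.basisDivisor
    simp
  rw [Finset.sum_congr rfl h3] at h2
  have hP : ∏ j ∈ J, (w - an j) ≠ 0 := Finset.prod_ne_zero_iff.2 fun j hj => sub_ne_zero.2 (hw j hj)
  rw [Finset.prod_inv_distrib]
  have h4 : GJ J w * ∏ j ∈ J, (w - an j) = sv w := by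
    unfold GJ
    rw [Finset.sum_mul]
    calc ∑ j ∈ J, lam J j * Pj j w * ∏ i ∈ J, (w - an i)
        = ∑ j ∈ J, sv w * (lam J j * ∏ i ∈ J.erase j, (w - an i)) := by
          apply Finset.sum_congr rfl
          intro j hj
          rw [Pj_ne (hJ j hj) (hw j hj), ← Finset.mul_prod_erase J _ hj]
          have := sub_ne_zero.2 (hw j hj)
          field_simp
      _ = sv w := by rw [← Finset.mul_sum, h2, mul_one]
  rw [← h4]
  field_simp

end Pool.Agent.K7.H38.LB
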