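import Pool.Agent.K7.H38.LB.Test

set_option autoImplicit false

open Filter Topology Metric Set MeasureTheory
open scoped ENNReal
open Pool.Agent.Helper797.Bs

namespace Pool.Agent.K7.H38.LB

variable {n : ℕ}

lemma Sg.gro {Φ : ℂ → ℂ} {K : ℝ} (hK : 0 ≤ K) (h : Sg Φ K) :
    Gro (fun z : Fin n → ℂ => Φ (dot z)) K := by
  intro z
  refine (h (dot z)).trans ?_
  gcongr
  exact im_sqrt_le z

/-- the linear form -/
noncomputable def lin (ω : E n) (z : Fin n → ℂ) : ℂ := ∑ i, ((ω i : ℝ) : ℂ) * z i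

lemma lin_diff (ω : E n) : Differentiable ℂ (lin ω) := by
  unfold lin
  fun_prop

lemma lin_cx (ω t : E n) : lin ω (cx t) = ((inner ℝ t ω : ℝ) : ℂ) := by
  unfold lin cx
  rw [PiLp.inner_apply]
  push_cast
  apply Finset.sum_congr rfl
  intro i _
  simp

lemma lin_le (ω : E n) (z : Fin n → ℂ) : ‖lin ω z‖ ≤ (∑ i, |ω i|) * ‖z‖ := by
  unfold lin
  refine (norm_sum_le _ _).trans ?_
  rw [Finset.sum_mul]
  apply Finset.sum_le_sum
  intro i _
  rw [norm_mul, Complex.norm_real, Real.norm_eq_abs]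
  gcongr
  exact norm_le_pi_norm z i

/-- the test functions -/
noncomputable def TF (ω : E n) (m : ℕ) (J : Finset ℕ) (z : Fin n → ℂ) : ℂ :=
  lin ω z ^ m * GJ J (dot z)

lemma TF_diff (ω : E n) (m : ℕ) (J : Finset ℕ) : Differentiable ℂ (TF ω m J) := by
  unfold TF
  exact ((lin_diff ω).pow m).mul ((GJ_diff J).comp dot_diff)

lemma pow_le_exp {ε : ℝ} (hε : 0 < ε) (m : ℕ) {t : ℝ} (ht : 0 ≤ t) :
    t ^ m ≤ (m.factorial / ε ^ m) * Real.exp (ε * t) := by
  have h := Real.pow_div_factorial_le_exp (ε * t) (by positivity) m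
  rw [div_le_iff₀ (by positivity)] at h
  rw [div_mul_eq_mul_div, le_div_iff₀ (by positivity)]
  rw [mul_pow] at h
  linarith

lemma snc_real_inv {r : ℝ} (hr : 0 < r) : ‖snc (r : ℂ)‖ ≤ 1 / r := by
  have hc : (r : ℂ) ≠ 0 := by exact_mod_cast hr.ne'
  rw [snc_ne hc, ← Complex.ofReal_sin, ← Complex.ofReal_div, Complex.norm_real, Real.norm_eq_abs,
    abs_div, abs_of_pos hr]
  gcongr
  exact Real.abs_sin_le_one r

lemma TF_real {ω : E n} {m : ℕ} {J : Finset ℕ} (hJ : ∀ j ∈ J, 1 ≤ j) (hne : J.Nonempty)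
    (hm : m ≤ 2 * J.card + 1) : ∃ M : ℝ, 0 ≤ M ∧ ∀ t : E n, ‖TF ω m J (cx t)‖ ≤ M := by
  set R : ℝ := 2 * (∑ j ∈ J, (j : ℝ) * Real.pi) + 1 with hR
  have hpi := Real.pi_pos
  have hsum : 0 ≤ ∑ j ∈ J, (j : ℝ) * Real.pi := Finset.sum_nonneg fun j _ => by positivity
  obtain ⟨C, hC⟩ := (isCompact_closedBall (0 : E n) R).exists_bound_of_continuousOn
    (((TF_diff ω m J).continuous.comp cx_cont).continuousOn)
  refine ⟨max C (‖ω‖ ^ m * 2 ^ J.card), le_max_of_le_right (by positivity), fun t => ?_⟩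
  rcases le_total ‖t‖ R with h | h
  · exact (hC t (by simpa using h)).trans (le_max_left _ _)
  · refine le_trans ?_ (le_max_right _ _)
    set r := ‖t‖ with hr
    have hr1 : 1 ≤ r := by linarith
    have hr0 : 0 < r := by linarith
    have hj : ∀ j ∈ J, ((j : ℝ) * Real.pi) ^ 2 ≤ r ^ 2 / 2 := by
      intro j hj
      have h1 : (j : ℝ) * Real.pi ≤ ∑ j ∈ J, (j : ℝ) * Real.pi :=
        Finset.single_le_sum (f := fun j : ℕ => (j : ℝ) * Real.pi) (fun i _ => by positivity) hj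
      have h2 : 2 * ((j : ℝ) * Real.pi) ≤ r := by linarith
      have h3 : 0 ≤ (j : ℝ) * Real.pi := by positivity
      nlinarith
    have han : ∀ j : ℕ, an j = ((((j : ℝ) * Real.pi) ^ 2 : ℝ) : ℂ) := by
      intro j; unfold an; push_cast; rfl
    have hdist : ∀ j ∈ J, r ^ 2 / 2 ≤ ‖((r ^ 2 : ℝ) : ℂ) - an j‖ := by
      intro j hjJ
      rw [han, ← Complex.ofReal_sub, Complex.norm_real, Real.norm_eq_abs]
      have := hj j hjJ
      refine le_trans ?_ (le_abs_self _)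
      linarith
    have hneq : ∀ j ∈ J, ((r ^ 2 : ℝ) : ℂ) ≠ an j := by
      intro j hjJ h0
      have h1 := hdist j hjJ
      rw [h0, sub_self, norm_zero] at h1
      nlinarith
    unfold TF
    rw [lin_cx, dot_cx, ← hr, GJ_prod hJ hne hneq, norm_mul, norm_mul, norm_pow, norm_prod,
      Complex.norm_real, Real.norm_eq_abs]
    have e1 : sv ((r ^ 2 : ℝ) : ℂ) = snc (r : ℂ) := by
      rw [← sv_sq]; push_cast; rfl
    rw [e1]
    have b1 : |inner ℝ t ω| ^ m ≤ (r * ‖ω‖) ^ m := by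
      gcongr
      exact abs_real_inner_le_norm t ω
    have b2 := snc_real_inv hr0
    have b3 : ∏ j ∈ J, ‖(((r ^ 2 : ℝ) : ℂ) - an j)⁻¹‖ ≤ (2 / r ^ 2) ^ J.card := by
      rw [← Finset.prod_const]
      apply Finset.prod_le_prod (fun _ _ => norm_nonneg _)
      intro j hjJ
      rw [norm_inv, inv_eq_one_div, div_le_div_iff₀ (by
        have := hdist j hjJ
        have : 0 < r ^ 2 / 2 := by positivity
        linarith) (by positivity)]
      have := hdist j hjJ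
      linarith
    calc |inner ℝ t ω| ^ m * (‖snc (r : ℂ)‖ * ∏ j ∈ J, ‖(((r ^ 2 : ℝ) : ℂ) - an j)⁻¹‖)
        ≤ (r * ‖ω‖) ^ m * (1 / r * (2 / r ^ 2) ^ J.card) := by gcongr
      _ = ‖ω‖ ^ m * 2 ^ J.card * (r ^ m / r ^ (2 * J.card + 1)) := by
          rw [mul_pow, div_pow, ← pow_mul, pow_succ]
          field_simp
      _ ≤ ‖ω‖ ^ m * 2 ^ J.card * 1 := by
          gcongr
          apply div_le_one_of_le₀ _ (by positivity)
          exact pow_le_pow_right₀ hr1 hm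
      _ = _ := mul_one _

lemma TF_gro {ω : E n} {m : ℕ} {J : Finset ℕ} (hJ : ∀ j ∈ J, 1 ≤ j) (hne : J.Nonempty)
    (hm : m ≤ 2 * J.card + 1) : ∃ M : ℝ, 0 ≤ M ∧ Gro (TF ω m J) M := by
  obtain ⟨M, hM, hb⟩ := TF_real (ω := ω) hJ hne hm
  obtain ⟨K, hK, hg⟩ := GJ_Sg hJ
  refine ⟨M, hM, gro_of_real (TF_diff ω m J) (fun ε hε => ?_) hb⟩
  set A : ℝ := ∑ i, |ω i| with hA
  have hA0 : 0 ≤ A := Finset.sum_nonneg fun i _ => abs_nonneg _
  refine ⟨A ^ m * (m.factorial / ε ^ m) * K, by positivity, fun z => ?_⟩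
  unfold TF
  rw [norm_mul, norm_pow]
  have h1 := lin_le ω z
  have h2 := pow_le_exp hε m (norm_nonneg z)
  have h3 := hg.gro hK z
  rw [Real.exp_add]
  calc ‖lin ω z‖ ^ m * ‖GJ J (dot z)‖ ≤ (A * ‖z‖) ^ m * (K * Real.exp (imn z)) := by gcongr
    _ = A ^ m * ‖z‖ ^ m * (K * Real.exp (imn z)) := by rw [mul_pow]
    _ ≤ A ^ m * ((m.factorial / ε ^ m) * Real.exp (ε * ‖z‖)) * (K * Real.exp (imn z)) := by gcongr
    _ = _ := by ring

end Pool.Agent.K7.H38.LB
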